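import Mathlib

set_option autoImplicit false

namespace Pool.Agent.H228_Iso

open scoped Pointwise

/-- An action of a group by order-preserving bijections of a linear order. -/
class OAct (G Ω : Type*) [Group G] [LinearOrder Ω] [MulAction G Ω] : Prop where
  mono : ∀ (g : G) (x y : Ω), x ≤ y → g • x ≤ g • y

section Basic

variable {G Ω : Type*} [Group G] [LinearOrder Ω] [MulAction G Ω] [OAct G Ω]

theorem smul_le (g : G) (x y : Ω) : g • x ≤ g • y ↔ x ≤ y := by
  constructor
  · intro h
    have := OAct.mono g⁻¹ _ _ h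
    simpa using this
  · exact OAct.mono g x y

theorem smul_lt (g : G) (x y : Ω) : g • x < g • y ↔ x < y := by
  rw [← not_le, ← not_le, smul_le]

theorem smul_le' (g : G) (x y : Ω) : g • x ≤ y ↔ x ≤ g⁻¹ • y := by
  rw [← smul_le g x (g⁻¹ • y), smul_inv_smul]

theorem le_smul' (g : G) (x y : Ω) : x ≤ g • y ↔ g⁻¹ • x ≤ y := by
  rw [← smul_le g (g⁻¹ • x) y, smul_inv_smul]

theorem smul_lt' (g : G) (x y : Ω) : g • x < y ↔ x < g⁻¹ • y := by
  rw [← smul_lt g x (g⁻¹ • y), smul_inv_smul]

theorem lt_smul' (g : G) (x y : Ω) : x < g • y ↔ g⁻¹ • x < y := by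
  rw [← smul_lt g (g⁻¹ • x) y, smul_inv_smul]

instance instOActDual : OAct G Ωᵒᵈ where
  mono g x y h := OAct.mono (Ω := Ω) g (OrderDual.ofDual y) (OrderDual.ofDual x) h

omit [LinearOrder Ω] [OAct G Ω] in
theorem mem_smul (g : G) (S : Set Ω) (x : Ω) : x ∈ g • S ↔ g⁻¹ • x ∈ S :=
  Set.mem_smul_set_iff_inv_smul_mem

theorem smul_lower (g : G) {S : Set Ω} (hS : IsLowerSet S) : IsLowerSet (g • S) := by
  intro x y hyx hx
  rw [mem_smul] at hx ⊢
  exact hS (OAct.mono _ _ _ hyx) hx

omit [LinearOrder Ω] [OAct G Ω] in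
theorem smul_subset (g : G) (S T : Set Ω) : g • S ⊆ g • T ↔ S ⊆ T :=
  Set.smul_set_subset_smul_set_iff

theorem pow_fix {g : G} {x : Ω} {n : ℕ} (hn : 0 < n) (h : g ^ n • x = x) : g • x = x := by
  rcases lt_trichotomy (g • x) x with h1 | h1 | h1
  · exfalso
    have : ∀ k : ℕ, g ^ (k + 1) • x < x := by
      intro k
      induction k with
      | zero => simpa using h1
      | succ k ih =>
        rw [pow_succ, mul_smul]
        exact lt_trans ((smul_lt _ _ _).2 h1) ih
    obtain ⟨k, rfl⟩ : ∃ k, n = k + 1 := ⟨n - 1, by omega⟩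
    exact (this k).ne h
  · exact h1
  · exfalso
    have : ∀ k : ℕ, x < g ^ (k + 1) • x := by
      intro k
      induction k with
      | zero => simpa using h1
      | succ k ih =>
        rw [pow_succ, mul_smul]
        exact lt_trans ih ((smul_lt _ _ _).2 h1)
    obtain ⟨k, rfl⟩ : ∃ k, n = k + 1 := ⟨n - 1, by omega⟩
    exact (this k).ne' h

end Basic

/-- The maximality property of the stabiliser of the base point. -/
def MaxProp (G : Type*) {Ω : Type*} [Group G] [LinearOrder Ω] [MulAction G Ω] (x0 : Ω) : Prop :=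
  ∀ V : Subgroup G, (∀ g : G, ∀ v ∈ V, x0 ≤ g • x0 → g • x0 ≤ v • x0 → g ∈ V) →
    (∃ u ∈ V, x0 < u • x0) → V = ⊤

section Lsm

variable {G Ω : Type*} [Group G] [LinearOrder Ω] [MulAction G Ω] [OAct G Ω]

theorem MaxProp.dual {x0 : Ω} (h : MaxProp G x0) :
    MaxProp G (OrderDual.toDual x0) := by
  intro V hV hu
  apply h V
  · intro g v hv h1 h2
    have h3 : v⁻¹ * g ∈ V := by
      apply hV (v⁻¹ * g) v⁻¹ (V.inv_mem hv)
      · show (v⁻¹ * g) • x0 ≤ x0
        rw [mul_smul, smul_le', inv_inv]
        exact h2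
      · show v⁻¹ • x0 ≤ (v⁻¹ * g) • x0
        rw [mul_smul, smul_le]
        exact h1
    have := V.mul_mem hv h3
    simpa using this
  · obtain ⟨u, hu, hlt⟩ := hu
    refine ⟨u⁻¹, V.inv_mem hu, ?_⟩
    have hlt' : u • x0 < x0 := hlt
    rw [smul_lt'] at hlt'
    exact hlt'

/-- Lower submonoid lemma. -/
theorem lsm {x0 : Ω} (h : MaxProp G x0) (T : Set G) (hmul : ∀ a ∈ T, ∀ b ∈ T, a * b ∈ T)
    (hlow : ∀ g : G, g • x0 ≤ x0 → g ∈ T) (hu : ∃ u ∈ T, x0 < u • x0) : ∀ g : G, g ∈ T := by
  let V : Subgroup G :=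
    { carrier := {g | g ∈ T ∧ g⁻¹ ∈ T}
      mul_mem' := by
        rintro a b ⟨ha, ha'⟩ ⟨hb, hb'⟩
        refine ⟨hmul _ ha _ hb, ?_⟩
        rw [mul_inv_rev]
        exact hmul _ hb' _ ha'
      one_mem' := by
        refine ⟨hlow 1 (by simp), ?_⟩
        exact hlow 1⁻¹ (by simp)
      inv_mem' := by
        rintro a ⟨ha, ha'⟩
        exact ⟨ha', by simpa using ha⟩ }
  have hV : V = ⊤ := by
    apply h V
    · rintro g v ⟨hv, hv'⟩ h1 h2
      refine ⟨?_, ?_⟩
      · have h3 : v⁻¹ * g ∈ T := by
          apply hlow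
          rw [mul_smul, smul_le', inv_inv]
          exact h2
        have := hmul _ hv _ h3
        simpa using this
      · apply hlow
        rw [smul_le', inv_inv]
        exact h1
    · obtain ⟨u, hu, hlt⟩ := hu
      refine ⟨u, ⟨hu, ?_⟩, hlt⟩
      apply hlow
      rw [smul_le', inv_inv]
      exact hlt.le
  intro g
  have : g ∈ V := hV ▸ Subgroup.mem_top g
  exact this.1

/-- No proper nonempty lower set is mapped into itself by right multiplication by `u`. -/
theorem transl {x0 : Ω} (h : MaxProp G x0) (htr : ∀ x : Ω, ∃ g : G, g • x0 = x) {S : Set Ω}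
    (hS : IsLowerSet S) (hne : ∃ s, s ∈ S) (hne' : ∃ s, s ∉ S) {b : Ω} (hb : x0 < b) :
    ∃ g : G, g • x0 ∈ S ∧ g • b ∉ S := by
  by_contra hcon
  push Not at hcon
  obtain ⟨u, rfl⟩ := htr b
  have hall := lsm h {e : G | ∀ g : G, g • x0 ∈ S → g • e • x0 ∈ S}
    (by
      intro a ha b hb g hg
      rw [mul_smul, ← mul_smul g a]
      apply hb
      rw [mul_smul]
      exact ha g hg)
    (by
      intro e he g hg
      exact hS (OAct.mono _ _ _ he) hg)
    ⟨u, fun g hg => hcon g hg, hb⟩
  obtain ⟨s, hs⟩ := hne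
  obtain ⟨t, ht⟩ := hne'
  obtain ⟨g, rfl⟩ := htr s
  obtain ⟨g', rfl⟩ := htr t
  apply ht
  have := hall (g⁻¹ * g') g hs
  rwa [← mul_smul, mul_inv_cancel_left] at this

/-- A subgroup containing all elements moving the base point into an interval around it is the
whole group. -/
theorem gen {x0 : Ω} (h : MaxProp G x0) {a b : Ω} (ha : a < x0) (hb : x0 < b)
    (hd : ∃ g : G, x0 < g • x0 ∧ g • x0 < b)
    (E : Subgroup G) (hE : ∀ g : G, a < g • x0 → g • x0 < b → g ∈ E) : E = ⊤ := by
  let V : Subgroup G :=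
    { carrier := {v | ∀ g : G, g • x0 ∈ Set.uIcc x0 (v • x0) → g ∈ E}
      mul_mem' := by
        intro v w hv hw g hg
        have h1 := Set.uIcc_subset_uIcc_union_uIcc (b := v • x0) hg
        rcases h1 with h1 | h1
        · exact hv g h1
        · have h2 : v⁻¹ * g ∈ E := by
            apply hw
            rw [Set.mem_uIcc] at h1 ⊢
            rw [mul_smul] at *
            rcases h1 with ⟨h1, h2⟩ | ⟨h1, h2⟩
            · left
              constructor
              · rwa [le_smul', inv_inv]
              · rwa [smul_le', inv_inv]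
            · right
              constructor
              · rwa [le_smul', inv_inv]
              · rwa [smul_le', inv_inv]
          have h3 : v ∈ E := hv v Set.right_mem_uIcc
          have := E.mul_mem h3 h2
          simpa using this
      one_mem' := by
        intro g hg
        simp only [one_smul, Set.uIcc_self, Set.mem_singleton_iff] at hg
        exact hE g (by rw [hg]; exact ha) (by rw [hg]; exact hb)
      inv_mem' := by
        intro v hv g hg
        have h3 : v ∈ E := hv v Set.right_mem_uIcc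
        have h2 : v * g ∈ E := by
          apply hv
          rw [Set.mem_uIcc] at hg ⊢
          rw [mul_smul]
          rcases hg with ⟨h1, h2⟩ | ⟨h1, h2⟩
          · right
            constructor
            · rw [smul_le]; exact h1
            · rw [smul_le']; exact h2
          · left
            constructor
            · rw [le_smul']; exact h1
            · rw [smul_le]; exact h2
        have := E.mul_mem (E.inv_mem h3) h2
        simpa using this }
  have hVE : V ≤ E := fun v hv => hv v Set.right_mem_uIcc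
  have hV : V = ⊤ := by
    apply h V
    · intro g v hv h1 h2 k hk
      apply hv k
      rw [Set.uIcc_of_le h1] at hk
      rw [Set.uIcc_of_le (h1.trans h2)]
      exact ⟨hk.1, hk.2.trans h2⟩
    · obtain ⟨g, hg1, hg2⟩ := hd
      refine ⟨g, ?_, hg1⟩
      intro k hk
      rw [Set.uIcc_of_le hg1.le] at hk
      exact hE k (lt_of_lt_of_le ha hk.1) (lt_of_le_of_lt hk.2 hg2)
  rw [eq_top_iff, ← hV]
  exact hVE

end Lsm

end Pool.Agent.H228_Iso
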