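import Mathlib
import Pool.Agent.H228_Iso.Act

set_option autoImplicit false

namespace Pool.Agent.H228_Iso

open scoped Pointwise

/-- Absence of crossings on cuts for the elements of a subgroup. -/
def NC (G : Type*) (Ω : Type*) [Group G] [LinearOrder Ω] [MulAction G Ω] (N : Subgroup G) :
    Prop :=
  ∀ f ∈ N, ∀ g ∈ N, ∀ A B : Set Ω, IsLowerSet A → IsLowerSet B → A ⊆ B → ¬ B ⊆ A →
    A ⊆ f • A → f • B ⊆ g • A → ¬ (g • B ⊆ B)

/-- The local parabolic picture. -/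
structure Par (G : Type*) {Ω : Type*} [Group G] [LinearOrder Ω] [MulAction G Ω]
    (x0 a b : Ω) (c : G) : Prop where
  tr : ∀ x : Ω, ∃ g : G, g • x0 = x
  mx : MaxProp G x0
  dn : ∀ x y : Ω, x < y → ∃ z, x < z ∧ z < y
  hc : c • x0 = x0
  ha : a < x0
  hb : x0 < b
  pr : ∀ S : Set Ω, IsLowerSet S → (∃ s ∈ S, x0 < s) → b ∉ S → ¬ S ⊆ c • S
  pl : ∀ S : Set Ω, IsLowerSet S → a ∈ S → (∃ s, s < x0 ∧ s ∉ S) → ¬ S ⊆ c • S
  dcc : ∀ A : ℕ → Subgroup G, (∀ k, ∀ x ∈ A k, x • x0 = x0) → (∀ k, A (k + 1) ≤ A k) →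
    (∀ k, ∀ x ∈ A k, ∀ m : ℕ, 0 < m → x ^ m ∈ A (k + 1) → x ∈ A (k + 1)) → ∃ k, A (k + 1) = A k

section Dual

variable {G Ω : Type*} [Group G] [LinearOrder Ω] [MulAction G Ω] [OAct G Ω]

theorem compl_lower {S : Set Ω} (hS : IsLowerSet (α := Ωᵒᵈ) S) : IsLowerSet (α := Ω) (Sᶜ) := by
  intro x y hyx hx hy
  exact hx (hS (a := (OrderDual.toDual y)) (b := OrderDual.toDual x) hyx hy)

omit [OAct G Ω] in
theorem NC.dual {N : Subgroup G} (h : NC G Ω N) : NC G Ωᵒᵈ N := by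
  intro f hf g hg A B hA hB hAB hBA h1 h2 h3
  have e : ∀ (k : G) (S : Set Ω), k • Sᶜ = (k • S)ᶜ := fun k S => Set.smul_set_compl
  apply h g hg f hf ((show Set Ω from B)ᶜ) ((show Set Ω from A)ᶜ) (compl_lower hB) (compl_lower hA)
  · exact Set.compl_subset_compl.2 hAB
  · intro hcon
    exact hBA (Set.compl_subset_compl.1 hcon)
  · rw [e]
    exact Set.compl_subset_compl.2 h3
  · rw [e, e]
    exact Set.compl_subset_compl.2 h2
  · rw [e]
    exact Set.compl_subset_compl.2 h1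

theorem Par.dual {x0 a b : Ω} {c : G} (h : Par G x0 a b c) :
    Par G (OrderDual.toDual x0) (OrderDual.toDual b) (OrderDual.toDual a) c⁻¹ := by
  have e : ∀ (k : G) (S : Set Ω), k • Sᶜ = (k • S)ᶜ := fun k S => Set.smul_set_compl
  refine ⟨?_, h.mx.dual, ?_, ?_, h.hb, h.ha, ?_, ?_, ?_⟩
  · intro x
    exact h.tr (OrderDual.ofDual x)
  · intro x y hxy
    obtain ⟨z, h1, h2⟩ := h.dn (OrderDual.ofDual y) (OrderDual.ofDual x) hxy
    exact ⟨OrderDual.toDual z, h2, h1⟩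
  · show c⁻¹ • x0 = x0
    rw [inv_smul_eq_iff, h.hc]
  · intro S hS hs ha hcon
    obtain ⟨s, hs, hsx⟩ := hs
    refine h.pl ((show Set Ω from S)ᶜ) (compl_lower hS) ha ⟨s, hsx, fun hn => hn hs⟩ ?_
    rw [e]
    apply Set.compl_subset_compl.2
    have h5 : c • (show Set Ω from S) ⊆ c • c⁻¹ • (show Set Ω from S) :=
      (smul_subset c _ _).2 hcon
    rwa [smul_inv_smul] at h5
  · intro S hS hb hs hcon
    obtain ⟨s, hsx, hs⟩ := hs
    refine h.pr ((show Set Ω from S)ᶜ) (compl_lower hS) ⟨s, hs, hsx⟩ (fun hn => hn hb) ?_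
    rw [e]
    apply Set.compl_subset_compl.2
    have h5 : c • (show Set Ω from S) ⊆ c • c⁻¹ • (show Set Ω from S) :=
      (smul_subset c _ _).2 hcon
    rwa [smul_inv_smul] at h5
  · intro A hA
    exact h.dcc A hA

end Dual

section Main

variable {G Ω : Type*} [Group G] [LinearOrder Ω] [MulAction G Ω] [OAct G Ω]
variable {x0 a b : Ω} {c : G}

theorem Par.prx (h : Par G x0 a b c) {x : Ω} (h1 : x0 < x) (h2 : x < b) : c • x < x := by
  by_contra hcon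
  rw [not_lt] at hcon
  apply h.pr (Set.Iic x) (isLowerSet_Iic x) ⟨x, le_refl x, h1⟩ (by simpa using h2)
  intro y hy
  rw [mem_smul]
  show c⁻¹ • y ≤ x
  rw [smul_le', inv_inv]
  exact le_trans hy hcon

theorem Par.plx (h : Par G x0 a b c) {x : Ω} (h1 : a < x) (h2 : x < x0) : c • x < x := by
  by_contra hcon
  rw [not_lt] at hcon
  obtain ⟨z, hz1, hz2⟩ := h.dn _ _ h2
  apply h.pl (Set.Iic x) (isLowerSet_Iic x) h1.le ⟨z, hz2, by simpa using hz1⟩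
  intro y hy
  rw [mem_smul]
  show c⁻¹ • y ≤ x
  rw [smul_le', inv_inv]
  exact le_trans hy hcon

theorem Par.eplus (h : Par G x0 a b c) {y z : Ω} (hy : x0 < y) (hz : z < b) :
    ∃ k : ℕ, c ^ k • z < y := by
  by_contra hcon
  push Not at hcon
  apply h.pr {t | ∀ k : ℕ, t ≤ c ^ k • z} _ ⟨y, hcon, hy⟩
  · intro hb
    have := hb 0
    simp only [pow_zero, one_smul] at this
    exact absurd hz (not_lt.2 this)
  · intro t ht
    rw [mem_smul]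
    intro k
    rw [smul_le', inv_inv, ← mul_smul, ← pow_succ']
    exact ht (k + 1)
  · intro s t hts hs k
    exact hts.trans (hs k)

theorem Par.eminus (h : Par G x0 a b c) {S : Set Ω} (hS : IsLowerSet S) (ha : a ∈ S)
    {y : Ω} (hy : y < x0) : ∃ k : ℕ, c ^ k • y ∈ S := by
  by_contra hcon
  push Not at hcon
  apply h.pl {t | ∃ k : ℕ, c ^ k • t ∈ S} _ ⟨0, by simpa using ha⟩ ⟨y, hy, ?_⟩
  · rintro t ⟨k, hk⟩
    rw [mem_smul]
    refine ⟨k + 1, ?_⟩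
    rw [pow_succ, mul_smul, smul_inv_smul]
    exact hk
  · rintro s t hts ⟨k, hk⟩
    exact ⟨k, hS (OAct.mono _ _ _ hts) hk⟩
  · rintro ⟨k, hk⟩
    exact hcon k hk

/-- Supremum cut of the orbit of the base point. -/
def Sp (x0 : Ω) (n : G) : Set Ω := {x | ∃ k : ℤ, x ≤ n ^ k • x0}
/-- Infimum cut of the orbit of the base point. -/
def Sm (x0 : Ω) (n : G) : Set Ω := {x | ∀ k : ℤ, x ≤ n ^ k • x0}

omit [OAct G Ω] in
theorem sp_lower (n : G) : IsLowerSet (Sp x0 n) := by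
  rintro s t hts ⟨k, hk⟩
  exact ⟨k, hts.trans hk⟩

omit [OAct G Ω] in
theorem sm_lower (n : G) : IsLowerSet (Sm x0 n) := by
  intro s t hts hs k
  exact hts.trans (hs k)

theorem sp_zpow {n : G} {x : Ω} (i : ℤ) (hx : x ∈ Sp x0 n) : n ^ i • x ∈ Sp x0 n := by
  obtain ⟨k, hk⟩ := hx
  refine ⟨i + k, ?_⟩
  rw [zpow_add, mul_smul, smul_le]
  exact hk

theorem sm_zpow {n : G} {x : Ω} (i : ℤ) (hx : x ∈ Sm x0 n) : n ^ i • x ∈ Sm x0 n := by
  intro k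
  rw [smul_le', ← mul_smul, ← zpow_neg, ← zpow_add]
  exact hx _

theorem exE {n : G} (hn : n • x0 ≠ x0) : ∃ e : ℤ, n ^ e • x0 < x0 ∧ x0 < n ^ (-e) • x0 := by
  rcases lt_or_gt_of_ne hn with h1 | h1
  · refine ⟨1, by simpa using h1, ?_⟩
    rw [zpow_neg, zpow_one, lt_smul', inv_inv]
    exact h1
  · refine ⟨-1, ?_, by simpa using h1⟩
    rw [zpow_neg, zpow_one, smul_lt', inv_inv]
    exact h1

theorem k2 {N : Subgroup G} (hN : NC G Ω N) {n m : G} (hn : n ∈ N) (hm : m ∈ N)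
    (hm0 : m • x0 ≠ x0) (h1 : ∃ z ∈ Sm x0 m, z ∉ Sm x0 n) (h2 : ∃ y ∈ Sp x0 m, y ∉ Sp x0 n) :
    False := by
  obtain ⟨z, hz, hz'⟩ := h1
  obtain ⟨y, ⟨i, hi⟩, hy'⟩ := h2
  have hz2 : ∃ j : ℤ, n ^ j • x0 < z := by
    by_contra hcon
    push Not at hcon
    exact hz' hcon
  obtain ⟨j, hj⟩ := hz2
  have hy2 : ∀ x ∈ Sp x0 n, x ≤ m ^ i • x0 := by
    rintro x ⟨k, hk⟩
    by_contra hcon
    rw [not_le] at hcon
    exact hy' ⟨k, hi.trans (hcon.le.trans hk)⟩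
  have hj2 : n ^ j • x0 ∈ Sm x0 m := sm_lower m hj.le hz
  apply hN (m ^ (-i)) (N.zpow_mem hm _) (n ^ (-j)) (N.zpow_mem hn _) (Sm x0 m) (Sp x0 n)
    (sm_lower m) (sp_lower n)
  · intro x hx
    refine ⟨0, ?_⟩
    have := hx 0
    simpa using this
  · intro hcon
    have h3 : x0 ∈ Sm x0 m := hcon ⟨0, by simp⟩
    obtain ⟨e, he, -⟩ := exE hm0
    exact absurd (h3 e) (not_le.2 he)
  · intro x hx
    rw [mem_smul, ← zpow_neg, neg_neg]
    exact sm_zpow i hx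
  · intro x hx
    rw [mem_smul, ← zpow_neg, neg_neg] at hx ⊢
    have h3 := hy2 _ hx
    rw [smul_le] at h3
    exact sm_lower m (OAct.mono _ _ _ h3) hj2
  · intro x hx
    rw [mem_smul, ← zpow_neg, neg_neg] at hx
    have h3 := sp_zpow (-j) hx
    rwa [← mul_smul, ← zpow_add, neg_add_cancel, zpow_zero, one_smul] at h3

theorem conj_sp {n : G} (hc : c • x0 = x0) (x : Ω) (k : ℤ) :
    (x ≤ (c * n * c⁻¹) ^ k • x0) ↔ (c⁻¹ • x ≤ n ^ k • x0) := by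
  have h1 : c⁻¹ • x0 = x0 := by rw [inv_smul_eq_iff, hc]
  rw [conj_zpow, mul_smul, mul_smul, h1, ← le_smul']

theorem k1 (h : Par G x0 a b c) {N : Subgroup G} (hNn : N.Normal) (hN : NC G Ω N) {n : G}
    (hn : n ∈ N) (hn0 : n • x0 ≠ x0) :
    (∃ k : ℤ, b ≤ n ^ k • x0) ∨ (∃ k : ℤ, n ^ k • x0 ≤ a) := by
  by_contra hcon
  push Not at hcon
  obtain ⟨hc1, hc2⟩ := hcon
  obtain ⟨e, he1, he2⟩ := exE hn0
  have p1 := h.pr (Sp x0 n) (sp_lower n) ⟨_, ⟨-e, le_refl _⟩, he2⟩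
    (by
      rintro ⟨k, hk⟩
      exact absurd (hc1 k) (not_lt.2 hk))
  have p2 := h.pl (Sm x0 n) (sm_lower n) (fun k => (hc2 k).le)
    ⟨n ^ e • x0, he1, by
      intro hs
      have h3 := hs (e + e)
      rw [zpow_add, mul_smul, smul_le] at h3
      exact absurd he1 (not_lt.2 h3)⟩
  rw [Set.not_subset] at p1 p2
  obtain ⟨y, hy, hy'⟩ := p1
  obtain ⟨z, hz, hz'⟩ := p2
  refine k2 hN (n := c * n * c⁻¹) (m := n) (hNn.conj_mem n hn c) hn hn0 ⟨z, hz, ?_⟩ ⟨y, hy, ?_⟩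
  · intro hs
    apply hz'
    rw [mem_smul]
    intro k
    rw [← conj_sp h.hc]
    exact hs k
  · rintro ⟨k, hk⟩
    apply hy'
    rw [mem_smul]
    refine ⟨k, ?_⟩
    rw [← conj_sp h.hc]
    exact hk

/-- Right good. -/
def RG (N : Subgroup G) (x0 b : Ω) : Prop := ∀ m ∈ N, m • x0 ≠ x0 → ∃ k : ℤ, b ≤ m ^ k • x0
/-- Left good. -/
def LG (N : Subgroup G) (x0 a : Ω) : Prop := ∀ m ∈ N, m • x0 ≠ x0 → ∃ k : ℤ, m ^ k • x0 ≤ a

theorem k12 (h : Par G x0 a b c) {N : Subgroup G} (hNn : N.Normal) (hN : NC G Ω N) :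
    RG N x0 b ∨ LG N x0 a := by
  by_contra hcon
  rw [not_or] at hcon
  obtain ⟨hr, hl⟩ := hcon
  unfold RG at hr
  unfold LG at hl
  push Not at hr hl
  obtain ⟨m1, hm1, hm1', hr⟩ := hr
  obtain ⟨m2, hm2, hm2', hl⟩ := hl
  have q1 : ∃ k : ℤ, m1 ^ k • x0 ≤ a := by
    rcases k1 h hNn hN hm1 hm1' with ⟨k, hk⟩ | hk
    · exact absurd (hr k) (not_lt.2 hk)
    · exact hk
  have q2 : ∃ k : ℤ, b ≤ m2 ^ k • x0 := by
    rcases k1 h hNn hN hm2 hm2' with hk | ⟨k, hk⟩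
    · exact hk
    · exact absurd (hl k) (not_lt.2 hk)
  obtain ⟨k, hk⟩ := q1
  obtain ⟨j, hj⟩ := q2
  obtain ⟨e, he1, he2⟩ := exE hm1'
  refine k2 hN hm1 hm2 hm2' ⟨a, fun k => (hl k).le, ?_⟩ ⟨b, ⟨j, hj⟩, ?_⟩
  · intro hs
    have h3 := hk.trans (hs (k + e))
    rw [zpow_add, mul_smul, smul_le] at h3
    exact absurd he1 (not_lt.2 h3)
  · rintro ⟨i, hi⟩
    exact absurd (hr i) (not_lt.2 hi)

omit [LinearOrder Ω] [OAct G Ω] in
theorem fix_zpow {m : G} {x : Ω} (hx : m • x = x) (k : ℤ) : m ^ k • x = x := by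
  have : m ^ k ∈ MulAction.stabilizer G x :=
    Subgroup.zpow_mem _ (MulAction.mem_stabilizer_iff.2 hx) k
  exact MulAction.mem_stabilizer_iff.1 this

omit [LinearOrder Ω] [OAct G Ω] in
theorem mem_ns {N : Subgroup G} {x : G} {y : Ω} :
    x ∈ N ⊓ MulAction.stabilizer G y ↔ x ∈ N ∧ x • y = y := Iff.rfl

theorem desc (h : Par G x0 a b c) {N : Subgroup G} (hNn : N.Normal) {g : G}
    (hg : ∀ κ ∈ N, κ • x0 = x0 → κ • g⁻¹ • x0 = g⁻¹ • x0) :
    ∀ κ ∈ N, κ • g⁻¹ • x0 = g⁻¹ • x0 → κ • x0 = x0 := by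
  have step : ∀ k : ℕ, N ⊓ MulAction.stabilizer G (g ^ (k + 1) • x0) ≤
      N ⊓ MulAction.stabilizer G (g ^ k • x0) := by
    intro k x hx
    obtain ⟨hx1, hx2⟩ := mem_ns.1 hx
    refine mem_ns.2 ⟨hx1, ?_⟩
    have h1 : ((g ^ (k + 1))⁻¹ * x * g ^ (k + 1)) ∈ N := by
      have := hNn.conj_mem x hx1 (g ^ (k + 1))⁻¹
      rwa [inv_inv] at this
    have h2 := hg _ h1 (by rw [mul_smul, mul_smul, hx2, inv_smul_smul])
    rw [mul_smul, mul_smul, ← mul_smul (g ^ (k + 1)) g⁻¹, pow_succ, mul_inv_cancel_right,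
      inv_smul_eq_iff, ← mul_smul (g ^ k * g) g⁻¹, mul_inv_cancel_right] at h2
    exact h2
  have h0 : ∀ k : ℕ, ∀ x ∈ N ⊓ MulAction.stabilizer G (g ^ k • x0), x • x0 = x0 := by
    intro k
    induction k with
    | zero =>
      intro x hx
      simpa using (mem_ns.1 hx).2
    | succ k ih =>
      intro x hx
      exact ih x (step k hx)
  obtain ⟨k, hk⟩ := h.dcc (fun k => N ⊓ MulAction.stabilizer G (g ^ k • x0)) h0 step
    (by
      intro k x hx m hm hxm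
      exact mem_ns.2 ⟨(mem_ns.1 hx).1, pow_fix hm (mem_ns.1 hxm).2⟩)
  intro κ hκ hfix
  have h3 : g ^ (k + 1) * κ * (g ^ (k + 1))⁻¹ ∈ N ⊓ MulAction.stabilizer G (g ^ (k + 1) • x0) := by
    have hk' : N ⊓ MulAction.stabilizer G (g ^ (k + 1) • x0) =
      N ⊓ MulAction.stabilizer G (g ^ k • x0) := hk
    rw [hk']
    refine mem_ns.2 ⟨hNn.conj_mem κ hκ _, ?_⟩
    have e1 : (g ^ (k + 1))⁻¹ • g ^ k • x0 = g⁻¹ • x0 := by
      rw [← mul_smul, pow_succ, mul_inv_rev, mul_assoc, inv_mul_cancel, mul_one]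
    rw [mul_smul, mul_smul, e1, hfix, ← mul_smul, pow_succ, mul_inv_cancel_right]
  have h4 := (mem_ns.1 h3).2
  rw [mul_smul, mul_smul, inv_smul_smul] at h4
  exact smul_left_cancel _ h4

theorem k3 {N : Subgroup G} (hNn : N.Normal) (hr : RG N x0 b) {g : G}
    (h1 : x0 < g • x0) (h2 : g • x0 < b) :
    ∀ κ ∈ N, κ • x0 = x0 → κ • g⁻¹ • x0 = g⁻¹ • x0 := by
  intro κ hκ hfix
  by_contra hne
  have hm : g * κ * g⁻¹ ∈ N := hNn.conj_mem κ hκ g
  have hm0 : (g * κ * g⁻¹) • x0 ≠ x0 := by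
    intro hcon
    apply hne
    rw [mul_smul, mul_smul, ← eq_inv_smul_iff] at hcon
    exact hcon
  obtain ⟨k, hk⟩ := hr _ hm hm0
  have h3 : (g * κ * g⁻¹) • g • x0 = g • x0 := by
    rw [mul_smul, mul_smul, inv_smul_smul, hfix]
  have h4 := fix_zpow h3 k
  have h5 : (g * κ * g⁻¹) ^ k • x0 < g • x0 := by
    conv_rhs => rw [← h4]
    rw [smul_lt]
    exact h1
  exact absurd (h5.trans h2) (not_lt.2 hk)

theorem k3' (h : Par G x0 a b c) {N : Subgroup G} (hNn : N.Normal) (hr : RG N x0 b) :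
    LG N x0 a := by
  intro n hn hn0
  by_contra hcon
  push Not at hcon
  obtain ⟨y, hy1, hy2⟩ := h.dn _ _ h.hb
  obtain ⟨g, rfl⟩ := h.tr y
  have hSa : a ∈ Sm x0 n := fun k => (hcon k).le
  obtain ⟨k, hk⟩ := h.eminus (sm_lower n) hSa (y := g⁻¹ • x0)
    (by rw [smul_lt', inv_inv]; exact hy1)
  have hcfix : ∀ k : ℕ, (c ^ k)⁻¹ • x0 = x0 := by
    intro k
    rw [inv_smul_eq_iff]
    have := fix_zpow h.hc (k : ℤ)
    rw [zpow_natCast] at this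
    exact this.symm
  set g' : G := g * (c ^ k)⁻¹ with hg'
  have hg'x : g' • x0 = g • x0 := by
    rw [hg', mul_smul, hcfix]
  have hg'i : g'⁻¹ • x0 ∈ Sm x0 n := by
    rw [hg', mul_inv_rev, inv_inv, mul_smul]
    exact hk
  have h3 := k3 hNn hr (g := g') (by rw [hg'x]; exact hy1) (by rw [hg'x]; exact hy2)
  have h4 := desc h hNn h3
  apply hn0
  apply h4 n hn
  by_contra hne
  have hm : g' * n * g'⁻¹ ∈ N := hNn.conj_mem n hn g'
  have hm0 : (g' * n * g'⁻¹) • x0 ≠ x0 := by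
    intro hcon
    apply hne
    rw [mul_smul, mul_smul, ← eq_inv_smul_iff] at hcon
    exact hcon
  obtain ⟨i, hi⟩ := hr _ hm hm0
  rw [conj_zpow, mul_smul, mul_smul] at hi
  have h5 := sm_zpow i hg'i 0
  rw [zpow_zero, one_smul] at h5
  have h6 : g' • n ^ i • g'⁻¹ • x0 ≤ g' • x0 := OAct.mono _ _ _ h5
  rw [hg'x] at h6
  exact absurd (lt_of_le_of_lt h6 hy2) (not_lt.2 hi)

theorem both_good (h : Par G x0 a b c) {N : Subgroup G} (hNn : N.Normal) (hN : NC G Ω N) :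
    RG N x0 b ∧ LG N x0 a := by
  rcases k12 h hNn hN with h1 | h1
  · exact ⟨h1, k3' h hNn h1⟩
  · refine ⟨?_, h1⟩
    have h2 : RG N (OrderDual.toDual x0) (OrderDual.toDual a) := h1
    exact k3' h.dual hNn h2

end Main

end Pool.Agent.H228_Iso
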