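import Mathlib
import Pool.Agent.H228_Iso.Par

set_option autoImplicit false

namespace Pool.Agent.H228_Iso

open scoped Pointwise

section Main

variable {G Ω : Type*} [Group G] [LinearOrder Ω] [MulAction G Ω] [OAct G Ω]
variable {x0 a b : Ω} {c : G}

omit [LinearOrder Ω] [OAct G Ω] in
theorem conj_fix {g κ : G} {x : Ω} : (g⁻¹ * κ * g) • x = x ↔ κ • g • x = g • x := by
  rw [mul_smul, mul_smul, inv_smul_eq_iff]

theorem k4 (h : Par G x0 a b c) {N : Subgroup G} (hNn : N.Normal) (hN : NC G Ω N) :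
    ∀ κ ∈ N, κ • x0 = x0 → ∀ x : Ω, κ • x = x := by
  obtain ⟨hr, hl⟩ := both_good h hNn hN
  let E : Subgroup G :=
    { carrier := {g | ∀ κ ∈ N, κ • x0 = x0 ↔ κ • g • x0 = g • x0}
      mul_mem' := by
        intro g g' hg hg' κ hκ
        have h1 : g⁻¹ * κ * g ∈ N := by
          have := hNn.conj_mem κ hκ g⁻¹
          rwa [inv_inv] at this
        rw [mul_smul, ← conj_fix (g := g), ← hg' _ h1, conj_fix, ← hg _ hκ]
      one_mem' := by
        intro κ hκ
        simp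
      inv_mem' := by
        intro g hg κ hκ
        have h1 : g * κ * g⁻¹ ∈ N := hNn.conj_mem κ hκ g
        have h2 := hg _ h1
        rw [← conj_fix (g := g)] at h2
        have h3 : g⁻¹ * (g * κ * g⁻¹) * g = κ := by group
        rw [h3] at h2
        rw [← h2, ← conj_fix (g := g⁻¹), inv_inv] }
  have hE : E = ⊤ := by
    obtain ⟨z, hz1, hz2⟩ := h.dn _ _ h.hb
    obtain ⟨gz, rfl⟩ := h.tr z
    apply gen h.mx h.ha h.hb ⟨gz, hz1, hz2⟩
    intro g hg1 hg2
    have key : g⁻¹ ∈ E → g ∈ E := fun hh => by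
      have := E.inv_mem hh
      rwa [inv_inv] at this
    rcases lt_trichotomy (g • x0) x0 with h1 | h1 | h1
    · apply key
      intro κ hκ
      have hl' : RG N (OrderDual.toDual x0) (OrderDual.toDual a) := hl
      have h3 := k3 (x0 := OrderDual.toDual x0) hNn hl' (g := g) h1 hg1
      have h4 := desc h.dual hNn h3
      exact ⟨h3 κ hκ, h4 κ hκ⟩
    · intro κ hκ
      rw [h1]
    · apply key
      intro κ hκ
      have h3 := k3 hNn hr h1 hg2
      have h4 := desc h hNn h3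
      exact ⟨h3 κ hκ, h4 κ hκ⟩
  intro κ hκ hfix x
  obtain ⟨g, rfl⟩ := h.tr x
  have hg : g ∈ E := hE ▸ Subgroup.mem_top g
  exact (hg κ hκ).1 hfix

theorem k4b (h : Par G x0 a b c) {N : Subgroup G} (hNn : N.Normal) (hN : NC G Ω N) {n : G}
    (hn : n ∈ N) {x : Ω} (hx : n • x = x) : ∀ y : Ω, n • y = y := by
  obtain ⟨g, rfl⟩ := h.tr x
  intro y
  have h1 : g⁻¹ * n * g ∈ N := by
    have := hNn.conj_mem n hn g⁻¹
    rwa [inv_inv] at this
  have h2 := k4 h hNn hN _ h1 (conj_fix.2 hx) (g⁻¹ • y)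
  rw [conj_fix, smul_inv_smul] at h2
  exact h2

theorem k4c (h : Par G x0 a b c) {N : Subgroup G} (hNn : N.Normal) (hN : NC G Ω N) {n : G}
    (hn : n ∈ N) (hn0 : n • x0 ≠ x0) {S : Set Ω} (hS : IsLowerSet S) (h1 : ∃ s, s ∈ S)
    (h2 : ∃ s, s ∉ S) (hfix : n • S = S) : False := by
  obtain ⟨hr, hl⟩ := both_good h hNn hN
  obtain ⟨g, hg1, hg2⟩ := transl h.mx h.tr hS h1 h2 h.hb
  have hm : g⁻¹ * n * g ∈ N := by
    have := hNn.conj_mem n hn g⁻¹
    rwa [inv_inv] at this
  have hm0 : (g⁻¹ * n * g) • x0 ≠ x0 := by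
    intro hcon
    exact hn0 (k4b h hNn hN hn (conj_fix.1 hcon) x0)
  obtain ⟨k, hk⟩ := hr _ hm hm0
  have h3 : (g⁻¹ * n * g) ^ k = g⁻¹ * n ^ k * g := by
    have := conj_zpow (a := g⁻¹) (b := n) (i := k)
    rwa [inv_inv] at this
  rw [h3, mul_smul, mul_smul, le_smul', inv_inv] at hk
  apply hg2
  apply hS hk
  have h4 := fix_zpow hfix k
  rw [← h4]
  exact Set.smul_mem_smul_set hg1

theorem k4d0 (h : Par G x0 a b c) {N : Subgroup G} (hNn : N.Normal) (hN : NC G Ω N) {n : G}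
    (hn : n ∈ N) {x y : Ω} (hx : x < n • x) (hy : n • y < y) (hxy : x < y) : False := by
  have hlt : ∀ k : ℕ, n ^ k • x < y := by
    intro k
    induction k with
    | zero => simpa using hxy
    | succ k ih =>
      rw [pow_succ', mul_smul]
      exact lt_trans ((smul_lt _ _ _).2 ih) hy
  refine k4c h hNn hN hn ?_ (S := {z | ∃ k : ℕ, z ≤ n ^ k • x}) ?_ ⟨x, 0, by simp⟩ ⟨y, ?_⟩ ?_
  · intro hcon
    exact hx.ne' (k4b h hNn hN hn hcon x)
  · rintro s t hts ⟨k, hk⟩
    exact ⟨k, hts.trans hk⟩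
  · rintro ⟨k, hk⟩
    exact absurd (hlt k) (not_lt.2 hk)
  · ext z
    rw [mem_smul]
    constructor
    · rintro ⟨k, hk⟩
      refine ⟨k + 1, ?_⟩
      rw [smul_le', inv_inv, ← mul_smul, ← pow_succ'] at hk
      exact hk
    · rintro ⟨k, hk⟩
      refine ⟨k, ?_⟩
      rw [smul_le', inv_inv, ← mul_smul, ← pow_succ', pow_succ, mul_smul]
      exact hk.trans ((smul_le _ _ _).2 hx.le)

theorem k4d (h : Par G x0 a b c) {N : Subgroup G} (hNn : N.Normal) (hN : NC G Ω N) {n : G}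
    (hn : n ∈ N) {x : Ω} (hx : x < n • x) : ∀ y : Ω, y < n • y := by
  intro y
  by_contra hcon
  rw [not_lt] at hcon
  have hy : n • y < y := by
    rcases lt_or_eq_of_le hcon with h1 | h1
    · exact h1
    · exact absurd (k4b h hNn hN hn h1 x) hx.ne'
  rcases lt_trichotomy x y with h1 | h1 | h1
  · exact k4d0 h hNn hN hn hx hy h1
  · subst h1
    exact lt_asymm hx hy
  · refine k4d0 h hNn hN (N.inv_mem hn) (x := y) (y := x) ?_ ?_ h1
    · rw [lt_smul', inv_inv]; exact hy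
    · rw [smul_lt', inv_inv]; exact hx

theorem cmp (h : Par G x0 a b c) {N : Subgroup G} (hNn : N.Normal) (hN : NC G Ω N) {m n : G}
    (hm : m ∈ N) (hn : n ∈ N) {x : Ω} (hx : m • x < n • x) (y : Ω) : m • y < n • y := by
  have h1 : x < (m⁻¹ * n) • x := by
    rw [mul_smul, lt_smul', inv_inv]
    exact hx
  have h2 := k4d h hNn hN (N.mul_mem (N.inv_mem hm) hn) h1 y
  rw [mul_smul, lt_smul', inv_inv] at h2
  exact h2

theorem cmple (h : Par G x0 a b c) {N : Subgroup G} (hNn : N.Normal) (hN : NC G Ω N) {m n : G}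
    (hm : m ∈ N) (hn : n ∈ N) {x : Ω} (hx : m • x ≤ n • x) (y : Ω) : m • y ≤ n • y := by
  by_contra hcon
  rw [not_le] at hcon
  exact absurd (cmp h hNn hN hn hm hcon x) (not_lt.2 hx)

theorem arch (h : Par G x0 a b c) {N : Subgroup G} (hNn : N.Normal) (hN : NC G Ω N) {n : G}
    (hn : n ∈ N) {x : Ω} (hx : x < n • x) (y : Ω) : ∃ k : ℕ, y < n ^ k • x := by
  by_contra hcon
  push Not at hcon
  refine k4c h hNn hN hn ?_ (S := {z | ∃ k : ℕ, z ≤ n ^ k • x}) ?_ ⟨x, 0, by simp⟩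
    ⟨n • y, ?_⟩ ?_
  · intro hcon
    exact hx.ne' (k4b h hNn hN hn hcon x)
  · rintro s t hts ⟨k, hk⟩
    exact ⟨k, hts.trans hk⟩
  · rintro ⟨k, hk⟩
    have h2 := hk.trans (hcon k)
    exact absurd (k4d h hNn hN hn hx y) (not_lt.2 h2)
  · ext z
    rw [mem_smul]
    constructor
    · rintro ⟨k, hk⟩
      refine ⟨k + 1, ?_⟩
      rw [smul_le', inv_inv, ← mul_smul, ← pow_succ'] at hk
      exact hk
    · rintro ⟨k, hk⟩
      refine ⟨k, ?_⟩
      rw [smul_le', inv_inv, ← mul_smul, ← pow_succ', pow_succ, mul_smul]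
      exact hk.trans ((smul_le _ _ _).2 hx.le)

/-- No small elements. -/
theorem k5 (h : Par G x0 a b c) {N : Subgroup G} (hNn : N.Normal) (hN : NC G Ω N) {n : G}
    (hn : n ∈ N) (h1 : x0 < n • x0) (h2 : n • x0 < b) : False := by
  obtain ⟨u, hu⟩ := h.tr a
  have hu1 : x0 < u⁻¹ • x0 := by
    rw [lt_smul', inv_inv, hu]
    exact h.ha
  obtain ⟨k, hk⟩ := h.eplus hu1 h2
  have hck : c ^ k • x0 = x0 := by
    have := fix_zpow h.hc (k : ℤ)
    rwa [zpow_natCast] at this
  have hck' : (c ^ k)⁻¹ • x0 = x0 := by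
    rw [inv_smul_eq_iff]
    exact hck.symm
  -- the element `m'`
  set m' : G := u * (c ^ k * n * (c ^ k)⁻¹) * u⁻¹ with hm'
  have hm'N : m' ∈ N := hNn.conj_mem _ (hNn.conj_mem n hn _) _
  have hm'a : m' • a < x0 := by
    rw [hm', ← hu, mul_smul, inv_smul_smul, mul_smul, mul_smul, mul_smul, hck']
    rw [smul_lt']
    exact hk
  have hm'pos : ∀ y : Ω, y < m' • y := by
    apply k4d h hNn hN hm'N (x := u • x0)
    rw [hm', mul_smul, inv_smul_smul, mul_smul, mul_smul, mul_smul, hck', smul_lt]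
    conv_lhs => rw [← hck]
    rw [smul_lt]
    exact h1
  have hmm : ∃ m ∈ N, x0 < m • x0 ∧ m • x0 < b ∧ m • a < x0 := by
    rcases le_or_gt (m' • x0) (n • x0) with h3 | h3
    · exact ⟨m', hm'N, hm'pos _, lt_of_le_of_lt h3 h2, hm'a⟩
    · exact ⟨n, hn, h1, h2, (cmp h hNn hN hn hm'N h3 a).trans hm'a⟩
  obtain ⟨m, hmN, hm1, hm2, hm3⟩ := hmm
  have e1 : c • m • x0 < m • x0 := h.prx hm1 hm2
  have e2 : c • m⁻¹ • x0 < m⁻¹ • x0 := by
    apply h.plx
    · rw [lt_smul', inv_inv]; exact hm3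
    · rw [smul_lt', inv_inv]; exact hm1
  have hc' : c⁻¹ • x0 = x0 := by rw [inv_smul_eq_iff, h.hc]
  have hq : c * m * c⁻¹ ∈ N := hNn.conj_mem m hmN c
  have e3 : (c * m * c⁻¹) • x0 < m • x0 := by
    rw [mul_smul, mul_smul, hc']
    exact e1
  have e4 := cmp h hNn hN hq hmN e3 ((c * m * c⁻¹)⁻¹ • x0)
  rw [smul_inv_smul] at e4
  have e5 : (c * m * c⁻¹)⁻¹ • x0 < m⁻¹ • x0 := by
    have : (c * m * c⁻¹)⁻¹ = c * m⁻¹ * c⁻¹ := by group
    rw [this, mul_smul, mul_smul, hc']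
    exact e2
  rw [lt_smul', inv_inv] at e5
  exact lt_asymm e4 e5

/-- Least element. -/
theorem k6 (h : Par G x0 a b c) {N : Subgroup G} (hNn : N.Normal) (hN : NC G Ω N)
    (hne : ∃ n ∈ N, x0 < n • x0) :
    ∃ z ∈ N, x0 < z • x0 ∧ ∀ n ∈ N, x0 < n • x0 → z • x0 ≤ n • x0 := by
  by_contra hcon
  push Not at hcon
  obtain ⟨u, hu⟩ := h.tr b
  have hT := lsm h.mx {g : G | ∀ n ∈ N, x0 < n • x0 → g • x0 ≤ n • x0}
    (by
      intro g hg g' hg' n hn hn1
      obtain ⟨n2, hn2, hn21, hn22⟩ := hcon n hn hn1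
      have h3 : x0 < (n2⁻¹ * n) • x0 := by
        rw [mul_smul, lt_smul', inv_inv]
        exact hn22
      have h3N : n2⁻¹ * n ∈ N := N.mul_mem (N.inv_mem hn2) hn
      have h4 : ∃ n0 ∈ N, x0 < n0 • x0 ∧ n0 • x0 ≤ n2 • x0 ∧ n0 • x0 ≤ (n2⁻¹ * n) • x0 := by
        rcases le_total (n2 • x0) ((n2⁻¹ * n) • x0) with h5 | h5
        · exact ⟨n2, hn2, hn21, le_refl _, h5⟩
        · exact ⟨_, h3N, h3, h5, le_refl _⟩
      obtain ⟨n0, hn0, hn01, hn02, hn03⟩ := h4
      have h5 : g⁻¹ * n0 * g ∈ N := by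
        have := hNn.conj_mem n0 hn0 g⁻¹
        rwa [inv_inv] at this
      have h6 : x0 < (g⁻¹ * n0 * g) • x0 := by
        rw [mul_smul, mul_smul, lt_smul', inv_inv]
        exact k4d h hNn hN hn0 hn01 _
      have h7 := hg' _ h5 h6
      rw [mul_smul, mul_smul, le_smul', inv_inv, ← mul_smul] at h7
      have h8 := hg n0 hn0 hn01
      calc (g * g') • x0 ≤ n0 • g • x0 := h7
        _ ≤ n0 • n0 • x0 := (smul_le _ _ _).2 h8
        _ ≤ n2 • n0 • x0 := cmple h hNn hN hn0 hn2 hn02 _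
        _ ≤ n2 • (n2⁻¹ * n) • x0 := (smul_le _ _ _).2 hn03
        _ = n • x0 := by rw [← mul_smul, mul_inv_cancel_left])
    (by
      intro g hg n hn hn1
      exact hg.trans hn1.le)
    ⟨u, by
      intro n hn hn1
      rw [hu]
      by_contra hlt
      rw [not_le] at hlt
      exact k5 h hNn hN hn hn1 hlt, by rw [hu]; exact h.hb⟩
  obtain ⟨n, hn, hn1⟩ := hne
  have h3 := hT (n * n) n hn hn1
  rw [mul_smul, smul_le] at h3
  exact absurd hn1 (not_lt.2 h3)

theorem k7pos (h : Par G x0 a b c) {N : Subgroup G} (hNn : N.Normal) (hN : NC G Ω N) {n : G}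
    (hn : n ∈ N) (hn1 : x0 < n • x0) (w : G) (x : Ω) : (w * n) • x = (n * w) • x := by
  obtain ⟨z, hz, hz1, hz2⟩ := k6 h hNn hN ⟨n, hn, hn1⟩
  -- the least element commutes with everything
  have hzc : ∀ w : G, z • x0 = (w * z * w⁻¹) • x0 := by
    intro w
    have q1 : w * z * w⁻¹ ∈ N := hNn.conj_mem z hz w
    have q2 : w⁻¹ * z * w ∈ N := by
      have := hNn.conj_mem z hz w⁻¹
      rwa [inv_inv] at this
    have q3 : x0 < (w * z * w⁻¹) • x0 := by
      rw [mul_smul, mul_smul, lt_smul']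
      exact k4d h hNn hN hz hz1 _
    have q4 : x0 < (w⁻¹ * z * w) • x0 := by
      rw [mul_smul, mul_smul, lt_smul', inv_inv]
      exact k4d h hNn hN hz hz1 _
    apply le_antisymm (hz2 _ q1 q3)
    have q5 := cmple h hNn hN hz q2 (hz2 _ q2 q4) (w⁻¹ • x0)
    rw [mul_smul, mul_smul, smul_inv_smul, le_smul', inv_inv] at q5
    rw [mul_smul, mul_smul]
    exact q5
  have hzw : ∀ (w : G) (y : Ω), z • w • y = w • z • y := by
    intro w y
    have q1 : (z⁻¹ * (w * z * w⁻¹)) ∈ N := N.mul_mem (N.inv_mem hz) (hNn.conj_mem z hz w)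
    have q2 := k4 h hNn hN _ q1 (by rw [mul_smul, ← hzc w, inv_smul_smul]) (w • y)
    rw [mul_smul, mul_smul, mul_smul, inv_smul_smul, inv_smul_eq_iff] at q2
    exact q2.symm
  have hzk : ∀ (k : ℕ) (w : G) (y : Ω), z ^ k • w • y = w • z ^ k • y := by
    intro k
    induction k with
    | zero => intro w y; simp
    | succ k ih =>
      intro w y
      rw [pow_succ', mul_smul, ih, hzw, mul_smul]
  -- Euclidean division
  have hex : ∃ k : ℕ, n • x0 < z ^ k • x0 := arch h hNn hN hz hz1 _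
  classical
  have hk := Nat.find_spec hex
  have hmin := fun j hj => Nat.find_min hex (m := j) hj
  set k := Nat.find hex with hkdef
  have hk0 : k ≠ 0 := by
    intro hk0
    rw [hk0] at hk
    simp only [pow_zero, one_smul] at hk
    exact lt_asymm hk hn1
  obtain ⟨j, hj⟩ : ∃ j, k = j + 1 := ⟨k - 1, by omega⟩
  have hj1 : z ^ j • x0 ≤ n • x0 := by
    have := hmin j (by omega)
    rwa [not_lt] at this
  rw [hj] at hk
  have hr : (z ^ j)⁻¹ * n ∈ N := N.mul_mem (N.inv_mem (N.pow_mem hz j)) hn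
  have hr0 : ((z ^ j)⁻¹ * n) • x0 = x0 := by
    rcases lt_trichotomy (((z ^ j)⁻¹ * n) • x0) x0 with h3 | h3 | h3
    · rw [mul_smul, smul_lt', inv_inv] at h3
      exact absurd h3 (not_lt.2 hj1)
    · exact h3
    · have h4 := hz2 _ hr h3
      rw [mul_smul, le_smul', inv_inv, ← mul_smul, ← pow_succ] at h4
      exact absurd hk (not_lt.2 h4)
  have hr1 : ∀ y : Ω, n • y = z ^ j • y := by
    intro y
    have := k4 h hNn hN _ hr hr0 y
    rw [mul_smul, inv_smul_eq_iff] at this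
    exact this
  rw [mul_smul, mul_smul, hr1, hr1, hzk]

theorem k7 (h : Par G x0 a b c) {N : Subgroup G} (hNn : N.Normal) (hN : NC G Ω N) {n : G}
    (hn : n ∈ N) (w : G) (x : Ω) : (w * n) • x = (n * w) • x := by
  rcases lt_trichotomy (n • x0) x0 with h1 | h1 | h1
  · have h2 : x0 < n⁻¹ • x0 := by rw [lt_smul', inv_inv]; exact h1
    have h3 := k7pos h hNn hN (N.inv_mem hn) h2 w (n • x)
    rw [mul_smul, inv_smul_smul, mul_smul, eq_inv_smul_iff] at h3
    rw [mul_smul, mul_smul]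
    exact h3.symm
  · have h2 := k4 h hNn hN n hn h1
    rw [mul_smul, mul_smul, h2, h2]
  · exact k7pos h hNn hN hn h1 w x

end Main

section Final

variable {G Ω : Type*} [Group G] [LinearOrder Ω] [MulAction G Ω] [OAct G Ω]
variable {x0 a b : Ω} {c : G}

omit [LinearOrder Ω] [OAct G Ω] in
/-- Positive words preserve the interval. -/
theorem word_mem {f g : G} {A B : Set Ω} (hA : A ⊆ f • A) (hAg : A ⊆ g • A) (hBf : f • B ⊆ B)
    (hBg : g • B ⊆ B) {s : G} (hs : s ∈ Submonoid.closure ({f, g} : Set G)) :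
    A ⊆ s • A ∧ s • B ⊆ B := by
  induction hs using Submonoid.closure_induction with
  | mem x hx =>
    rcases hx with rfl | rfl
    · exact ⟨hA, hBf⟩
    · exact ⟨hAg, hBg⟩
  | one => simp
  | mul x y hx hy ihx ihy =>
    constructor
    · rw [mul_smul]
      exact ihx.1.trans (Set.smul_set_mono ihy.1)
    · rw [mul_smul]
      exact (Set.smul_set_mono ihy.2).trans ihx.2

omit [OAct G Ω] in
/-- If suitable positive words act in the same way on the line, there are no crossings. -/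
theorem nc_of_words (N : Subgroup G)
    (hN : ∀ f ∈ N, ∀ g ∈ N, ∃ s ∈ Submonoid.closure ({f, g} : Set G),
      ∃ t ∈ Submonoid.closure ({f, g} : Set G), ∀ x : Ω, (f * s) • x = (g * t) • x) :
    NC G Ω N := by
  intro f hf g hg A B hA hB hAB hBA h1 h2 h3
  have hAfB : f • A ⊆ f • B := Set.smul_set_mono hAB
  have hAg : A ⊆ g • A := h1.trans (hAfB.trans h2)
  have hBf : f • B ⊆ B := h2.trans ((Set.smul_set_mono hAB).trans h3)
  obtain ⟨s, hs, t, ht, hst⟩ := hN f hf g hg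
  have ws := word_mem h1 hAg hBf h3 hs
  have wt := word_mem h1 hAg hBf h3 ht
  have e1 : (f * s) • B = (g * t) • B := by
    ext x
    constructor
    · rintro ⟨y, hy, rfl⟩
      exact ⟨y, hy, (hst y).symm⟩
    · rintro ⟨y, hy, rfl⟩
      exact ⟨y, hy, hst y⟩
  have e2 : (f * s) • B ⊆ f • B := by
    rw [mul_smul]
    exact Set.smul_set_mono ws.2
  have e3 : g • A ⊆ (g * t) • A := by
    rw [mul_smul]
    exact Set.smul_set_mono wt.1
  have e4 : (g * t) • B ⊆ (g * t) • A := by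
    rw [← e1]
    exact e2.trans (h2.trans e3)
  exact hBA ((smul_subset _ _ _).1 e4)

/-- The elements central modulo the kernel of the action. -/
def Zt (G Ω : Type*) [Group G] [MulAction G Ω] : Subgroup G where
  carrier := {d | ∀ (w : G) (x : Ω), d • w • x = w • d • x}
  mul_mem' := by
    intro d e hd he w x
    rw [mul_smul, mul_smul, he, hd]
  one_mem' := by
    intro w x
    simp
  inv_mem' := by
    intro d hd w x
    rw [inv_smul_eq_iff, hd, smul_inv_smul]

omit [LinearOrder Ω] [OAct G Ω] in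
theorem zt_normal : (Zt G Ω).Normal := by
  constructor
  intro d hd g w x
  have hd' : ∀ (w : G) (x : Ω), d • w • x = w • d • x := hd
  have e : ∀ y : Ω, (g * d * g⁻¹) • y = d • y := by
    intro y
    rw [mul_smul, mul_smul, ← hd', smul_inv_smul]
  rw [e, e, hd']

/-- Ascending-series hypothesis, monoid form. -/
def Hyp (G : Type*) [Group G] : Prop :=
  ∀ K : Subgroup G, K.Normal → K ≠ ⊤ → ∃ M : Subgroup G, M.Normal ∧ K < M ∧
    ∀ f ∈ M, ∀ g ∈ M, ∃ s ∈ Submonoid.closure ({f, g} : Set G),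
      ∃ t ∈ Submonoid.closure ({f, g} : Set G), (g * t)⁻¹ * (f * s) ∈ K

theorem par_false (h : Par G x0 a b c) (hG : Hyp G) : False := by
  have hZ : Zt G Ω ≠ ⊤ := by
    intro hZ
    have hZ' : ∀ (d w : G) (x : Ω), d • w • x = w • d • x := by
      intro d
      have : d ∈ Zt G Ω := hZ ▸ Subgroup.mem_top d
      exact this
    have hN : NC G Ω (⊤ : Subgroup G) := by
      apply nc_of_words
      intro f _ g _
      refine ⟨g, Submonoid.subset_closure (by simp), f, Submonoid.subset_closure (by simp), ?_⟩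
      intro x
      rw [mul_smul, mul_smul, hZ']
    have h1 := k4 h inferInstance hN c (Subgroup.mem_top c) h.hc
    obtain ⟨z, hz1, hz2⟩ := h.dn _ _ h.hb
    have h2 := h.prx hz1 hz2
    rw [h1] at h2
    exact lt_irrefl _ h2
  obtain ⟨M, hMn, hKM, hM⟩ := hG (Zt G Ω) zt_normal hZ
  have hN : NC G Ω M := by
    apply nc_of_words
    intro f hf g hg
    obtain ⟨s, hs, t, ht, hst⟩ := hM f hf g hg
    have hfc : f ∈ Submonoid.closure ({f, g} : Set G) := Submonoid.subset_closure (by simp)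
    have hgc : g ∈ Submonoid.closure ({f, g} : Set G) := Submonoid.subset_closure (by simp)
    refine ⟨s * (g * t), mul_mem hs (mul_mem hgc ht), t * (f * s), mul_mem ht (mul_mem hfc hs), ?_⟩
    intro x
    have h1 : ∀ (w : G) (x : Ω), ((g * t)⁻¹ * (f * s)) • w • x = w • ((g * t)⁻¹ * (f * s)) • x :=
      hst
    -- `f s = g t ζ`
    have h2 : ∀ y : Ω, (f * s) • y = (g * t) • ((g * t)⁻¹ * (f * s)) • y := by
      intro y
      rw [← mul_smul, mul_inv_cancel_left]
    calc (f * (s * (g * t))) • x = (f * s) • (g * t) • x := by rw [← mul_smul, ← mul_assoc]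
      _ = (g * t) • ((g * t)⁻¹ * (f * s)) • (g * t) • x := h2 _
      _ = (g * t) • (g * t) • ((g * t)⁻¹ * (f * s)) • x := by rw [h1]
      _ = (g * t) • (f * s) • x := by rw [← h2]
      _ = (g * (t * (f * s))) • x := by rw [← mul_smul, mul_assoc g t (f * s)]
  have hle : M ≤ Zt G Ω := by
    intro n hn w x
    have := k7 h hMn hN hn w x
    rw [mul_smul, mul_smul] at this
    exact this.symm
  exact absurd hle (not_le_of_gt hKM)

end Final

end Pool.Agent.H228_Iso
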