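import Mathlib
import Pool.Agent.H228_Iso.Par2

set_option autoImplicit false

namespace Pool.Agent.H228_Iso

open scoped Pointwise

/-- Positive cones of left orders. -/
structure Cone {G : Type*} [Group G] (P : Set G) : Prop where
  mul : ∀ a ∈ P, ∀ b ∈ P, a * b ∈ P
  one : (1 : G) ∉ P
  tot : ∀ a : G, a ≠ 1 → (a ∈ P ∨ a⁻¹ ∈ P)
  asym : ∀ a ∈ P, a⁻¹ ∉ P

theorem Cone.inv {G : Type*} [Group G] {P : Set G} (h : Cone P) : Cone {g : G | g⁻¹ ∈ P} where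
  mul a ha b hb := by
    show (a * b)⁻¹ ∈ P
    rw [mul_inv_rev]
    exact h.mul _ hb _ ha
  one := by
    show (1 : G)⁻¹ ∉ P
    rw [inv_one]
    exact h.one
  tot a ha := by
    rcases h.tot a ha with h1 | h1
    · right
      show a⁻¹⁻¹ ∈ P
      rwa [inv_inv]
    · left
      exact h1
  asym a ha hb := by
    have ha' : a⁻¹ ∈ P := ha
    have hb' : a⁻¹⁻¹ ∈ P := hb
    exact h.asym _ ha' hb'

theorem Cone.conj {G : Type*} [Group G] {P : Set G} (h : Cone P) (κ : G) :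
    Cone {g : G | κ⁻¹ * g * κ ∈ P} where
  mul a ha b hb := by
    show κ⁻¹ * (a * b) * κ ∈ P
    have : κ⁻¹ * (a * b) * κ = (κ⁻¹ * a * κ) * (κ⁻¹ * b * κ) := by group
    rw [this]
    exact h.mul _ ha _ hb
  one := by
    show κ⁻¹ * 1 * κ ∉ P
    have : κ⁻¹ * 1 * κ = 1 := by group
    rw [this]
    exact h.one
  tot a ha := by
    have h1 : κ⁻¹ * a * κ ≠ 1 := by
      intro hcon
      apply ha
      have : a = κ * (κ⁻¹ * a * κ) * κ⁻¹ := by group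
      rw [this, hcon]
      group
    rcases h.tot _ h1 with h2 | h2
    · left
      exact h2
    · right
      show κ⁻¹ * a⁻¹ * κ ∈ P
      have : κ⁻¹ * a⁻¹ * κ = (κ⁻¹ * a * κ)⁻¹ := by group
      rwa [this]
  asym a ha hb := by
    have hb' : κ⁻¹ * a⁻¹ * κ ∈ P := hb
    have : κ⁻¹ * a⁻¹ * κ = (κ⁻¹ * a * κ)⁻¹ := by group
    rw [this] at hb'
    exact h.asym _ ha hb'

section Mesh

variable {G Ω : Type*} [Group G] [LinearOrder Ω] [MulAction G Ω] [OAct G Ω]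
variable {x0 : Ω}

/-- Non-monotone. -/
def NM (G : Type*) {Ω : Type*} [Group G] [LinearOrder Ω] [MulAction G Ω] (x0 : Ω) : Prop :=
  ∃ g y : G, x0 < g • x0 ∧ g • y • x0 < y • x0

/-- Iterated cuts. -/
def Lv (G : Type*) {Ω : Type*} [Group G] [LinearOrder Ω] [MulAction G Ω] (x0 : Ω) (S : Set Ω) :
    ℕ → Set Ω
  | 0 => Set.Iic x0
  | (j + 1) => {z | ∃ x : G, x • x0 ∈ Lv G x0 S j ∧ x⁻¹ • z ∈ S}

theorem lv_lower {S : Set Ω} (hS : IsLowerSet S) (j : ℕ) : IsLowerSet (Lv G x0 S j) := by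
  cases j with
  | zero => exact isLowerSet_Iic x0
  | succ j =>
    rintro s t hts ⟨x, hx, hxs⟩
    exact ⟨x, hx, hS (OAct.mono _ _ _ hts) hxs⟩

theorem lv_mono {S : Set Ω} (j : ℕ) {h : G}
    (hh : x0 < h • x0) {z : Ω} (hz : z ∈ Lv G x0 S j) : h⁻¹ • z ∈ Lv G x0 S j := by
  induction j generalizing z with
  | zero =>
    show h⁻¹ • z ≤ x0
    rw [smul_le', inv_inv]
    exact le_trans hz hh.le
  | succ j ih =>
    obtain ⟨x, hx, hxz⟩ := hz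
    refine ⟨h⁻¹ * x, ?_, ?_⟩
    · rw [mul_smul]
      exact ih hx
    · rw [mul_inv_rev, inv_inv, mul_smul, smul_inv_smul]
      exact hxz

theorem lv_prod {S : Set Ω} (hS : IsLowerSet S) (i j : ℕ) {g : G} (hg : g • x0 ∈ Lv G x0 S i)
    {z : Ω} (hz : z ∈ Lv G x0 S j) : g • z ∈ Lv G x0 S (i + j) := by
  induction j generalizing z with
  | zero => exact lv_lower hS i (OAct.mono g _ _ hz) hg
  | succ j ih =>
    obtain ⟨x, hx, hxz⟩ := hz
    refine ⟨g * x, ?_, ?_⟩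
    · rw [mul_smul]
      exact ih hx
    · rw [mul_inv_rev, mul_smul, inv_smul_smul]
      exact hxz

theorem mesh (hm : MaxProp G x0) {S : Set Ω} (hS : IsLowerSet S)
    (hs : ∃ g : G, g • x0 ∈ S ∧ x0 < g • x0)
    {g y : G} (hg : x0 < g • x0) (hy : x0 < y • x0) : ∃ m : G, x0 < m • x0 ∧ m • (y⁻¹ * g⁻¹ * y) • x0 ∈ S := by
  obtain ⟨u, hu, hu'⟩ := hs
  have hT := lsm hm {g : G | ∃ j, g • x0 ∈ Lv G x0 S j}
    (by
      rintro g ⟨i, hi⟩ g' ⟨j, hj⟩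
      refine ⟨i + j, ?_⟩
      rw [mul_smul]
      exact lv_prod hS i j hi hj)
    (by
      intro g hg
      exact ⟨0, hg⟩)
    ⟨u, ⟨1, 1, by
      show (1 : G) • x0 ≤ x0
      simp, by simpa using hu⟩, hu'⟩
  have hex : ∃ j, y • x0 ∈ Lv G x0 S j := hT y
  classical
  have hk := Nat.find_spec hex
  have hmin := fun j hj => Nat.find_min hex (m := j) hj
  set k := Nat.find hex with hkdef
  have hk0 : k ≠ 0 := by
    intro hk0
    rw [hk0] at hk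
    exact absurd hy (not_lt.2 hk)
  obtain ⟨j, hj⟩ : ∃ j, k = j + 1 := ⟨k - 1, by omega⟩
  have hj1 : y • x0 ∉ Lv G x0 S j := hmin j (by omega)
  rw [hj] at hk
  obtain ⟨x, hx, hxy⟩ := hk
  have h1 : g • y • x0 ∉ Lv G x0 S j := by
    intro hcon
    apply hj1
    have := lv_mono j hg hcon
    rwa [inv_smul_smul] at this
  have h2 : x • x0 < g • y • x0 := by
    by_contra hcon
    rw [not_lt] at hcon
    exact h1 (lv_lower hS j hcon hx)
  refine ⟨x⁻¹ * g * y, ?_, ?_⟩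
  · rw [mul_smul, mul_smul, lt_smul', inv_inv]
    exact h2
  · rw [← mul_smul]
    have : x⁻¹ * g * y * (y⁻¹ * g⁻¹ * y) = x⁻¹ * y := by group
    rw [this, mul_smul]
    exact hxy

theorem nm' (hm : MaxProp G x0) (h : NM G x0) : ∃ w : G, x0 < w • x0 ∧
    ∀ S : Set Ω, IsLowerSet S → (∃ g : G, g • x0 ∈ S ∧ x0 < g • x0) →
      ∃ m : G, x0 < m • x0 ∧ m • w • x0 ∈ S := by
  obtain ⟨g, y, hg, hgy⟩ := h
  have hw : x0 < (y⁻¹ * g⁻¹ * y) • x0 := by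
    rw [mul_smul, mul_smul, lt_smul', inv_inv, lt_smul', inv_inv]
    exact hgy
  rcases lt_trichotomy (y • x0) x0 with h1 | h1 | h1
  · refine ⟨g, hg, ?_⟩
    intro S hS hs
    have h2 : x0 < y⁻¹ • x0 := by rw [lt_smul', inv_inv]; exact h1
    obtain ⟨m, hm1, hm2⟩ := mesh hm hS hs hw h2
    refine ⟨m, hm1, ?_⟩
    have e : y⁻¹⁻¹ * (y⁻¹ * g⁻¹ * y)⁻¹ * y⁻¹ = g := by group
    rwa [e] at hm2
  · rw [h1] at hgy
    exact absurd hg (lt_asymm hgy)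
  · refine ⟨_, hw, ?_⟩
    intro S hS hs
    exact mesh hm hS hs hg h1

theorem NM.dual (h : NM G x0) : NM G (OrderDual.toDual x0) := by
  obtain ⟨g, y, hg, hgy⟩ := h
  refine ⟨g⁻¹, y, ?_, ?_⟩
  · show g⁻¹ • x0 < x0
    rw [smul_lt', inv_inv]
    exact hg
  · show y • x0 < g⁻¹ • y • x0
    rw [lt_smul', inv_inv]
    exact hgy

theorem nm_dense (hm : MaxProp G x0) (htr : ∀ x : Ω, ∃ g : G, g • x0 = x) (h : NM G x0) :
    ∀ x y : Ω, x < y → ∃ z, x < z ∧ z < y := by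
  intro x y hxy
  by_contra hcon
  push Not at hcon
  obtain ⟨w, hw, hwS⟩ := nm' hm h
  obtain ⟨g, rfl⟩ := htr x
  obtain ⟨v, hv⟩ := htr (g⁻¹ • y)
  have hv0 : x0 < v • x0 := by
    rw [hv, lt_smul', inv_inv]
    exact hxy
  have hmin : ∀ z, x0 < z → v • x0 ≤ z := by
    intro z hz
    have := hcon (g • z) ((smul_lt _ _ _).2 hz)
    rw [hv, smul_le', inv_inv]
    exact this
  obtain ⟨m, hm1, hm2⟩ := hwS (Set.Iic (v • x0)) (isLowerSet_Iic _) ⟨v, le_refl _, hv0⟩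
  have h1 : m • w • x0 ≤ v • x0 := hm2
  have h2 : v • x0 ≤ m • x0 := hmin _ hm1
  have h3 : m • x0 < m • w • x0 := (smul_lt _ _ _).2 hw
  exact absurd (lt_of_lt_of_le h3 (h1.trans h2)) (lt_irrefl _)

/-- The order obtained by moving the base point to the cut `S`. -/
def PS (P : Set G) (S : Set Ω) : Set G := {g | S ⊆ g • S ∧ (g • S ⊆ S → g ∈ P)}

omit [LinearOrder Ω] [OAct G Ω] in
theorem sub_inv_iff (g : G) (S : Set Ω) : S ⊆ g⁻¹ • S ↔ g • S ⊆ S := by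
  rw [← smul_subset g S (g⁻¹ • S), smul_inv_smul]

omit [LinearOrder Ω] [OAct G Ω] in
theorem inv_sub_iff (g : G) (S : Set Ω) : g⁻¹ • S ⊆ S ↔ S ⊆ g • S := by
  rw [← smul_subset g (g⁻¹ • S) S, smul_inv_smul]

theorem ps_cone {P : Set G} (hP : Cone P) {S : Set Ω} (hS : IsLowerSet S) : Cone (PS P S) where
  mul a ha b hb := by
    obtain ⟨ha1, ha2⟩ := ha
    obtain ⟨hb1, hb2⟩ := hb
    have h1 : a • S ⊆ a • b • S := Set.smul_set_mono hb1
    refine ⟨?_, ?_⟩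
    · rw [mul_smul]
      exact ha1.trans h1
    · intro h2
      rw [mul_smul] at h2
      apply hP.mul
      · exact ha2 (h1.trans h2)
      · apply hb2
        rw [← smul_subset a]
        exact h2.trans ha1
  one := by
    rintro ⟨-, h⟩
    exact hP.one (h (by simp))
  tot a ha := by
    rcases hS.total (smul_lower a hS) with h1 | h1
    · by_cases h2 : a • S ⊆ S
      · rcases hP.tot a ha with h3 | h3
        · left
          exact ⟨h1, fun _ => h3⟩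
        · right
          exact ⟨(sub_inv_iff a S).2 h2, fun _ => h3⟩
      · left
        exact ⟨h1, fun h => absurd h h2⟩
    · by_cases h2 : S ⊆ a • S
      · rcases hP.tot a ha with h3 | h3
        · left
          exact ⟨h2, fun _ => h3⟩
        · right
          exact ⟨(sub_inv_iff a S).2 h1, fun _ => h3⟩
      · right
        exact ⟨(sub_inv_iff a S).2 h1, fun h => absurd ((inv_sub_iff a S).1 h) h2⟩
  asym a ha hb := by
    obtain ⟨ha1, ha2⟩ := ha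
    obtain ⟨hb1, hb2⟩ := hb
    exact hP.asym a (ha2 ((sub_inv_iff a S).1 hb1)) (hb2 ((inv_sub_iff a S).2 ha1))

theorem exists_low {ι : Type*} (X : Finset ι) (f : ι → Ω) (w : Ω) (hw : x0 < w)
    (hX : ∀ i ∈ X, x0 < f i) : ∃ b, x0 < b ∧ b ≤ w ∧ ∀ i ∈ X, b ≤ f i := by
  classical
  induction X using Finset.induction_on with
  | empty => exact ⟨w, hw, le_refl _, by simp⟩
  | insert i X hi ih =>
    obtain ⟨b, hb1, hb2, hb3⟩ := ih (fun j hj => hX j (Finset.mem_insert_of_mem hj))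
    have h1 := hX i (Finset.mem_insert_self i X)
    refine ⟨min b (f i), lt_min hb1 h1, (min_le_left _ _).trans hb2, ?_⟩
    intro j hj
    rcases Finset.mem_insert.1 hj with rfl | hj
    · exact min_le_right _ _
    · exact (min_le_left _ _).trans (hb3 j hj)

theorem core (hm : MaxProp G x0) (htr : ∀ x : Ω, ∃ g : G, g • x0 = x) (hnm : NM G x0)
    {P : Set G} (hP : Cone P) (hPx : ∀ g : G, x0 < g • x0 → g ∈ P) (F : Finset G)
    (hFP : ∀ f ∈ F, f ∈ P) (hF : ∀ Q : Set G, Cone Q → (∀ f ∈ F, f ∈ Q) → Q = P)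
    (K : Finset G) (hK : ∀ κ ∈ K, κ • x0 = x0) :
    ∃ b, x0 < b ∧ ∀ S : Set Ω, IsLowerSet S → (∃ s ∈ S, x0 < s) → b ∉ S → ∀ κ ∈ K,
      ¬ (∀ x : G, x • x0 = x0 → (κ⁻¹ * x * κ ∈ PS P S ↔ x ∈ P)) := by
  classical
  obtain ⟨w, hw, hwS⟩ := nm' hm hnm
  obtain ⟨b, hb1, hb2, hb3⟩ := exists_low
    ((K ×ˢ F).filter (fun p => x0 < (p.1⁻¹ * p.2 * p.1) • x0))
    (fun p => (p.1⁻¹ * p.2 * p.1) • x0) (w • x0) hw
    (by
      intro p hp
      exact (Finset.mem_filter.1 hp).2)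
  refine ⟨b, hb1, ?_⟩
  intro S hS hs hbS κ hκ hconj
  have hκfix := hK κ hκ
  obtain ⟨s, hs, hxs⟩ := hs
  have hx0S : x0 ∈ S := hS hxs.le hs
  have hQ : {g : G | κ⁻¹ * g * κ ∈ PS P S} = P := by
    apply hF _ ((ps_cone hP hS).conj κ)
    intro f hf
    show κ⁻¹ * f * κ ∈ PS P S
    by_cases hfx : f • x0 = x0
    · exact (hconj f hfx).2 (hFP f hf)
    · have h1 : x0 < f • x0 := by
        rcases lt_or_gt_of_ne hfx with h1 | h1
        · exfalso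
          have h2 : f⁻¹ ∈ P := by
            apply hPx
            rw [lt_smul', inv_inv]
            exact h1
          exact hP.asym f (hFP f hf) h2
        · exact h1
      have h2 : x0 < (κ⁻¹ * f * κ) • x0 := by
        rw [mul_smul, mul_smul, hκfix, lt_smul', inv_inv, hκfix]
        exact h1
      have h3 : b ≤ (κ⁻¹ * f * κ) • x0 := hb3 (κ, f) (Finset.mem_filter.2
        ⟨Finset.mem_product.2 ⟨hκ, hf⟩, h2⟩)
      have h4 : (κ⁻¹ * f * κ) • x0 ∉ S := fun hcon => hbS (hS h3 hcon)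
      have h5 : ¬ (κ⁻¹ * f * κ) • S ⊆ S := fun hcon => h4 (hcon (Set.smul_mem_smul_set hx0S))
      refine ⟨?_, fun h => absurd h h5⟩
      rcases hS.total (smul_lower (κ⁻¹ * f * κ) hS) with h6 | h6
      · exact h6
      · exact absurd h6 h5
  have hmono : ∀ g : G, x0 < g • x0 → S ⊆ g • S := by
    intro g hg
    have h1 : κ * g * κ⁻¹ ∈ P := by
      apply hPx
      have : κ⁻¹ • x0 = x0 := by rw [inv_smul_eq_iff, hκfix]
      rw [mul_smul, mul_smul, this, lt_smul', this]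
      exact hg
    rw [← hQ] at h1
    have h2 : κ⁻¹ * (κ * g * κ⁻¹) * κ ∈ PS P S := h1
    have h3 : κ⁻¹ * (κ * g * κ⁻¹) * κ = g := by group
    rw [h3] at h2
    exact h2.1
  obtain ⟨u, rfl⟩ := htr s
  obtain ⟨m, hm1, hm2⟩ := hwS S hS ⟨u, hs, hxs⟩
  have h1 := hmono m hm1 hm2
  rw [Set.smul_mem_smul_set_iff] at h1
  exact hbS (hS hb2 h1)

/-- Trivial stabiliser is impossible. -/
theorem core_triv (hm : MaxProp G x0) (htr : ∀ x : Ω, ∃ g : G, g • x0 = x) (hnm : NM G x0)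
    {P : Set G} (hP : Cone P) (hPx : ∀ g : G, x0 < g • x0 → g ∈ P) (F : Finset G)
    (hFP : ∀ f ∈ F, f ∈ P) (hF : ∀ Q : Set G, Cone Q → (∀ f ∈ F, f ∈ Q) → Q = P)
    (htriv : ∀ g : G, g • x0 = x0 → g = 1) : False := by
  obtain ⟨b, hb, hS⟩ := core hm htr hnm hP hPx F hFP hF {1} (by simp)
  obtain ⟨z, hz1, hz2⟩ := nm_dense hm htr hnm x0 b hb
  apply hS (Set.Iic z) (isLowerSet_Iic z) ⟨z, le_refl z, hz1⟩ (by simpa using hz2) 1 (by simp)
  intro x hx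
  rw [htriv x hx]
  simp only [inv_one, mul_one]
  constructor
  · intro h
    exact absurd h (ps_cone hP (isLowerSet_Iic z)).one
  · intro h
    exact absurd h hP.one

theorem core_pr (hm : MaxProp G x0) (htr : ∀ x : Ω, ∃ g : G, g • x0 = x) (hnm : NM G x0)
    {P : Set G} (hP : Cone P) (hPx : ∀ g : G, x0 < g • x0 → g ∈ P) (F : Finset G)
    (hFP : ∀ f ∈ F, f ∈ P) (hF : ∀ Q : Set G, Cone Q → (∀ f ∈ F, f ∈ Q) → Q = P)
    (K : Finset G) (hK : ∀ κ ∈ K, κ • x0 = x0) {c : G} (hcP : c ∈ P)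
    (hconj : ∀ Q : Set G, Cone Q → c ∈ Q →
      ∃ κ ∈ K, ∀ x : G, x • x0 = x0 → (κ⁻¹ * x * κ ∈ Q ↔ x ∈ P)) :
    ∃ b, x0 < b ∧ ∀ S : Set Ω, IsLowerSet S → (∃ s ∈ S, x0 < s) → b ∉ S → ¬ S ⊆ c • S := by
  obtain ⟨b, hb, hS⟩ := core hm htr hnm hP hPx F hFP hF K hK
  refine ⟨b, hb, ?_⟩
  intro S hSl hs hbS hcon
  obtain ⟨κ, hκ, hκ'⟩ := hconj (PS P S) (ps_cone hP hSl) ⟨hcon, fun _ => hcP⟩
  exact hS S hSl hs hbS κ hκ hκ'

theorem core_par (hm : MaxProp G x0) (htr : ∀ x : Ω, ∃ g : G, g • x0 = x) (hnm : NM G x0)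
    {P : Set G} (hP : Cone P) (hPx : ∀ g : G, x0 < g • x0 → g ∈ P) (F : Finset G)
    (hFP : ∀ f ∈ F, f ∈ P) (hF : ∀ Q : Set G, Cone Q → (∀ f ∈ F, f ∈ Q) → Q = P)
    (K : Finset G) (hK : ∀ κ ∈ K, κ • x0 = x0) {c : G} (hcP : c ∈ P) (hcx : c • x0 = x0)
    (hconj : ∀ Q : Set G, Cone Q → c ∈ Q →
      ∃ κ ∈ K, ∀ x : G, x • x0 = x0 → (κ⁻¹ * x * κ ∈ Q ↔ x ∈ P))
    (hdcc : ∀ A : ℕ → Subgroup G, (∀ k, ∀ x ∈ A k, x • x0 = x0) → (∀ k, A (k + 1) ≤ A k) →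
      (∀ k, ∀ x ∈ A k, ∀ m : ℕ, 0 < m → x ^ m ∈ A (k + 1) → x ∈ A (k + 1)) →
      ∃ k, A (k + 1) = A k) :
    ∃ a b, Par G x0 a b c := by
  classical
  obtain ⟨b, hb, hpr⟩ := core_pr hm htr hnm hP hPx F hFP hF K hK hcP hconj
  have hPx' : ∀ g : G, OrderDual.toDual x0 < g • OrderDual.toDual x0 → g ∈ {g : G | g⁻¹ ∈ P} := by
    intro g hg
    have hg' : g • x0 < x0 := hg
    show g⁻¹ ∈ P
    apply hPx
    rw [lt_smul', inv_inv]
    exact hg'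
  have hFP' : ∀ f ∈ F.image (fun g => g⁻¹), f ∈ {g : G | g⁻¹ ∈ P} := by
    intro f hf
    obtain ⟨f', hf', rfl⟩ := Finset.mem_image.1 hf
    show f'⁻¹⁻¹ ∈ P
    rw [inv_inv]
    exact hFP f' hf'
  have hF' : ∀ Q : Set G, Cone Q → (∀ f ∈ F.image (fun g => g⁻¹), f ∈ Q) →
      Q = {g : G | g⁻¹ ∈ P} := by
    intro Q hQ hQF
    have h1 := hF _ hQ.inv (by
      intro f hf
      exact hQF f⁻¹ (Finset.mem_image_of_mem _ hf))
    ext g
    rw [← h1]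
    show g ∈ Q ↔ g⁻¹⁻¹ ∈ Q
    rw [inv_inv]
  have htr' : ∀ x : Ωᵒᵈ, ∃ g : G, g • OrderDual.toDual x0 = x := fun x => htr (OrderDual.ofDual x)
  have hcP' : c⁻¹ ∈ {g : G | g⁻¹ ∈ P} := by
    show c⁻¹⁻¹ ∈ P
    rw [inv_inv]
    exact hcP
  have hconj' : ∀ Q : Set G, Cone Q → c⁻¹ ∈ Q →
      ∃ κ ∈ K, ∀ x : G, x • OrderDual.toDual x0 = OrderDual.toDual x0 →
        (κ⁻¹ * x * κ ∈ Q ↔ x ∈ {g : G | g⁻¹ ∈ P}) := by
    intro Q hQ hcQ
    obtain ⟨κ, hκ, hκ'⟩ := hconj _ hQ.inv hcQ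
    refine ⟨κ, hκ, ?_⟩
    intro x hx
    have hx' : x⁻¹ • x0 = x0 := by
      rw [inv_smul_eq_iff]
      exact (show x • x0 = x0 from hx).symm
    have h1 := hκ' x⁻¹ hx'
    have h2 : κ⁻¹ * x⁻¹ * κ = (κ⁻¹ * x * κ)⁻¹ := by group
    rw [h2] at h1
    have h3 : (κ⁻¹ * x * κ)⁻¹ ∈ {g : G | g⁻¹ ∈ Q} ↔ κ⁻¹ * x * κ ∈ Q := by
      show (κ⁻¹ * x * κ)⁻¹⁻¹ ∈ Q ↔ _
      rw [inv_inv]
    rw [h3] at h1
    exact h1
  obtain ⟨a, ha, hpl⟩ := core_pr (x0 := OrderDual.toDual x0) hm.dual htr' hnm.dual hP.inv hPx'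
    (F.image (fun g => g⁻¹)) hFP' hF' K hK hcP' hconj'
  refine ⟨OrderDual.ofDual a, b, htr, hm, nm_dense hm htr hnm, hcx, ha, hb, hpr, ?_, hdcc⟩
  intro S hS haS hs hcon
  obtain ⟨s, hs1, hs2⟩ := hs
  have e : ∀ (k : G) (S : Set Ω), k • Sᶜ = (k • S)ᶜ := fun k S => Set.smul_set_compl
  refine hpl (show Set Ωᵒᵈ from Sᶜ) ?_ ⟨OrderDual.toDual s, hs2, hs1⟩ (fun hn => hn haS) ?_
  · intro x y hyx hx hy
    exact hx (hS hyx hy)
  · show Sᶜ ⊆ c⁻¹ • Sᶜ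
    rw [e]
    apply Set.compl_subset_compl.2
    rw [inv_sub_iff]
    exact hcon

end Mesh

end Pool.Agent.H228_Iso
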