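import Mathlib
import Pool.Agent.H228_Iso.Mesh

set_option autoImplicit false

namespace Pool.Agent.H228_Iso

section Mono

variable {G Ω : Type*} [Group G] [LinearOrder Ω] [MulAction G Ω] [OAct G Ω]
variable {x0 : Ω}

omit [OAct G Ω] in
theorem mn_le (htr : ∀ x : Ω, ∃ g : G, g • x0 = x) (h : ¬ NM G x0) {g : G} (hg : x0 < g • x0)
    (z : Ω) : z ≤ g • z := by
  obtain ⟨y, rfl⟩ := htr z
  by_contra hcon
  rw [not_le] at hcon
  exact h ⟨g, y, hg, hcon⟩

theorem mn_ge (htr : ∀ x : Ω, ∃ g : G, g • x0 = x) (h : ¬ NM G x0) {g : G} (hg : g • x0 < x0)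
    (z : Ω) : g • z ≤ z := by
  have h1 : x0 < g⁻¹ • x0 := by rw [lt_smul', inv_inv]; exact hg
  have := mn_le htr h h1 z
  rwa [le_smul', inv_inv] at this

theorem mn_triv_aux (hm : MaxProp G x0) (htr : ∀ x : Ω, ∃ g : G, g • x0 = x) (h : ¬ NM G x0)
    {g : G} (hg : g • x0 = x0) {y : G} (hy : y • x0 < g • y • x0) : False := by
  -- monotonicity of the conjugation
  have step : ∀ k : G, k • x0 ≤ x0 → (y * k * y⁻¹) • x0 ≤ x0 := by
    intro k hk
    rcases lt_or_eq_of_le hk with h1 | h1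
    · rw [mul_smul, mul_smul, smul_le']
      exact mn_ge htr h h1 _
    · by_contra hcon
      rw [not_le] at hcon
      have h2 : x0 < (g⁻¹ * (y * k * y⁻¹)) • x0 := by
        rw [mul_smul, lt_smul', inv_inv, hg]
        exact hcon
      have h3 := mn_le htr h h2 (y • x0)
      rw [mul_smul, mul_smul, mul_smul, inv_smul_smul, h1, le_smul', inv_inv] at h3
      exact absurd hy (not_lt.2 h3)
  have step2 : ∀ (j k : ℕ) (e : G), (y ^ k * e * (y ^ k)⁻¹) • x0 ≤ x0 →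
      (y ^ (k + j) * e * (y ^ (k + j))⁻¹) • x0 ≤ x0 := by
    intro j
    induction j with
    | zero => intro k e he; exact he
    | succ j ih =>
      intro k e he
      have h1 := step _ (ih k e he)
      have h2 : y ^ (k + (j + 1)) * e * (y ^ (k + (j + 1)))⁻¹ =
          y * (y ^ (k + j) * e * (y ^ (k + j))⁻¹) * y⁻¹ := by
        rw [← add_assoc, pow_succ']
        group
      rwa [h2]
  have hT := lsm hm {e : G | ∃ k : ℕ, (y ^ k * e * (y ^ k)⁻¹) • x0 ≤ x0}
    (by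
      rintro e ⟨k, hk⟩ e' ⟨k', hk'⟩
      refine ⟨k + k', ?_⟩
      have h1 := step2 k' k e hk
      have h2 := step2 k k' e' hk'
      rw [add_comm k' k] at h2
      have h3 : y ^ (k + k') * (e * e') * (y ^ (k + k'))⁻¹ =
        (y ^ (k + k') * e * (y ^ (k + k'))⁻¹) * (y ^ (k + k') * e' * (y ^ (k + k'))⁻¹) := by
        group
      rw [h3, mul_smul]
      exact le_trans (OAct.mono _ _ _ h2) h1)
    (by
      intro e he
      exact ⟨0, by simpa using he⟩)
    ⟨y⁻¹ * g * y, ⟨1, by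
      have : y ^ 1 * (y⁻¹ * g * y) * (y ^ 1)⁻¹ = g := by group
      rw [this, hg]⟩, by
      rw [mul_smul, mul_smul, lt_smul', inv_inv]
      exact hy⟩
  obtain ⟨k, hk⟩ := hT y
  obtain ⟨k', hk'⟩ := hT y⁻¹
  have e1 : y ^ k * y * (y ^ k)⁻¹ = y := by group
  have e2 : y ^ k' * y⁻¹ * (y ^ k')⁻¹ = y⁻¹ := by group
  rw [e1] at hk
  rw [e2, smul_le', inv_inv] at hk'
  have h1 : y • x0 = x0 := le_antisymm hk hk'
  rw [h1, hg] at hy
  exact lt_irrefl _ hy

theorem mn_triv (hm : MaxProp G x0) (htr : ∀ x : Ω, ∃ g : G, g • x0 = x) (h : ¬ NM G x0)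
    {g : G} (hg : g • x0 = x0) (z : Ω) : g • z = z := by
  obtain ⟨y, rfl⟩ := htr z
  rcases lt_trichotomy (g • y • x0) (y • x0) with h1 | h1 | h1
  · exfalso
    apply mn_triv_aux hm htr h (g := g⁻¹) (y := y)
    · rw [inv_smul_eq_iff, hg]
    · rw [lt_smul', inv_inv]
      exact h1
  · exact h1
  · exact (mn_triv_aux hm htr h hg h1).elim

theorem mn_cmp (hm : MaxProp G x0) (htr : ∀ x : Ω, ∃ g : G, g • x0 = x) (h : ¬ NM G x0)
    {g k : G} (hg : g • x0 ≤ k • x0) (z : Ω) : g • z ≤ k • z := by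
  have h1 : (k⁻¹ * g) • x0 ≤ x0 := by
    rw [mul_smul, smul_le', inv_inv]
    exact hg
  have h2 : (k⁻¹ * g) • z ≤ z := by
    rcases lt_or_eq_of_le h1 with h2 | h2
    · exact mn_ge htr h h2 z
    · exact (mn_triv hm htr h h2 z).le
  rw [mul_smul, smul_le', inv_inv] at h2
  exact h2

theorem mn_cmplt (hm : MaxProp G x0) (htr : ∀ x : Ω, ∃ g : G, g • x0 = x) (h : ¬ NM G x0)
    {g k : G} (hg : g • x0 < k • x0) (z : Ω) : g • z < k • z := by
  obtain ⟨y, rfl⟩ := htr z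
  by_contra hcon
  rw [not_lt] at hcon
  have h1 : (y⁻¹ * k * y) • x0 ≤ (y⁻¹ * g * y) • x0 := by
    rw [mul_smul, mul_smul, mul_smul, mul_smul, smul_le]
    exact hcon
  have h2 := mn_cmp hm htr h h1 (y⁻¹ • x0)
  rw [mul_smul, mul_smul, mul_smul, mul_smul, smul_le, smul_inv_smul] at h2
  exact absurd hg (not_lt.2 h2)

theorem mn_arch (hm : MaxProp G x0) (htr : ∀ x : Ω, ∃ g : G, g • x0 = x) (h : ¬ NM G x0)
    {b : G} (hb : x0 < b • x0) (g : G) : ∃ k : ℕ, g • x0 ≤ b ^ k • x0 := by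
  have hT := lsm hm {e : G | ∃ k : ℕ, e • x0 ≤ b ^ k • x0}
    (by
      rintro e ⟨k, hk⟩ e' ⟨k', hk'⟩
      refine ⟨k + k', ?_⟩
      rw [mul_smul, pow_add, mul_smul]
      exact ((smul_le _ _ _).2 hk').trans (mn_cmp hm htr h hk _))
    (by
      intro e he
      exact ⟨0, by simpa using he⟩)
    ⟨b, ⟨1, by simp⟩, hb⟩
  exact hT g

theorem zpow_pos_lt {b : G} (hb : x0 < b • x0) : ∀ j : ℕ, x0 < b ^ ((j : ℤ) + 1) • x0 := by
  intro j
  induction j with
  | zero => simpa using hb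
  | succ j ih =>
    rw [zpow_add, mul_smul, zpow_one]
    push_cast
    exact lt_trans ih ((smul_lt _ _ _).2 hb)

theorem zpow_lt {b : G} (hb : x0 < b • x0) {p q : ℤ} (hpq : p < q) :
    b ^ p • x0 < b ^ q • x0 := by
  obtain ⟨j, hj⟩ : ∃ j : ℕ, q = p + ((j : ℤ) + 1) := ⟨(q - p - 1).toNat, by omega⟩
  rw [hj, zpow_add, mul_smul, smul_lt]
  exact zpow_pos_lt hb j

theorem le_of_zpow_le {b : G} (hb : x0 < b • x0) {p q : ℤ} (h : b ^ p • x0 ≤ b ^ q • x0) :
    p ≤ q := by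
  by_contra hcon
  rw [not_le] at hcon
  exact absurd (zpow_lt hb hcon) (not_lt.2 h)

theorem lt_of_zpow_lt {b : G} (hb : x0 < b • x0) {p q : ℤ} (h : b ^ p • x0 < b ^ q • x0) :
    p < q := by
  by_contra hcon
  rw [not_lt] at hcon
  rcases lt_or_eq_of_le hcon with h1 | h1
  · exact lt_asymm h (zpow_lt hb h1)
  · rw [h1] at h
    exact lt_irrefl _ h

theorem fl_exists (hm : MaxProp G x0) (htr : ∀ x : Ω, ∃ g : G, g • x0 = x) (h : ¬ NM G x0)
    {b : G} (hb : x0 < b • x0) (g : G) :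
    ∃ p : ℤ, b ^ p • x0 ≤ g • x0 ∧ g • x0 < b ^ (p + 1) • x0 := by
  obtain ⟨k, hk⟩ := mn_arch hm htr h hb g
  obtain ⟨j, hj⟩ := mn_arch hm htr h hb g⁻¹
  obtain ⟨p, hp1, hp2⟩ := Int.exists_greatest_of_bdd (P := fun p => b ^ p • x0 ≤ g • x0)
    ⟨k, by
      intro z hz
      apply le_of_zpow_le hb
      rw [zpow_natCast]
      exact hz.trans hk⟩
    ⟨-j, by
      have := mn_cmp hm htr h hj (b ^ (-(j : ℤ)) • x0)
      rw [smul_le', inv_inv, zpow_neg, zpow_natCast, smul_inv_smul] at this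
      rw [zpow_neg, zpow_natCast]
      exact this⟩
  refine ⟨p, hp1, ?_⟩
  by_contra hcon
  rw [not_lt] at hcon
  have := hp2 _ hcon
  omega

omit [LinearOrder Ω] [OAct G Ω] in
theorem pow_cmp [LinearOrder Ω] [OAct G Ω] {g k : G}
    (hc : ∀ z : Ω, (k * g) • z ≤ (g * k) • z) (n : ℕ) :
    (∀ z : Ω, (k ^ n * g) • z ≤ (g * k ^ n) • z) ∧ (∀ z : Ω, (k * g ^ n) • z ≤ (g ^ n * k) • z) := by
  induction n with
  | zero => simp
  | succ n ih =>
    obtain ⟨ih1, ih2⟩ := ih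
    constructor
    · intro z
      calc (k ^ (n + 1) * g) • z = k ^ n • (k * g) • z := by
            rw [← mul_smul, pow_succ]; simp only [mul_assoc]
        _ ≤ k ^ n • (g * k) • z := OAct.mono _ _ _ (hc z)
        _ = (k ^ n * g) • k • z := by rw [← mul_smul, ← mul_smul]; simp only [mul_assoc]
        _ ≤ (g * k ^ n) • k • z := ih1 _
        _ = (g * k ^ (n + 1)) • z := by rw [← mul_smul, pow_succ]; simp only [mul_assoc]
    · intro z
      calc (k * g ^ (n + 1)) • z = (k * g ^ n) • g • z := by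
            rw [← mul_smul, pow_succ]; simp only [mul_assoc]
        _ ≤ (g ^ n * k) • g • z := ih2 _
        _ = g ^ n • (k * g) • z := by rw [← mul_smul, ← mul_smul]; simp only [mul_assoc]
        _ ≤ g ^ n • (g * k) • z := OAct.mono _ _ _ (hc z)
        _ = (g ^ (n + 1) * k) • z := by rw [← mul_smul, pow_succ]; simp only [mul_assoc]

omit [LinearOrder Ω] [OAct G Ω] in
theorem pow_cmp2 [LinearOrder Ω] [OAct G Ω] {g k : G}
    (hc : ∀ z : Ω, (k * g) • z ≤ (g * k) • z) (n : ℕ) :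
    (∀ z : Ω, ((g * k) ^ n) • z ≤ (g ^ n * k ^ n) • z) ∧
      (∀ z : Ω, (k ^ n * g ^ n) • z ≤ ((g * k) ^ n) • z) := by
  induction n with
  | zero => simp
  | succ n ih =>
    obtain ⟨ih1, ih2⟩ := ih
    constructor
    · intro z
      calc (g * k) ^ (n + 1) • z = (g * k) ^ n • (g * k) • z := by
            rw [← mul_smul, pow_succ]
        _ ≤ (g ^ n * k ^ n) • (g * k) • z := ih1 _
        _ = g ^ n • (k ^ n * g) • k • z := by
            simp only [← mul_smul, mul_assoc]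
        _ ≤ g ^ n • (g * k ^ n) • k • z := OAct.mono _ _ _ ((pow_cmp hc n).1 _)
        _ = (g ^ (n + 1) * k ^ (n + 1)) • z := by
            simp only [← mul_smul, pow_succ, mul_assoc]
    · intro z
      calc (k ^ (n + 1) * g ^ (n + 1)) • z = k ^ n • (k * g ^ (n + 1)) • z := by
            rw [← mul_smul, pow_succ]; simp only [mul_assoc]
        _ ≤ k ^ n • (g ^ (n + 1) * k) • z := OAct.mono _ _ _ ((pow_cmp hc (n + 1)).2 _)
        _ = (k ^ n * g ^ n) • (g * k) • z := by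
            simp only [← mul_smul, pow_succ, mul_assoc]
        _ ≤ ((g * k) ^ n) • (g * k) • z := ih2 _
        _ = (g * k) ^ (n + 1) • z := by rw [← mul_smul, pow_succ]

end Mono

end Pool.Agent.H228_Iso
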