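import Mathlib
import Pool.Agent.H228_Iso.Mono

set_option autoImplicit false

namespace Pool.Agent.H228_Iso

open Filter Topology

section Holder

variable {G Ω : Type*} [Group G] [LinearOrder Ω] [MulAction G Ω] [OAct G Ω]
variable {x0 : Ω}

/-- Real-valued homomorphism of a monotone transitive action. -/
theorem holder (hm : MaxProp G x0) (htr : ∀ x : Ω, ∃ g : G, g • x0 = x) (h : ¬ NM G x0)
    {b : G} (hb : x0 < b • x0) :
    ∃ φ : G → ℝ, (∀ g k, φ (g * k) = φ g + φ k) ∧ (∀ g : G, x0 < g • x0 → 0 < φ g) ∧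
      (∀ g : G, g • x0 = x0 → φ g = 0) := by
  choose N hN1 hN2 using fl_exists hm htr h hb
  have key1 : ∀ (g : G) (p : ℤ), b ^ p • x0 ≤ g • x0 → p ≤ N g := by
    intro g p hp
    have := lt_of_zpow_lt hb (lt_of_le_of_lt hp (hN2 g))
    omega
  have key2 : ∀ (g : G) (q : ℤ), g • x0 < b ^ q • x0 → N g < q := fun g q hq =>
    lt_of_zpow_lt hb (lt_of_le_of_lt (hN1 g) hq)
  have key2' : ∀ (g : G) (q : ℤ), g • x0 ≤ b ^ q • x0 → N g ≤ q := fun g q hq =>
    le_of_zpow_le hb ((hN1 g).trans hq)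
  have hmono : ∀ g k : G, g • x0 ≤ k • x0 → N g ≤ N k := fun g k hgk =>
    key1 k (N g) ((hN1 g).trans hgk)
  have hsup : ∀ g k : G, N g + N k ≤ N (g * k) := by
    intro g k
    apply key1
    rw [zpow_add, mul_smul, mul_smul]
    exact ((smul_le _ _ _).2 (hN1 k)).trans (mn_cmp hm htr h (hN1 g) _)
  have hsub : ∀ g k : G, N (g * k) ≤ N g + N k + 1 := by
    intro g k
    have h1 : (g * k) • x0 < b ^ ((N g + 1) + (N k + 1)) • x0 := by
      rw [zpow_add, mul_smul, mul_smul]
      exact lt_of_lt_of_le ((smul_lt _ _ _).2 (hN2 k)) (mn_cmp hm htr h (hN2 g).le _)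
    have := key2 _ _ h1
    omega
  have hone : N 1 ≤ 0 := key2' 1 0 (by simp)
  have hpow : ∀ (g : G) (n : ℕ), N (g ^ n) ≤ n * (N g + 1) := by
    intro g n
    induction n with
    | zero => simpa using hone
    | succ n ih =>
      have := hsub (g ^ n) g
      rw [pow_succ]
      push_cast
      linarith
  have hSub : ∀ g : G, Subadditive (fun n : ℕ => -(N (g ^ n) : ℝ)) := by
    intro g m n
    have := hsup (g ^ m) (g ^ n)
    rw [← pow_add] at this
    have h2 : ((N (g ^ m) : ℝ)) + N (g ^ n) ≤ N (g ^ (m + n)) := by exact_mod_cast this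
    show -(N (g ^ (m + n)) : ℝ) ≤ -(N (g ^ m) : ℝ) + -(N (g ^ n) : ℝ)
    linarith
  have hBdd : ∀ g : G, BddBelow (Set.range fun n : ℕ => -(N (g ^ n) : ℝ) / n) := by
    intro g
    refine ⟨-|(N g : ℝ) + 1|, ?_⟩
    rintro _ ⟨n, rfl⟩
    show -|(N g : ℝ) + 1| ≤ -(N (g ^ n) : ℝ) / n
    rcases Nat.eq_zero_or_pos n with hn | hn
    · subst hn
      simp
    · have hn' : (0 : ℝ) < n := by exact_mod_cast hn
      rw [le_div_iff₀ hn']
      have h1 : (N (g ^ n) : ℝ) ≤ n * (N g + 1) := by exact_mod_cast hpow g n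
      have h2 : (N g : ℝ) + 1 ≤ |(N g : ℝ) + 1| := le_abs_self _
      nlinarith
  have hlim : ∀ g : G, Tendsto (fun n : ℕ => (N (g ^ n) : ℝ) / n) atTop (𝓝 (-(hSub g).lim)) := by
    intro g
    have := ((hSub g).tendsto_lim (hBdd g)).neg
    refine this.congr ?_
    intro n
    simp [neg_div]
  have hadd : ∀ g k : G, (∀ z : Ω, (k * g) • z ≤ (g * k) • z) →
      -(hSub (g * k)).lim = -(hSub g).lim + -(hSub k).lim := by
    intro g k hc
    have hb1 : ∀ n : ℕ, N ((g * k) ^ n) ≤ N (g ^ n) + N (k ^ n) + 1 := fun n =>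
      (hmono _ _ ((pow_cmp2 hc n).1 x0)).trans (hsub _ _)
    have hb2 : ∀ n : ℕ, N (k ^ n) + N (g ^ n) ≤ N ((g * k) ^ n) := fun n =>
      (hsup _ _).trans (hmono _ _ ((pow_cmp2 hc n).2 x0))
    have hD : Tendsto (fun n : ℕ => (N ((g * k) ^ n) : ℝ) / n -
        ((N (g ^ n) : ℝ) / n + (N (k ^ n) : ℝ) / n)) atTop (𝓝 0) := by
      refine squeeze_zero (g := fun n : ℕ => (1 : ℝ) / n) ?_ ?_ tendsto_one_div_atTop_nhds_zero_nat
      · intro n
        have h1 : (N (k ^ n) : ℝ) + N (g ^ n) ≤ N ((g * k) ^ n) := by exact_mod_cast hb2 n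
        have h2 : (N ((g * k) ^ n) : ℝ) / n - ((N (g ^ n) : ℝ) / n + (N (k ^ n) : ℝ) / n) =
          ((N ((g * k) ^ n) : ℝ) - N (g ^ n) - N (k ^ n)) / n := by ring
        rw [h2]
        apply div_nonneg
        · linarith
        · exact Nat.cast_nonneg n
      · intro n
        have h1 : (N ((g * k) ^ n) : ℝ) ≤ N (g ^ n) + N (k ^ n) + 1 := by exact_mod_cast hb1 n
        have h2 : (N ((g * k) ^ n) : ℝ) / n - ((N (g ^ n) : ℝ) / n + (N (k ^ n) : ℝ) / n) =
          ((N ((g * k) ^ n) : ℝ) - N (g ^ n) - N (k ^ n)) / n := by ring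
        rw [h2]
        apply div_le_div_of_nonneg_right
        · linarith
        · exact Nat.cast_nonneg n
    have hE := (hlim (g * k)).sub ((hlim g).add (hlim k))
    have := tendsto_nhds_unique hD hE
    linarith
  have hlim1 : -(hSub 1).lim = 0 := by
    have := hadd 1 1 (by intro z; simp)
    rw [mul_one] at this
    linarith
  have hinv : ∀ g : G, -(hSub g⁻¹).lim = -(-(hSub g).lim) := by
    intro g
    have := hadd g g⁻¹ (by intro z; simp)
    rw [mul_inv_cancel, hlim1] at this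
    linarith
  refine ⟨fun g => -(hSub g).lim, ?_, ?_, ?_⟩
  · intro g k
    show -(hSub (g * k)).lim = -(hSub g).lim + -(hSub k).lim
    rcases le_total ((k * g) • x0) ((g * k) • x0) with h1 | h1
    · exact hadd g k (mn_cmp hm htr h h1)
    · have h2 : ∀ z : Ω, (g⁻¹ * k⁻¹) • z ≤ (k⁻¹ * g⁻¹) • z := by
        intro z
        have h3 := mn_cmp hm htr h h1 ((k⁻¹ * g⁻¹) • z)
        have e1 : (g * k) • (k⁻¹ * g⁻¹) • z = z := by
          rw [← mul_smul]
          have : g * k * (k⁻¹ * g⁻¹) = 1 := by group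
          rw [this, one_smul]
        rw [e1] at h3
        rw [← mul_inv_rev k g, smul_le', inv_inv]
        exact h3
      have h3 := hadd k⁻¹ g⁻¹ h2
      rw [← mul_inv_rev, hinv, hinv, hinv] at h3
      linarith
  · intro g hg
    obtain ⟨k, hk⟩ := mn_arch hm htr h hg b
    have h1 : 1 ≤ N (g ^ k) := by
      apply key1
      rw [zpow_one]
      exact hk
    have hk0 : k ≠ 0 := by
      rintro rfl
      simp only [pow_zero, one_smul] at hk
      exact absurd hb (not_lt.2 hk)
    have h2 := (hSub g).lim_le_div (hBdd g) hk0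
    have hk' : (0 : ℝ) < k := by
      have : 0 < k := Nat.pos_of_ne_zero hk0
      exact_mod_cast this
    have h1' : (1 : ℝ) ≤ N (g ^ k) := by exact_mod_cast h1
    have h3 : -(N (g ^ k) : ℝ) / k < 0 := by
      rw [neg_div, neg_lt_zero]
      positivity
    show 0 < -(hSub g).lim
    linarith
  · intro g hg
    have h1 : ∀ n : ℕ, N (g ^ n) = 0 := by
      intro n
      have h2 : g ^ n • x0 = x0 := by
        have := fix_zpow hg (n : ℤ)
        rwa [zpow_natCast] at this
      apply le_antisymm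
      · apply key2'
        rw [h2]
        simp
      · apply key1
        rw [h2]
        simp
    have h2 : (fun n : ℕ => (N (g ^ n) : ℝ) / n) = fun _ => (0 : ℝ) := by
      funext n
      rw [h1]
      simp
    refine tendsto_nhds_unique (hlim g) ?_
    rw [h2]
    exact tendsto_const_nhds

end Holder

end Pool.Agent.H228_Iso
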