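import Mathlib
import Pool.Agent.H228_Iso.Holder

set_option autoImplicit false

namespace Pool.Agent.H228_Iso

section Hom

variable {G R : Type*} [Group G] [Field R] {f : G → R}

theorem hom_one (hf : ∀ x y, f (x * y) = f x + f y) : f 1 = 0 := by
  have := hf 1 1
  rw [mul_one] at this
  simpa using this

theorem hom_inv (hf : ∀ x y, f (x * y) = f x + f y) (x : G) : f x⁻¹ = -f x := by
  have := hf x x⁻¹
  rw [mul_inv_cancel, hom_one hf] at this
  exact eq_neg_of_add_eq_zero_right this.symm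

theorem hom_pow (hf : ∀ x y, f (x * y) = f x + f y) (x : G) (n : ℕ) : f (x ^ n) = n * f x := by
  induction n with
  | zero => simp [hom_one hf]
  | succ n ih =>
    rw [pow_succ, hf, ih]
    push_cast
    ring

theorem hom_zpow (hf : ∀ x y, f (x * y) = f x + f y) (x : G) (n : ℤ) : f (x ^ n) = n * f x := by
  cases n with
  | ofNat n => simp [hom_pow hf]
  | negSucc n =>
    rw [zpow_negSucc, hom_inv hf, hom_pow hf]
    push_cast
    ring

theorem hom_conj (hf : ∀ x y, f (x * y) = f x + f y) (d x : G) : f (d * x * d⁻¹) = f x := by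
  rw [hf, hf, hom_inv hf]
  ring

end Hom

section Coc

variable {G R : Type*} [Group G] [Field R] [LinearOrder R] [IsStrictOrderedRing R]

theorem cone_coc {P : Set G} (hP : Cone P) {κ lam : G → R} (hl : ∀ d, 0 < lam d)
    (hk : ∀ d e, κ (d * e) = κ d + lam d * κ e) :
    Cone {g : G | 0 < κ g ∨ (κ g = 0 ∧ g ∈ P)} := by
  have h1 : κ 1 = 0 := by
    have := hk 1 1
    rw [mul_one] at this
    have h2 : lam 1 * κ 1 = 0 := by linarith
    rcases mul_eq_zero.1 h2 with h3 | h3
    · exact absurd h3 (hl 1).ne'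
    · exact h3
  have hinv : ∀ a, κ a + lam a * κ a⁻¹ = 0 := by
    intro a
    have := hk a a⁻¹
    rw [mul_inv_cancel, h1] at this
    exact this.symm
  refine ⟨?_, ?_, ?_, ?_⟩
  · rintro a ha b hb
    show 0 < κ (a * b) ∨ (κ (a * b) = 0 ∧ a * b ∈ P)
    rw [hk]
    rcases ha with ha | ⟨ha, ha'⟩ <;> rcases hb with hb | ⟨hb, hb'⟩
    · left
      have := mul_pos (hl a) hb
      linarith
    · left
      rw [hb]
      simpa using ha
    · left
      rw [ha]
      have := mul_pos (hl a) hb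
      linarith
    · right
      rw [ha, hb]
      exact ⟨by simp, hP.mul _ ha' _ hb'⟩
  · rintro (h | ⟨-, h⟩)
    · rw [h1] at h
      exact lt_irrefl _ h
    · exact hP.one h
  · intro a ha
    rcases lt_trichotomy (κ a) 0 with h | h | h
    · right
      left
      have h2 := hinv a
      have h3 : 0 < lam a * κ a⁻¹ := by linarith
      exact (pos_iff_pos_of_mul_pos h3).1 (hl a)
    · have h2 : κ a⁻¹ = 0 := by
        have h2 := hinv a
        rw [h, zero_add] at h2
        rcases mul_eq_zero.1 h2 with h3 | h3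
        · exact absurd h3 (hl a).ne'
        · exact h3
      rcases hP.tot a ha with h3 | h3
      · left
        exact Or.inr ⟨h, h3⟩
      · right
        exact Or.inr ⟨h2, h3⟩
    · left
      exact Or.inl h
  · rintro a ha hb
    have h2 := hinv a
    rcases ha with ha | ⟨ha, ha'⟩ <;> rcases hb with hb | ⟨hb, hb'⟩
    · have := mul_pos (hl a) hb
      linarith
    · rw [hb] at h2
      linarith
    · have := mul_pos (hl a) hb
      linarith
    · exact hP.asym a ha' hb'

end Coc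

section Rank

variable {G : Type*} [Group G]

theorem rank_one {P : Set G} (hP : Cone P) (F : Finset G) (hFP : ∀ f ∈ F, f ∈ P)
    (hF : ∀ Q : Set G, Cone Q → (∀ f ∈ F, f ∈ Q) → Q = P) {φ : G → ℝ}
    (hφ : ∀ x y, φ (x * y) = φ x + φ y) (hpos : ∀ g, 0 < φ g → g ∈ P) {b : G} (hb : 0 < φ b)
    (g : G) : ∃ q : ℚ, φ g = q * φ b := by
  classical
  by_contra hcon
  have hnot : φ g ∉ Submodule.span ℚ ({φ b} : Set ℝ) := by
    intro hmem
    rw [Submodule.mem_span_singleton] at hmem
    obtain ⟨q, hq⟩ := hmem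
    exact hcon ⟨q, by rw [← hq, Rat.smul_def]⟩
  obtain ⟨f, hf1, hf2⟩ := Submodule.exists_le_ker_of_notMem hnot
  have hfb : f (φ b) = 0 := by
    have := hf2 (Submodule.mem_span_singleton_self (φ b))
    simpa using this
  obtain ⟨δ, hδ, -, hδ2⟩ := exists_low (x0 := (0 : ℝ)) (F.filter (fun x => 0 < φ x))
    (fun x => φ x / (|(f (φ x) : ℝ)| + 1)) 1 one_pos
    (by
      intro x hx
      have := (Finset.mem_filter.1 hx).2
      positivity)
  have hδ3 : ∀ x ∈ F, 0 < φ x → δ * |(f (φ x) : ℝ)| < φ x := by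
    intro x hx hx'
    have h1 := hδ2 x (Finset.mem_filter.2 ⟨hx, hx'⟩)
    rw [le_div_iff₀ (by positivity)] at h1
    linarith
  have hneg : ∀ x ∈ P, 0 ≤ φ x := by
    intro x hx
    by_contra hlt
    rw [not_le] at hlt
    have h1 : x⁻¹ ∈ P := by
      apply hpos
      rw [hom_inv hφ]
      linarith
    exact hP.asym x hx h1
  have main : ∀ s : ℝ, |s| = 1 → ∀ x ∈ P, 0 ≤ φ x + s * δ * (f (φ x) : ℝ) := by
    intro s hs x hx
    have hκ : ∀ d e : G, (φ (d * e) + s * δ * (f (φ (d * e)) : ℝ)) =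
        (φ d + s * δ * (f (φ d) : ℝ)) + 1 * (φ e + s * δ * (f (φ e) : ℝ)) := by
      intro d e
      rw [hφ, map_add]
      push_cast
      ring
    have hC := cone_coc (R := ℝ) hP (κ := fun x => φ x + s * δ * (f (φ x) : ℝ))
      (lam := fun _ => 1) (fun _ => one_pos) hκ
    have hQ := hF _ hC (by
      intro y hy
      have hy0 := hneg y (hFP y hy)
      rcases lt_or_eq_of_le hy0 with h1 | h1
      · left
        have h2 := hδ3 y hy h1
        have h3 : |s * δ * (f (φ y) : ℝ)| = δ * |(f (φ y) : ℝ)| := by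
          rw [abs_mul, abs_mul, hs, one_mul, abs_of_pos hδ]
        have h4 := neg_abs_le (s * δ * (f (φ y) : ℝ))
        rw [h3] at h4
        show 0 < φ y + s * δ * (f (φ y) : ℝ)
        linarith
      · right
        refine ⟨?_, hFP y hy⟩
        show φ y + s * δ * (f (φ y) : ℝ) = 0
        rw [← h1]
        simp)
    rw [← hQ] at hx
    rcases hx with hx | hx
    · exact le_of_lt hx
    · exact hx.1.ge
  -- contradiction
  set t : ℝ := (f (φ g) : ℝ) with ht
  have ht0 : t ≠ 0 := by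
    rw [ht]
    exact_mod_cast hf1
  obtain ⟨s, hs1, hs2⟩ : ∃ s : ℝ, |s| = 1 ∧ s * t = -|t| := by
    rcases lt_or_gt_of_ne ht0 with h1 | h1
    · exact ⟨1, by simp, by rw [abs_of_neg h1]; ring⟩
    · exact ⟨-1, by simp, by rw [abs_of_pos h1]; ring⟩
  have ht1 : 0 < |t| := abs_pos.2 ht0
  obtain ⟨m, hm⟩ := exists_nat_gt (φ b / (δ * |t|))
  rw [div_lt_iff₀ (by positivity)] at hm
  have hm0 : m ≠ 0 := by
    rintro rfl
    simp only [Nat.cast_zero, zero_mul] at hm
    linarith
  set n : ℤ := ⌊(m : ℝ) * φ g / φ b⌋ with hn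
  have hn1 : (n : ℝ) * φ b ≤ m * φ g := by
    have := Int.floor_le ((m : ℝ) * φ g / φ b)
    rw [← hn, le_div_iff₀ hb] at this
    exact this
  have hn2 : (m : ℝ) * φ g < (n + 1) * φ b := by
    have := Int.lt_floor_add_one ((m : ℝ) * φ g / φ b)
    rw [← hn, div_lt_iff₀ hb] at this
    exact this
  set x : G := g ^ m * b ^ (-n) with hx
  have hφx : φ x = (m : ℝ) * φ g - n * φ b := by
    rw [hx, hφ, hom_pow hφ, hom_zpow hφ]
    push_cast
    ring
  have hfx : f (φ x) = m * f (φ g) := by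
    have : φ x = (m : ℚ) • φ g - (n : ℚ) • φ b := by
      rw [hφx, Rat.smul_def, Rat.smul_def]
      push_cast
      ring
    rw [this, map_sub, map_smul, map_smul, hfb]
    simp
  have hfx0 : f (φ x) ≠ 0 := by
    rw [hfx]
    exact mul_ne_zero (by exact_mod_cast hm0) hf1
  have hxpos : 0 < φ x := by
    rcases lt_or_eq_of_le (show 0 ≤ φ x by rw [hφx]; linarith) with h1 | h1
    · exact h1
    · exfalso
      apply hfx0
      rw [← h1, map_zero]
  have h5 := main s hs1 x (hpos x hxpos)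
  have h6 : s * δ * ((f (φ x) : ℚ) : ℝ) = -(m * (δ * |t|)) := by
    rw [hfx]
    push_cast
    rw [← ht]
    calc s * δ * (m * t) = (s * t) * (m * δ) := by ring
      _ = -(m * (δ * |t|)) := by rw [hs2]; ring
  rw [h6] at h5
  have h7 : φ x < φ b := by
    rw [hφx]
    linarith
  linarith

theorem rat_hom {P : Set G} (hP : Cone P) (F : Finset G) (hFP : ∀ f ∈ F, f ∈ P)
    (hF : ∀ Q : Set G, Cone Q → (∀ f ∈ F, f ∈ Q) → Q = P) {φ : G → ℝ}
    (hφ : ∀ x y, φ (x * y) = φ x + φ y) (hpos : ∀ g, 0 < φ g → g ∈ P) {b : G} (hb : 0 < φ b) :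
    ∃ θ : G → ℚ, (∀ x y, θ (x * y) = θ x + θ y) ∧ ∀ g, φ g = θ g * φ b := by
  choose θ hθ using rank_one hP F hFP hF hφ hpos hb
  refine ⟨θ, ?_, hθ⟩
  intro x y
  have h1 := hθ (x * y)
  rw [hφ, hθ x, hθ y, ← add_mul] at h1
  have h2 := mul_right_cancel₀ hb.ne' h1
  exact_mod_cast h2.symm

end Rank

end Pool.Agent.H228_Iso
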