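import Mathlib
import Pool.Agent.H228_Iso.Rank

set_option autoImplicit false

namespace Pool.Agent.H228_Iso

section Flip

variable {G : Type*} [Group G] {φ Th lam : G → ℚ}

theorem th_one (hφ : ∀ x y, φ (x * y) = φ x + φ y)
    (hTh : ∀ g h, φ g = 0 → φ h = 0 → Th (g * h) = Th g + Th h) : Th 1 = 0 := by
  have := hTh 1 1 (hom_one hφ) (hom_one hφ)
  rw [mul_one] at this
  linarith

theorem th_inv (hφ : ∀ x y, φ (x * y) = φ x + φ y)
    (hTh : ∀ g h, φ g = 0 → φ h = 0 → Th (g * h) = Th g + Th h) {g : G} (hg : φ g = 0) :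
    Th g⁻¹ = -Th g := by
  have := hTh g g⁻¹ hg (by rw [hom_inv hφ, hg, neg_zero])
  rw [mul_inv_cancel, th_one hφ hTh] at this
  linarith

theorem th_pow (hφ : ∀ x y, φ (x * y) = φ x + φ y)
    (hTh : ∀ g h, φ g = 0 → φ h = 0 → Th (g * h) = Th g + Th h) {g : G} (hg : φ g = 0) (n : ℕ) :
    Th (g ^ n) = n * Th g := by
  induction n with
  | zero => simp [th_one hφ hTh]
  | succ n ih =>
    rw [pow_succ, hTh _ _ (by rw [hom_pow hφ, hg, mul_zero]) hg, ih]
    push_cast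
    ring

/-- Commensurability of positive rationals. -/
theorem commens {r s : ℚ} (hr : 0 < r) (hs : 0 < s) :
    ∃ p q : ℕ, 0 < p ∧ 0 < q ∧ (p : ℚ) * r = q * s := by
  refine ⟨(r / s).den, (r / s).num.natAbs, (r / s).den_pos, ?_, ?_⟩
  · have h1 : 0 < r / s := div_pos hr hs
    have h2 : 0 < (r / s).num := Rat.num_pos.2 h1
    omega
  · have h1 : 0 < r / s := div_pos hr hs
    have h2 : 0 < (r / s).num := Rat.num_pos.2 h1
    have h3 : (((r / s).num.natAbs : ℕ) : ℚ) = ((r / s).num : ℚ) := by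
      rw [← Int.cast_natCast, Int.natAbs_of_nonneg h2.le]
    rw [h3]
    have h4 : ((r / s).den : ℚ) * (r / s) = (r / s).num := Rat.den_mul_eq_num (r / s)
    rw [← h4]
    field_simp

theorem coc_false {P : Set G} (hP : Cone P) (F : Finset G) (hFP : ∀ f ∈ F, f ∈ P)
    (hF : ∀ Q : Set G, Cone Q → (∀ f ∈ F, f ∈ Q) → Q = P)
    (hφ : ∀ x y, φ (x * y) = φ x + φ y) (hφpos : ∀ g, 0 < φ g → g ∈ P)
    (hTh : ∀ g h, φ g = 0 → φ h = 0 → Th (g * h) = Th g + Th h)
    (hThpos : ∀ g, φ g = 0 → 0 < Th g → g ∈ P)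
    (hlam : ∀ d, 0 < lam d) {b0 c0 : G} (hb0 : 0 < φ b0) (hc0 : φ c0 = 0) (hc0' : 0 < Th c0)
    {β μ : G → ℚ} (hβ : ∀ d e, β (d * e) = β d + lam d * β e)
    (hμ : ∀ d e, μ (d * e) = μ d + lam d * μ e) (hβC : ∀ g, φ g = 0 → β g = Th g)
    (hμC : ∀ g, φ g = 0 → μ g = 0) (hμpos : ∀ g, 0 < φ g → 0 < μ g) : False := by
  classical
  obtain ⟨δ, hδ, -, hδ2⟩ := exists_low (x0 := (0 : ℚ)) (F.filter (fun x => 0 < φ x))
    (fun x => μ x / (|β x| + 1)) 1 one_pos
    (by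
      intro x hx
      have := hμpos x (Finset.mem_filter.1 hx).2
      positivity)
  have hδ3 : ∀ x ∈ F, 0 < φ x → 0 < μ x + δ * β x := by
    intro x hx hx'
    have h1 := hδ2 x (Finset.mem_filter.2 ⟨hx, hx'⟩)
    rw [le_div_iff₀ (by positivity)] at h1
    have h2 : -(δ * |β x|) ≤ δ * β x := by
      rw [← mul_neg]
      exact mul_le_mul_of_nonneg_left (neg_abs_le _) hδ.le
    linarith
  have hC := cone_coc (R := ℚ) hP (κ := fun x => μ x + δ * β x) (lam := lam) hlam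
    (by
      intro d e
      show μ (d * e) + δ * β (d * e) = _
      rw [hμ, hβ]
      ring)
  have hQ := hF _ hC (by
    intro y hy
    have hy' := hFP y hy
    have hy0 : 0 ≤ φ y := by
      by_contra hlt
      rw [not_le] at hlt
      have h1 : y⁻¹ ∈ P := by
        apply hφpos
        rw [hom_inv hφ]
        linarith
      exact hP.asym y hy' h1
    rcases lt_or_eq_of_le hy0 with h1 | h1
    · left
      exact hδ3 y hy h1
    · have h1' := h1.symm
      have h2 : 0 ≤ Th y := by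
        by_contra hlt
        rw [not_le] at hlt
        have h1 : y⁻¹ ∈ P := by
          apply hThpos
          · rw [hom_inv hφ, h1', neg_zero]
          · rw [th_inv hφ hTh h1']
            linarith
        exact hP.asym y hy' h1
      have h3 : μ y + δ * β y = δ * Th y := by rw [hμC y h1', hβC y h1', zero_add]
      rcases lt_or_eq_of_le h2 with h4 | h4
      · left
        show 0 < μ y + δ * β y
        rw [h3]
        exact mul_pos hδ h4
      · right
        refine ⟨?_, hy'⟩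
        show μ y + δ * β y = 0
        rw [h3, ← h4, mul_zero])
  -- contradiction
  have hpos : 0 < lam b0 * δ * Th c0 := mul_pos (mul_pos (hlam b0) hδ) hc0'
  obtain ⟨n, hn⟩ := exists_nat_gt ((μ b0 + δ * β b0) / (lam b0 * δ * Th c0))
  rw [div_lt_iff₀ hpos] at hn
  have hcn : φ (c0 ^ n) = 0 := by rw [hom_pow hφ, hc0, mul_zero]
  have hcn' : φ (c0 ^ n)⁻¹ = 0 := by rw [hom_inv hφ, hcn, neg_zero]
  have h1 : b0 * (c0 ^ n)⁻¹ ∈ P := by
    apply hφpos
    rw [hφ, hcn', add_zero]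
    exact hb0
  rw [← hQ] at h1
  have h2 : μ (b0 * (c0 ^ n)⁻¹) + δ * β (b0 * (c0 ^ n)⁻¹) < 0 := by
    rw [hμ, hβ, hμC _ hcn', hβC _ hcn', th_inv hφ hTh hcn, th_pow hφ hTh hc0]
    linarith
  rcases h1 with h1 | h1
  · exact lt_asymm h1 h2
  · exact h2.ne h1.1

theorem case1 {P : Set G} (hP : Cone P) (F : Finset G) (hFP : ∀ f ∈ F, f ∈ P)
    (hF : ∀ Q : Set G, Cone Q → (∀ f ∈ F, f ∈ Q) → Q = P)
    (hφ : ∀ x y, φ (x * y) = φ x + φ y) (hφpos : ∀ g, 0 < φ g → g ∈ P)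
    (hTh : ∀ g h, φ g = 0 → φ h = 0 → Th (g * h) = Th g + Th h)
    (hconj : ∀ d g, φ g = 0 → Th (d * g * d⁻¹) = lam d * Th g)
    (hThpos : ∀ g, φ g = 0 → 0 < Th g → g ∈ P)
    (hlam : ∀ d, 0 < lam d) {c0 : G} (hc0 : φ c0 = 0) (hc0' : 0 < Th c0)
    {e0 : G} (he0 : 0 < φ e0) (hle0 : lam e0 ≠ 1) : False := by
  have hcj : ∀ d g, φ g = 0 → φ (d * g * d⁻¹) = 0 := fun d g hg => by rw [hom_conj hφ, hg]
  have hlm : ∀ d e, lam (d * e) = lam d * lam e := by
    intro d e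
    have h1 := hconj (d * e) c0 hc0
    have h2 : d * e * c0 * (d * e)⁻¹ = d * (e * c0 * e⁻¹) * d⁻¹ := by group
    rw [h2, hconj _ _ (hcj _ _ hc0), hconj _ _ hc0, ← mul_assoc] at h1
    exact (mul_right_cancel₀ hc0'.ne' h1).symm
  have hlC : ∀ g, φ g = 0 → lam g = 1 := by
    intro g hg
    have h1 := hconj g c0 hc0
    rw [hTh _ _ (by rw [hφ, hg, hc0, add_zero]) (by rw [hom_inv hφ, hg, neg_zero]),
      hTh _ _ hg hc0, th_inv hφ hTh hg] at h1
    have h2 : lam g * Th c0 = 1 * Th c0 := by linarith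
    exact mul_right_cancel₀ hc0'.ne' h2
  have hlp : ∀ d (n : ℕ), lam (d ^ n) = lam d ^ n := by
    intro d n
    induction n with
    | zero => simp [hlC 1 (hom_one hφ)]
    | succ n ih => rw [pow_succ, hlm, ih, pow_succ]
  have hsgn : ∀ d, 0 < φ d → ∃ p q : ℕ, 0 < p ∧ 0 < q ∧ lam d ^ p = lam e0 ^ q := by
    intro d hd
    obtain ⟨p, q, hp, hq, hpq⟩ := commens hd he0
    refine ⟨p, q, hp, hq, ?_⟩
    rw [← hlp, ← hlp]
    have h1 : φ (d ^ p * (e0 ^ q)⁻¹) = 0 := by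
      rw [hφ, hom_inv hφ, hom_pow hφ, hom_pow hφ, hpq]
      ring
    have h2 : d ^ p = d ^ p * (e0 ^ q)⁻¹ * e0 ^ q := by group
    rw [h2, hlm, hlC _ h1, one_mul]
  obtain ⟨s, hs⟩ : ∃ s : ℚ, ∀ d, 0 < φ d → 0 < s * (lam d - 1) := by
    rcases lt_or_gt_of_ne hle0 with h1 | h1
    · refine ⟨-1, ?_⟩
      intro d hd
      obtain ⟨p, q, hp, hq, hpq⟩ := hsgn d hd
      have h2 : lam e0 ^ q < 1 := pow_lt_one₀ (hlam e0).le h1 (by omega)
      have h3 : lam d < 1 := by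
        by_contra hcon
        rw [not_lt] at hcon
        have := one_le_pow₀ hcon (n := p)
        rw [hpq] at this
        linarith
      linarith
    · refine ⟨1, ?_⟩
      intro d hd
      obtain ⟨p, q, hp, hq, hpq⟩ := hsgn d hd
      have h2 : 1 < lam e0 ^ q := one_lt_pow₀ h1 (by omega)
      have h3 : 1 < lam d := by
        by_contra hcon
        rw [not_lt] at hcon
        have := pow_le_one₀ (n := p) (hlam d).le hcon
        rw [hpq] at this
        linarith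
      linarith
  have hne : lam e0 - 1 ≠ 0 := sub_ne_zero.2 hle0
  have hcomm : ∀ d, φ (e0 * d * e0⁻¹ * d⁻¹) = 0 := by
    intro d
    rw [hφ, hom_conj hφ, hom_inv hφ]
    ring
  refine coc_false hP F hFP hF hφ hφpos hTh hThpos hlam he0 hc0 hc0'
    (β := fun d => Th (e0 * d * e0⁻¹ * d⁻¹) / (lam e0 - 1)) (μ := fun d => s * (lam d - 1))
    ?_ ?_ ?_ ?_ hs
  · intro d e
    have h1 : e0 * (d * e) * e0⁻¹ * (d * e)⁻¹ =
      (e0 * d * e0⁻¹ * d⁻¹) * (d * (e0 * e * e0⁻¹ * e⁻¹) * d⁻¹) := by group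
    show Th (e0 * (d * e) * e0⁻¹ * (d * e)⁻¹) / (lam e0 - 1) = _
    rw [h1, hTh _ _ (hcomm d) (hcj _ _ (hcomm e)), hconj _ _ (hcomm e)]
    ring
  · intro d e
    show s * (lam (d * e) - 1) = _
    rw [hlm]
    ring
  · intro g hg
    show Th (e0 * g * e0⁻¹ * g⁻¹) / (lam e0 - 1) = Th g
    rw [hTh _ _ (hcj _ _ hg) (by rw [hom_inv hφ, hg, neg_zero]), hconj _ _ hg,
      th_inv hφ hTh hg]
    field_simp
    ring
  · intro g hg
    show s * (lam g - 1) = 0
    rw [hlC g hg]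
    ring

theorem case2 {P : Set G} (hP : Cone P) (F : Finset G) (hFP : ∀ f ∈ F, f ∈ P)
    (hF : ∀ Q : Set G, Cone Q → (∀ f ∈ F, f ∈ Q) → Q = P)
    (hφ : ∀ x y, φ (x * y) = φ x + φ y) (hφpos : ∀ g, 0 < φ g → g ∈ P)
    (hTh : ∀ g h, φ g = 0 → φ h = 0 → Th (g * h) = Th g + Th h)
    (hconj : ∀ d g, φ g = 0 → Th (d * g * d⁻¹) = Th g)
    (hThpos : ∀ g, φ g = 0 → 0 < Th g → g ∈ P)
    {b0 c0 : G} (hb0 : 0 < φ b0) (hc0 : φ c0 = 0) (hc0' : 0 < Th c0) : False := by
  have hcj : ∀ d g, φ g = 0 → φ (d * g * d⁻¹) = 0 := fun d g hg => by rw [hom_conj hφ, hg]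
  have hcomm : ∀ d e, φ (d * e * d⁻¹ * e⁻¹) = 0 := by
    intro d e
    rw [hφ, hom_conj hφ, hom_inv hφ]
    ring
  -- commutators vanish
  have hω : ∀ d e, Th (d * e * d⁻¹ * e⁻¹) = 0 := by
    intro d e
    by_cases he : φ e = 0
    · rw [hTh _ _ (hcj _ _ he) (by rw [hom_inv hφ, he, neg_zero]), hconj _ _ he,
        th_inv hφ hTh he]
      ring
    · have hlin : ∀ x y, Th ((x * y) * e * (x * y)⁻¹ * e⁻¹) =
          Th (x * e * x⁻¹ * e⁻¹) + Th (y * e * y⁻¹ * e⁻¹) := by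
        intro x y
        have h1 : (x * y) * e * (x * y)⁻¹ * e⁻¹ =
          (x * (y * e * y⁻¹ * e⁻¹) * x⁻¹) * (x * e * x⁻¹ * e⁻¹) := by group
        rw [h1, hTh _ _ (hcj _ _ (hcomm _ _)) (hcomm _ _), hconj _ _ (hcomm _ _)]
        ring
      have hee : Th (e * e * e⁻¹ * e⁻¹) = 0 := by
        have : e * e * e⁻¹ * e⁻¹ = 1 := by group
        rw [this, th_one hφ hTh]
      -- pick integers
      set r : ℚ := φ d / φ e with hr
      have hr' : (r.den : ℚ) * φ d = r.num * φ e := by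
        have h4 : (r.den : ℚ) * r = r.num := Rat.den_mul_eq_num r
        rw [← h4, hr]
        field_simp
      have h0 : φ (d ^ r.den * e ^ (-r.num)) = 0 := by
        rw [hφ, hom_pow hφ, hom_zpow hφ, hr']
        push_cast
        ring
      have h1 := hlin (d ^ r.den) (e ^ (-r.num))
      have h2 : Th (d ^ r.den * e ^ (-r.num) * e * (d ^ r.den * e ^ (-r.num))⁻¹ * e⁻¹) = 0 := by
        set c : G := d ^ r.den * e ^ (-r.num) with hc
        have h3 : c * e * c⁻¹ * e⁻¹ = c * (e * c⁻¹ * e⁻¹) := by group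
        have hcinv : φ c⁻¹ = 0 := by rw [hom_inv hφ, h0, neg_zero]
        rw [h3, hTh _ _ h0 (hcj _ _ hcinv), hconj _ _ hcinv, th_inv hφ hTh h0]
        ring
      have h3 : Th (d ^ r.den * e * (d ^ r.den)⁻¹ * e⁻¹) = r.den * Th (d * e * d⁻¹ * e⁻¹) :=
        hom_pow (f := fun x => Th (x * e * x⁻¹ * e⁻¹)) hlin d r.den
      have h4 : Th (e ^ (-r.num) * e * (e ^ (-r.num))⁻¹ * e⁻¹) =
          ((-r.num : ℤ) : ℚ) * Th (e * e * e⁻¹ * e⁻¹) :=
        hom_zpow (f := fun x => Th (x * e * x⁻¹ * e⁻¹)) hlin e (-r.num)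
      rw [h2, h3, h4, hee, mul_zero, add_zero] at h1
      have h5 : (r.den : ℚ) ≠ 0 := by exact_mod_cast r.den_nz
      rcases mul_eq_zero.1 h1.symm with h6 | h6
      · exact absurd h6 h5
      · exact h6
  -- the kernel
  let K0 : Subgroup G :=
    { carrier := {g | φ g = 0 ∧ Th g = 0}
      mul_mem' := by
        rintro g h ⟨hg1, hg2⟩ ⟨hh1, hh2⟩
        refine ⟨by rw [hφ, hg1, hh1, add_zero], ?_⟩
        rw [hTh _ _ hg1 hh1, hg2, hh2, add_zero]
      one_mem' := ⟨hom_one hφ, th_one hφ hTh⟩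
      inv_mem' := by
        rintro g ⟨hg1, hg2⟩
        refine ⟨by rw [hom_inv hφ, hg1, neg_zero], ?_⟩
        rw [th_inv hφ hTh hg1, hg2, neg_zero] }
  have hK0 : commutator G ≤ K0 := by
    rw [commutator_def, Subgroup.commutator_le]
    intro x _ y _
    rw [commutatorElement_def]
    exact ⟨hcomm x y, hω x y⟩
  have htr : ∀ g h : G, φ g = 0 → Abelianization.of g = Abelianization.of h →
      Th g = Th h := by
    intro g h hg hgh
    have h1 : g⁻¹ * h ∈ commutator G := by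
      rw [← Abelianization.ker_of, MonoidHom.mem_ker, map_mul, map_inv, ← hgh, inv_mul_cancel]
    have h2 : φ (g⁻¹ * h) = 0 ∧ Th (g⁻¹ * h) = 0 := hK0 h1
    have h3 : h = g * (g⁻¹ * h) := by group
    rw [h3, hTh _ _ hg h2.1, h2.2, add_zero]
  -- the extension
  set T : G → ℚ := fun d => Th (d ^ (φ d / φ b0).den * b0 ^ (-(φ d / φ b0).num)) /
    ((φ d / φ b0).den : ℚ) with hT
  have hden : ∀ d, ((φ d / φ b0).den : ℚ) ≠ 0 := fun d => by
    exact_mod_cast (φ d / φ b0).den_nz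
  have hdn : ∀ d, ((φ d / φ b0).den : ℚ) * φ d = (φ d / φ b0).num * φ b0 := by
    intro d
    have h4 : ((φ d / φ b0).den : ℚ) * (φ d / φ b0) = (φ d / φ b0).num :=
      Rat.den_mul_eq_num (φ d / φ b0)
    rw [← h4]
    field_simp
  have hker : ∀ (d : G) (p : ℕ) (q : ℤ), (p : ℚ) * φ d = q * φ b0 →
      φ (d ^ p * b0 ^ (-q)) = 0 := by
    intro d p q h
    rw [hφ, hom_pow hφ, hom_zpow hφ, h]
    push_cast
    ring
  have hscale : ∀ (d : G) (p : ℕ) (q : ℤ) (j : ℕ), (p : ℚ) * φ d = q * φ b0 →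
      (j : ℚ) * Th (d ^ p * b0 ^ (-q)) = Th (d ^ (p * j) * b0 ^ (-(q * j))) := by
    intro d p q j h
    rw [← th_pow hφ hTh (hker d p q h)]
    apply htr
    · rw [hom_pow hφ, hker d p q h, mul_zero]
    · rw [map_pow, map_mul, map_mul, mul_pow, map_pow, map_zpow, map_pow, map_zpow, pow_mul,
        ← zpow_natCast (Abelianization.of b0 ^ (-q)), ← zpow_mul]
      congr 2
      ring
  have hTval : ∀ (d : G) (p : ℕ) (q : ℤ), (p : ℚ) * φ d = q * φ b0 →
      Th (d ^ p * b0 ^ (-q)) = p * T d := by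
    intro d p q h
    set p' := (φ d / φ b0).den with hp'
    set q' := (φ d / φ b0).num with hq'
    have h1 := hscale d p q p' h
    have h2 := hscale d p' q' p (hdn d)
    have h3 : q * p' = q' * p := by
      have e1 : ((q * p' : ℤ) : ℚ) * φ b0 = ((q' * p : ℤ) : ℚ) * φ b0 := by
        push_cast
        calc (q : ℚ) * p' * φ b0 = p' * (q * φ b0) := by ring
          _ = p' * (p * φ d) := by rw [h]
          _ = p * (p' * φ d) := by ring
          _ = p * (q' * φ b0) := by rw [hdn d]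
          _ = q' * p * φ b0 := by ring
      have e2 := mul_right_cancel₀ hb0.ne' e1
      exact_mod_cast e2
    rw [h3, mul_comm p p'] at h1
    rw [← h2] at h1
    have h4 : T d = Th (d ^ p' * b0 ^ (-q')) / (p' : ℚ) := rfl
    rw [h4]
    have h5 := hden d
    rw [← hp'] at h5
    field_simp
    linarith
  have hTadd : ∀ d e, T (d * e) = T d + 1 * T e := by
    intro d e
    set p : ℕ := (φ d / φ b0).den * (φ e / φ b0).den with hp
    set q : ℤ := (φ d / φ b0).num * (φ e / φ b0).den with hq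
    set q' : ℤ := (φ e / φ b0).num * (φ d / φ b0).den with hq'
    have hp0 : (p : ℚ) ≠ 0 := by
      rw [hp]
      push_cast
      exact mul_ne_zero (hden d) (hden e)
    have h1 : (p : ℚ) * φ d = q * φ b0 := by
      rw [hp, hq]
      push_cast
      calc ((φ d / φ b0).den : ℚ) * (φ e / φ b0).den * φ d =
          (φ e / φ b0).den * ((φ d / φ b0).den * φ d) := by ring
        _ = _ := by rw [hdn d]; ring
    have h2 : (p : ℚ) * φ e = q' * φ b0 := by
      rw [hp, hq']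
      push_cast
      calc ((φ d / φ b0).den : ℚ) * (φ e / φ b0).den * φ e =
          (φ d / φ b0).den * ((φ e / φ b0).den * φ e) := by ring
        _ = _ := by rw [hdn e]; ring
    have h3 : (p : ℚ) * φ (d * e) = ((q + q' : ℤ) : ℚ) * φ b0 := by
      rw [hφ, mul_add, h1, h2]
      push_cast
      ring
    have h4 := hTval _ _ _ h3
    have h5 : Th ((d * e) ^ p * b0 ^ (-(q + q'))) =
        Th ((d ^ p * b0 ^ (-q)) * (e ^ p * b0 ^ (-q'))) := by
      apply htr
      · exact hker _ _ _ h3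
      · rw [map_mul, map_pow, map_mul, map_mul, map_mul, map_mul, mul_pow, map_zpow, map_zpow,
          map_zpow, map_pow, map_pow, neg_add, zpow_add]
        exact mul_mul_mul_comm _ _ _ _
    rw [h5, hTh _ _ (hker _ _ _ h1) (hker _ _ _ h2), hTval _ _ _ h1, hTval _ _ _ h2] at h4
    have h6 : (p : ℚ) * T (d * e) = p * (T d + 1 * T e) := by linarith
    exact mul_left_cancel₀ hp0 h6
  refine coc_false (lam := fun _ => 1) hP F hFP hF hφ hφpos hTh hThpos (fun _ => one_pos)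
    hb0 hc0 hc0' (β := T) (μ := φ) hTadd ?_ ?_ (fun g hg => hg) (fun g hg => hg)
  · intro d e
    rw [hφ]
    ring
  · intro g hg
    have := hTval g 1 0 (by rw [hg]; simp)
    simp only [pow_one, neg_zero, zpow_zero, mul_one, Nat.cast_one, one_mul] at this
    exact this.symm

theorem noflip {P : Set G} (hP : Cone P) (F : Finset G) (hFP : ∀ f ∈ F, f ∈ P)
    (hF : ∀ Q : Set G, Cone Q → (∀ f ∈ F, f ∈ Q) → Q = P)
    (hφ : ∀ x y, φ (x * y) = φ x + φ y) (hφpos : ∀ g, 0 < φ g → g ∈ P)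
    (hTh : ∀ g h, φ g = 0 → φ h = 0 → Th (g * h) = Th g + Th h)
    (hconj : ∀ d g, φ g = 0 → Th (d * g * d⁻¹) = lam d * Th g)
    (hThpos : ∀ g, φ g = 0 → 0 < Th g → g ∈ P)
    (hlam : ∀ d, 0 < lam d) {b0 c0 : G} (hb0 : 0 < φ b0) (hc0 : φ c0 = 0) (hc0' : 0 < Th c0) :
    False := by
  by_cases h : ∀ d, 0 < φ d → lam d = 1
  · have hcj : ∀ d g, φ g = 0 → φ (d * g * d⁻¹) = 0 := fun d g hg => by rw [hom_conj hφ, hg]
    refine case2 hP F hFP hF hφ hφpos hTh ?_ hThpos hb0 hc0 hc0'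
    intro d g hg
    rcases lt_trichotomy (φ d) 0 with h1 | h1 | h1
    · have h2 := h d⁻¹ (by rw [hom_inv hφ]; linarith)
      have h3 := hconj d⁻¹ (d * g * d⁻¹) (hcj d g hg)
      have h4 : d⁻¹ * (d * g * d⁻¹) * d⁻¹⁻¹ = g := by group
      rw [h4, h2, one_mul] at h3
      exact h3.symm
    · rw [hTh _ _ (by rw [hφ, h1, hg, add_zero]) (by rw [hom_inv hφ, h1, neg_zero]),
        hTh _ _ h1 hg, th_inv hφ hTh h1]
      ring
    · rw [hconj d g hg, h d h1, one_mul]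
  · push Not at h
    obtain ⟨e0, he0, hle0⟩ := h
    exact case1 hP F hFP hF hφ hφpos hTh hconj hThpos hlam hc0 hc0' he0 hle0

end Flip

end Pool.Agent.H228_Iso
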