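import Mathlib
import Pool.Agent.H228_Iso.Mesh

set_option autoImplicit false

namespace Pool.Agent.H228_Iso

universe u

section Nfs

variable {Q : Type*} [Group Q]

theorem words {a b : Q} (u v : List Bool) (huv : u ≠ v)
    (h : (u.map (fun i : Bool => if i then a else b)).prod =
      (v.map (fun i : Bool => if i then a else b)).prod) :
    ∃ s ∈ Submonoid.closure ({a, b} : Set Q), ∃ t ∈ Submonoid.closure ({a, b} : Set Q),
      a * s = b * t := by
  have ha : a ∈ Submonoid.closure ({a, b} : Set Q) := Submonoid.subset_closure (by simp)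
  have hb : b ∈ Submonoid.closure ({a, b} : Set Q) := Submonoid.subset_closure (by simp)
  have hmem : ∀ w : List Bool, (w.map (fun i : Bool => if i then a else b)).prod ∈
      Submonoid.closure ({a, b} : Set Q) := by
    intro w
    apply Submonoid.list_prod_mem
    intro x hx
    rw [List.mem_map] at hx
    obtain ⟨i, -, rfl⟩ := hx
    cases i
    · exact hb
    · exact ha
  have hnil : ∀ (w : List Bool), w ≠ [] →
      (w.map (fun i : Bool => if i then a else b)).prod = 1 →
      ∃ s ∈ Submonoid.closure ({a, b} : Set Q), ∃ t ∈ Submonoid.closure ({a, b} : Set Q),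
      a * s = b * t := by
    intro w hw h1
    cases w with
    | nil => exact absurd rfl hw
    | cons i w =>
      rw [List.map_cons, List.prod_cons] at h1
      cases i
      · refine ⟨1, one_mem _, _, mul_mem (hmem w) ha, ?_⟩
        have h1' : b * (w.map (fun i : Bool => if i then a else b)).prod = 1 := h1
        rw [← mul_assoc, h1', mul_one, one_mul]
      · refine ⟨_, mul_mem (hmem w) hb, 1, one_mem _, ?_⟩
        have h1' : a * (w.map (fun i : Bool => if i then a else b)).prod = 1 := h1
        rw [← mul_assoc, h1', mul_one, one_mul]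
  induction u generalizing v with
  | nil =>
    apply hnil v (Ne.symm huv)
    rw [← h]
    simp
  | cons i u ih =>
    cases v with
    | nil =>
      apply hnil (i :: u) huv
      rw [h]
      simp
    | cons j v =>
      rw [List.map_cons, List.map_cons, List.prod_cons, List.prod_cons] at h
      cases i <;> cases j
      · apply ih v (fun e => huv (by rw [e]))
        exact mul_left_cancel h
      · exact ⟨_, hmem v, _, hmem u, h.symm⟩
      · exact ⟨_, hmem u, _, hmem v, h⟩
      · apply ih v (fun e => huv (by rw [e]))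
        exact mul_left_cancel h

/-- No free subsemigroup on the pair `a`, `b` gives a positive relation with different first
letters. -/
theorem nfs_rel {a b : Q}
    (h : ¬ Function.Injective (FreeMonoid.lift (fun i : Bool => if i then a else b))) :
    ∃ s ∈ Submonoid.closure ({a, b} : Set Q), ∃ t ∈ Submonoid.closure ({a, b} : Set Q),
      a * s = b * t := by
  rw [Function.Injective] at h
  push Not at h
  obtain ⟨u, v, h1, h2⟩ := h
  rw [FreeMonoid.lift_apply, FreeMonoid.lift_apply] at h1
  apply words u.toList v.toList _ h1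
  intro e
  exact h2 (FreeMonoid.toList.injective e)

theorem closure_lift {X Y : Type*} [Group X] [Group Y] (π : X →* Y) {f g f' g' : X}
    (hf : π f = π f') (hg : π g = π g') {s : X} (hs : s ∈ Submonoid.closure ({f, g} : Set X)) :
    ∃ s' ∈ Submonoid.closure ({f', g'} : Set X), π s = π s' := by
  induction hs using Submonoid.closure_induction with
  | mem x hx =>
    rcases hx with rfl | rfl
    · exact ⟨f', Submonoid.subset_closure (by simp), hf⟩
    · exact ⟨g', Submonoid.subset_closure (by simp), hg⟩
  | one => exact ⟨1, one_mem _, rfl⟩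
  | mul x y hx hy ihx ihy =>
    obtain ⟨x', hx', hxx⟩ := ihx
    obtain ⟨y', hy', hyy⟩ := ihy
    exact ⟨x' * y', mul_mem hx' hy', by rw [map_mul, map_mul, hxx, hyy]⟩

theorem closure_pre {X Y : Type*} [Group X] [Group Y] (π : X →* Y) {f g : X} {s : Y}
    (hs : s ∈ Submonoid.closure ({π f, π g} : Set Y)) :
    ∃ s' ∈ Submonoid.closure ({f, g} : Set X), π s' = s := by
  induction hs using Submonoid.closure_induction with
  | mem x hx =>
    rcases hx with rfl | rfl
    · exact ⟨f, Submonoid.subset_closure (by simp), rfl⟩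
    · exact ⟨g, Submonoid.subset_closure (by simp), rfl⟩
  | one => exact ⟨1, one_mem _, map_one π⟩
  | mul x y hx hy ihx ihy =>
    obtain ⟨x', hx', hxx⟩ := ihx
    obtain ⟨y', hy', hyy⟩ := ihy
    exact ⟨x' * y', mul_mem hx' hy', by rw [map_mul, hxx, hyy]⟩

end Nfs

section Inherit

/-- The hypothesis passes to groups that embed. -/
theorem Hyp.of_inj {W G : Type*} [Group W] [Group G] (hG : Hyp G) (φ : W →* G)
    (hφ : Function.Injective φ) : Hyp W := by
  intro K' hK' hK't
  obtain ⟨M0, -, hM0⟩ := zorn_le_nonempty₀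
    {M : Subgroup G | M.Normal ∧ ∀ x : W, φ x ∈ M → x ∈ K'}
    (by
      intro c hc hchain y hy
      have hdir : DirectedOn (· ≤ ·) c := hchain.directedOn
      refine ⟨sSup c, ⟨?_, ?_⟩, fun z hz => le_sSup hz⟩
      · constructor
        intro n hn g
        rw [Subgroup.mem_sSup_of_directedOn ⟨y, hy⟩ hdir] at hn ⊢
        obtain ⟨M, hM, hnM⟩ := hn
        exact ⟨M, hM, (hc hM).1.conj_mem n hnM g⟩
      · intro x hx
        rw [Subgroup.mem_sSup_of_directedOn ⟨y, hy⟩ hdir] at hx
        obtain ⟨M, hM, hnM⟩ := hx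
        exact (hc hM).2 x hnM)
    ⊥ ⟨inferInstance, by
      intro x hx
      rw [Subgroup.mem_bot] at hx
      have : x = 1 := hφ (by rw [hx, map_one])
      rw [this]
      exact K'.one_mem⟩
  have hM0n : M0.Normal := hM0.prop.1
  have hM0K : ∀ x : W, φ x ∈ M0 → x ∈ K' := hM0.prop.2
  have hM0t : M0 ≠ ⊤ := by
    intro h
    apply hK't
    rw [eq_top_iff]
    intro x _
    apply hM0K x
    rw [h]
    exact Subgroup.mem_top _
  obtain ⟨M1, hM1n, hM01, hM1⟩ := hG M0 hM0n hM0t
  have hx : ∃ x : W, φ x ∈ M1 ∧ x ∉ K' := by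
    by_contra hcon
    push Not at hcon
    have h1 := hM0.le_of_ge (y := M1) ⟨hM1n, hcon⟩ hM01.le
    exact absurd h1 (not_le_of_gt hM01)
  obtain ⟨x, hx1, hx2⟩ := hx
  have hn1 : (M1.comap φ).Normal := hM1n.comap φ
  refine ⟨K' ⊔ M1.comap φ, inferInstance, ?_, ?_⟩
  · refine lt_of_le_of_ne le_sup_left ?_
    intro h
    apply hx2
    rw [h]
    apply Subgroup.mem_sup_right
    rw [Subgroup.mem_comap]
    exact hx1
  · intro f hf g hg
    rw [Subgroup.mem_sup_of_normal_left] at hf hg
    obtain ⟨k1, hk1, m1, hm1, rfl⟩ := hf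
    obtain ⟨k2, hk2, m2, hm2, rfl⟩ := hg
    rw [Subgroup.mem_comap] at hm1 hm2
    obtain ⟨s, hs, t, ht, hst⟩ := hM1 _ hm1 _ hm2
    obtain ⟨s', hs', rfl⟩ := closure_pre φ (f := m1) (g := m2) hs
    obtain ⟨t', ht', rfl⟩ := closure_pre φ (f := m1) (g := m2) ht
    have h1 : (m2 * t')⁻¹ * (m1 * s') ∈ K' := hM0K _ (by
      rw [map_mul, map_inv, map_mul, map_mul]
      exact hst)
    have e1 : QuotientGroup.mk' K' m1 = QuotientGroup.mk' K' (k1 * m1) := by
      rw [map_mul]
      have : QuotientGroup.mk' K' k1 = 1 := by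
        rw [← MonoidHom.mem_ker, QuotientGroup.ker_mk']
        exact hk1
      rw [this, one_mul]
    have e2 : QuotientGroup.mk' K' m2 = QuotientGroup.mk' K' (k2 * m2) := by
      rw [map_mul]
      have : QuotientGroup.mk' K' k2 = 1 := by
        rw [← MonoidHom.mem_ker, QuotientGroup.ker_mk']
        exact hk2
      rw [this, one_mul]
    obtain ⟨s'', hs'', hss⟩ := closure_lift (QuotientGroup.mk' K') e1 e2 hs'
    obtain ⟨t'', ht'', htt⟩ := closure_lift (QuotientGroup.mk' K') e1 e2 ht'
    refine ⟨s'', hs'', t'', ht'', ?_⟩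
    have hker : ∀ z : W, z ∈ K' ↔ QuotientGroup.mk' K' z = 1 := by
      intro z
      rw [← MonoidHom.mem_ker, QuotientGroup.ker_mk']
    rw [hker] at h1 ⊢
    rw [map_mul, map_inv, map_mul _ m2, map_mul _ m1] at h1
    rw [map_mul, map_inv, map_mul _ (k2 * m2), map_mul _ (k1 * m1), ← e1, ← e2, ← hss, ← htt]
    exact h1

theorem Hyp.sub {G : Type*} [Group G] (hG : Hyp G) (W : Subgroup G) : Hyp W :=
  hG.of_inj W.subtype W.subtype_injective

/-- The hypothesis on all finitely generated subgroups. -/
def LHyp (G : Type*) [Group G] : Prop := ∀ H : Subgroup G, H.FG → Hyp H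

theorem LHyp.sub {G : Type*} [Group G] (hG : LHyp G) (C : Subgroup G) : LHyp C := by
  intro H hH
  have h1 : (H.map C.subtype).FG := by
    classical
    obtain ⟨S, hS⟩ := hH
    refine ⟨S.image C.subtype, ?_⟩
    rw [Finset.coe_image, ← MonoidHom.map_closure, hS]
  refine (hG _ h1).of_inj
    ((C.subtype.comp H.subtype).codRestrict (H.map C.subtype) ?_) ?_
  · intro x
    exact ⟨x, x.2, rfl⟩
  · intro x y hxy
    have h2 := congrArg Subtype.val hxy
    exact Subtype.ext (Subtype.ext h2)

end Inherit

end Pool.Agent.H228_Iso
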