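import Mathlib
import Pool.Agent.H228_Iso.Nfs

set_option autoImplicit false

namespace Pool.Agent.H228_Iso

open scoped Pointwise

section Local

variable {G Ω : Type*} [Group G] [LinearOrder Ω] [MulAction G Ω] [OAct G Ω]
variable {x0 a b : Ω} {c : G}

/-- The hypothesis on a subgroup generated by finitely many elements suffices. -/
theorem par_false_local (h : Par G x0 a b c) (hG : LHyp G) : False := by
  classical
  obtain ⟨y1, hy1, hy1'⟩ := h.dn _ _ h.hb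
  obtain ⟨y2, hy2, hy2'⟩ := h.dn _ _ h.ha
  obtain ⟨h1, rfl⟩ := h.tr y1
  obtain ⟨h2, rfl⟩ := h.tr y2
  set H : Subgroup G := Subgroup.closure {c, h1, h2} with hH
  have hcH : c ∈ H := Subgroup.subset_closure (by simp)
  have h1H : h1 ∈ H := Subgroup.subset_closure (by simp)
  have h2H : h2 ∈ H := Subgroup.subset_closure (by simp)
  have hFG : H.FG := ⟨{c, h1, h2}, by simp [hH]⟩
  have hHyp := hG H hFG
  -- convex subgroups of `H`
  let 𝒱 : Set (Subgroup H) := {V | (∀ g : H, ∀ v ∈ V, x0 ≤ g • x0 → g • x0 ≤ v • x0 → g ∈ V) ∧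
    ∃ u ∈ V, x0 < u • x0}
  let W : Subgroup H := sInf 𝒱
  have hsm : ∀ (g : H) (x : Ω), g • x = (g : G) • x := fun g x => rfl
  have hck : ∀ k : ℕ, c ^ k • x0 = x0 := by
    intro k
    have := fix_zpow h.hc (k : ℤ)
    rwa [zpow_natCast] at this
  have hcV : ∀ V ∈ 𝒱, (⟨c, hcH⟩ : H) ∈ V := by
    rintro V ⟨hV, -⟩
    apply hV _ 1 V.one_mem
    · rw [hsm]
      exact h.hc.ge
    · rw [hsm, one_smul]
      exact h.hc.le
  have h1V : ∀ V ∈ 𝒱, (⟨h1, h1H⟩ : H) ∈ V := by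
    rintro V hV
    have hcV' := hcV V hV
    obtain ⟨hV, u, hu, hu'⟩ := hV
    obtain ⟨k, hk⟩ := h.eplus (y := u • x0) (z := h1 • x0) hu' hy1'
    have h3 : (⟨c, hcH⟩ : H) ^ k * ⟨h1, h1H⟩ ∈ V := by
      apply hV _ u hu
      · rw [hsm]
        show x0 ≤ (c ^ k * h1) • x0
        rw [mul_smul]
        conv_lhs => rw [← hck k]
        exact (smul_le _ _ _).2 hy1.le
      · rw [hsm]
        show (c ^ k * h1) • x0 ≤ u • x0
        rw [mul_smul]
        exact hk.le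
    have := V.mul_mem (V.inv_mem (V.pow_mem hcV' k)) h3
    rwa [inv_mul_cancel_left] at this
  have h2V : ∀ V ∈ 𝒱, (⟨h2, h2H⟩ : H) ∈ V := by
    rintro V hV
    have hcV' := hcV V hV
    obtain ⟨hV, u, hu, hu'⟩ := hV
    have hu2 : u⁻¹ • x0 < x0 := by
      show ((u : G))⁻¹ • x0 < x0
      rw [smul_lt', inv_inv]
      exact hu'
    obtain ⟨k, hk⟩ := h.dual.eplus (y := OrderDual.toDual (u⁻¹ • x0))
      (z := OrderDual.toDual (h2 • x0)) hu2 hy2
    have hk' : u⁻¹ • x0 < c⁻¹ ^ k • h2 • x0 := hk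
    -- `g = (c⁻¹)^k h2`
    have hckn : c⁻¹ ^ k • x0 = x0 := by
      rw [inv_pow, inv_smul_eq_iff]
      exact (hck k).symm
    have h3 : u * ((⟨c, hcH⟩ : H)⁻¹ ^ k * ⟨h2, h2H⟩) ∈ V := by
      apply hV _ u hu
      · rw [hsm]
        show x0 ≤ ((u : G) * (c⁻¹ ^ k * h2)) • x0
        rw [mul_smul, le_smul', mul_smul]
        exact hk'.le
      · rw [hsm]
        show ((u : G) * (c⁻¹ ^ k * h2)) • x0 ≤ (u : G) • x0
        rw [mul_smul, smul_le, mul_smul]
        conv_rhs => rw [← hckn]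
        exact (smul_le _ _ _).2 hy2'.le
    have h4 := V.mul_mem (V.inv_mem hu) h3
    rw [inv_mul_cancel_left] at h4
    have h5 := V.mul_mem (V.inv_mem (V.pow_mem (V.inv_mem hcV') k)) h4
    rwa [inv_mul_cancel_left] at h5
  have hcW : (⟨c, hcH⟩ : H) ∈ W := Subgroup.mem_sInf.2 hcV
  have h1W : (⟨h1, h1H⟩ : H) ∈ W := Subgroup.mem_sInf.2 h1V
  have h2W : (⟨h2, h2H⟩ : H) ∈ W := Subgroup.mem_sInf.2 h2V
  have hWconv : ∀ g : H, ∀ v ∈ W, x0 ≤ g • x0 → g • x0 ≤ v • x0 → g ∈ W := by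
    intro g v hv hg1 hg2
    rw [Subgroup.mem_sInf] at hv ⊢
    intro V hV
    exact hV.1 g v (hv V hV) hg1 hg2
  -- the orbit
  let Ω' : Set Ω := MulAction.orbit W x0
  have hsm' : ∀ (g : W) (x : Ω'), ((g • x : Ω') : Ω) = ((g : H) : G) • (x : Ω) := fun g x => rfl
  have hact : OAct W Ω' := ⟨by
    intro g x y hxy
    rw [← Subtype.coe_le_coe, hsm', hsm', smul_le]
    exact hxy⟩
  let z0 : Ω' := ⟨x0, MulAction.mem_orbit_self x0⟩
  let cW : W := ⟨⟨c, hcH⟩, hcW⟩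
  let h1w : W := ⟨⟨h1, h1H⟩, h1W⟩
  let h2w : W := ⟨⟨h2, h2H⟩, h2W⟩
  have htr : ∀ x : Ω', ∃ g : W, g • z0 = x := by
    rintro ⟨x, g, hg⟩
    exact ⟨g, Subtype.ext hg⟩
  -- lower sets
  have hext : ∀ S : Set Ω', IsLowerSet S → IsLowerSet {x : Ω | ∃ s ∈ S, x ≤ (s : Ω)} ∧
      (∀ x : Ω', (x : Ω) ∈ {x : Ω | ∃ s ∈ S, x ≤ (s : Ω)} ↔ x ∈ S) := by
    intro S hS
    refine ⟨?_, ?_⟩
    · rintro x y hyx ⟨s, hs, hxs⟩
      exact ⟨s, hs, hyx.trans hxs⟩
    · intro x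
      constructor
      · rintro ⟨s, hs, hxs⟩
        exact hS hxs hs
      · intro hx
        exact ⟨x, hx, le_refl _⟩
  have hextc : ∀ S : Set Ω', S ⊆ cW • S →
      {x : Ω | ∃ s ∈ S, x ≤ (s : Ω)} ⊆ c • {x : Ω | ∃ s ∈ S, x ≤ (s : Ω)} := by
    rintro S hS x ⟨s, hs, hxs⟩
    have h3 := hS hs
    rw [mem_smul] at h3
    rw [mem_smul]
    refine ⟨_, h3, ?_⟩
    rw [hsm']
    show c⁻¹ • x ≤ c⁻¹ • (s : Ω)
    exact (smul_le _ _ _).2 hxs
  have hdense : ∀ x y : Ω', x < y → ∃ z, x < z ∧ z < y := by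
    intro x y hxy
    obtain ⟨g, rfl⟩ := htr x
    have hxy' : x0 < (((g : H) : G))⁻¹ • (y : Ω) := by
      rw [lt_smul', inv_inv]
      exact hxy
    obtain ⟨k, hk⟩ := h.eplus hxy' hy1'
    refine ⟨g • cW ^ k • h1w • z0, ?_, ?_⟩
    · rw [← Subtype.coe_lt_coe, hsm', hsm', hsm', hsm', smul_lt]
      show x0 < c ^ k • h1 • x0
      conv_lhs => rw [← hck k]
      rw [smul_lt]
      exact hy1
    · rw [← Subtype.coe_lt_coe, hsm', hsm', hsm', smul_lt']
      exact hk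
  have hPar : Par W z0 (h2w • z0) (h1w • z0) cW := by
    refine ⟨htr, ?_, hdense, Subtype.ext h.hc, ?_, ?_, ?_, ?_, ?_⟩
    · -- maximality
      intro V hV hu
      have h3 : V.map W.subtype ∈ 𝒱 := by
        refine ⟨?_, ?_⟩
        · rintro g v hv hg1 hg2
          obtain ⟨v', hv', rfl⟩ := hv
          have hgW : g ∈ W := hWconv g v' v'.2 hg1 hg2
          exact ⟨⟨g, hgW⟩, hV ⟨g, hgW⟩ v' hv' hg1 hg2, rfl⟩
        · obtain ⟨u, hu, hu'⟩ := hu
          exact ⟨u, ⟨u, hu, rfl⟩, hu'⟩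
      rw [eq_top_iff]
      intro g _
      have h4 : (g : H) ∈ V.map W.subtype := Subgroup.mem_sInf.1 g.2 _ h3
      obtain ⟨g', hg', hgg⟩ := h4
      have : g' = g := Subtype.ext hgg
      rwa [← this]
    · exact hy2'
    · exact hy1
    · intro S hS hs hb hcon
      obtain ⟨s, hs, hs'⟩ := hs
      refine h.pr _ (hext S hS).1 ⟨s, ((hext S hS).2 s).2 hs, hs'⟩ ?_ (hextc S hcon)
      intro hbS
      apply hb
      rw [← (hext S hS).2]
      exact (hext S hS).1 hy1'.le hbS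
    · intro S hS ha hs hcon
      obtain ⟨s, hs, hs'⟩ := hs
      refine h.pl _ (hext S hS).1 ?_ ⟨s, hs, fun hn => hs' (((hext S hS).2 s).1 hn)⟩ (hextc S hcon)
      rw [← (hext S hS).2] at ha
      exact (hext S hS).1 hy2.le ha
    · intro A hA hA' hroot
      have hinj : Function.Injective (H.subtype.comp W.subtype) := by
        intro x y hxy
        exact Subtype.ext (Subtype.ext hxy)
      obtain ⟨k, hk⟩ := h.dcc (fun k => (A k).map (H.subtype.comp W.subtype))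
        (by
          rintro k x ⟨x', hx', rfl⟩
          have := hA k x' hx'
          exact congrArg Subtype.val this)
        (fun k => Subgroup.map_mono (hA' k))
        (by
          rintro k x ⟨x', hx', rfl⟩ m hm hxm
          obtain ⟨y, hy, hy'⟩ := hxm
          have h5 : y = x' ^ m := hinj (by rw [hy', map_pow])
          rw [h5] at hy
          exact ⟨x', hroot k x' hx' m hm hy, rfl⟩)
      exact ⟨k, Subgroup.map_injective hinj hk⟩
  exact par_false hPar (hHyp.sub W)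

end Local

end Pool.Agent.H228_Iso
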