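import Mathlib
import Pool.Agent.H228_Iso.Flip

set_option autoImplicit false

namespace Pool.Agent.H228_Iso

/-- Descending chain condition for relatively root-closed subgroups. -/
def DCC (X : Type*) [Group X] : Prop :=
  ∀ A : ℕ → Subgroup X, (∀ k, A (k + 1) ≤ A k) →
    (∀ k, ∀ x ∈ A k, ∀ m : ℕ, 0 < m → x ^ m ∈ A (k + 1) → x ∈ A (k + 1)) →
    ∃ k, A (k + 1) = A k

/-- Facts about groups with finitely many left orders. -/
structure Tar {X : Type*} [Group X] (P : Set X) (θ : X → ℚ) : Prop where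
  hom : ∀ x y, θ (x * y) = θ x + θ y
  ne : ∃ x, 0 < θ x
  pos : ∀ x, 0 < θ x → x ∈ P
  sign : ∀ Q : Set X, Cone Q → (∀ x, 0 < θ x → x ∈ Q) ∨ (∀ x, θ x < 0 → x ∈ Q)
  conj : ∃ K : Finset X, ∀ Q : Set X, Cone Q → (∀ x, 0 < θ x → x ∈ Q) →
    ∃ κ ∈ K, ∀ x, (κ⁻¹ * x * κ ∈ Q ↔ x ∈ P)
  dcc : DCC X
  fin : {Q : Set X | Cone Q}.Finite

/-- The trivial group or a group as in `Tar`. -/
def Good {X : Type*} [Group X] (P : Set X) : Prop := Subsingleton X ∨ ∃ θ : X → ℚ, Tar P θ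

theorem Good.dcc {X : Type*} [Group X] {P : Set X} (h : Good P) : DCC X := by
  rcases h with h | ⟨θ, h⟩
  · intro A _ _
    refine ⟨0, ?_⟩
    ext x
    rw [Subsingleton.elim x 1]
    simp [one_mem]
  · exact h.dcc

theorem Good.fin {X : Type*} [Group X] {P : Set X} (h : Good P) :
    {Q : Set X | Cone Q}.Finite := by
  rcases h with h | ⟨θ, h⟩
  · haveI : Finite X := Finite.of_subsingleton
    exact Set.toFinite _
  · exact h.fin

theorem Cone.trace {G : Type*} [Group G] {Q : Set G} (hQ : Cone Q) (C : Subgroup G) :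
    Cone (Subtype.val ⁻¹' Q : Set C) where
  mul a ha b hb := hQ.mul _ ha _ hb
  one := hQ.one
  tot a ha := hQ.tot a (by
    intro h
    exact ha (Subtype.ext h))
  asym a ha := hQ.asym a ha

theorem Cone.pow {G : Type*} [Group G] {Q : Set G} (hQ : Cone Q) {x : G} (hx : x ∈ Q) (n : ℕ) :
    x ^ (n + 1) ∈ Q := by
  induction n with
  | zero => simpa using hx
  | succ n ih =>
    rw [pow_succ]
    exact hQ.mul _ ih _ hx

theorem Cone.of_pow {G : Type*} [Group G] {Q : Set G} (hQ : Cone Q) {x : G} {n : ℕ} (hn : 0 < n)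
    (hx : x ^ n ∈ Q) : x ∈ Q := by
  obtain ⟨m, rfl⟩ : ∃ m, n = m + 1 := ⟨n - 1, by omega⟩
  by_cases h1 : x = 1
  · rw [h1, one_pow] at hx
    exact absurd hx hQ.one
  · rcases hQ.tot x h1 with h2 | h2
    · exact h2
    · have h3 := hQ.pow h2 m
      rw [inv_pow] at h3
      exact absurd h3 (hQ.asym _ hx)

section Step

variable {G : Type*} [Group G] {φ : G → ℚ} {C : Subgroup G}

theorem above_pow {Q : Set G} (hQ : Cone Q) {d : G} (hd : ∀ c ∈ C, d * c ∈ Q) (n : ℕ) :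
    ∀ c ∈ C, d ^ (n + 1) * c ∈ Q := by
  induction n with
  | zero =>
    intro c hc
    simpa using hd c hc
  | succ n ih =>
    intro c hc
    rw [pow_succ', mul_assoc]
    have h1 : d ∈ Q := by simpa using hd 1 C.one_mem
    exact hQ.mul _ h1 _ (ih c hc)

theorem d1 (hφ : ∀ x y, φ (x * y) = φ x + φ y) (hC : ∀ g, g ∈ C ↔ φ g = 0) {Q : Set G}
    (hQ : Cone Q) {d : G} (hd : ∀ c ∈ C, d * c ∈ Q) {x : G} (hx : 0 < φ x * φ d) : x ∈ Q := by
  have hd0 : φ d ≠ 0 := by
    intro h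
    rw [h, mul_zero] at hx
    exact lt_irrefl _ hx
  have hdd : 0 < φ d * φ d := mul_self_pos.2 hd0
  obtain ⟨p, q, hp, hq, hpq⟩ := commens hx hdd
  have h1 : (p : ℚ) * φ x = q * φ d := by
    rw [← mul_assoc, ← mul_assoc] at hpq
    exact mul_right_cancel₀ hd0 hpq
  obtain ⟨m, rfl⟩ : ∃ m, q = m + 1 := ⟨q - 1, by omega⟩
  have h2 : (d ^ (m + 1))⁻¹ * x ^ p ∈ C := by
    rw [hC, hφ, hom_inv hφ, hom_pow hφ, hom_pow hφ, h1]
    ring
  have h3 := above_pow hQ hd m _ h2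
  rw [mul_inv_cancel_left] at h3
  exact hQ.of_pow hp h3

theorem sign_of_above (hφ : ∀ x y, φ (x * y) = φ x + φ y) (hC : ∀ g, g ∈ C ↔ φ g = 0)
    {Q : Set G} (hQ : Cone Q) (h : ∃ d : G, φ d ≠ 0 ∧ ∀ c ∈ C, d * c ∈ Q) :
    (∀ x, 0 < φ x → x ∈ Q) ∨ (∀ x, φ x < 0 → x ∈ Q) := by
  obtain ⟨d, hd0, hd⟩ := h
  rcases lt_or_gt_of_ne hd0 with h1 | h1
  · right
    intro x hx
    exact d1 hφ hC hQ hd (mul_pos_of_neg_of_neg hx h1)
  · left
    intro x hx
    exact d1 hφ hC hQ hd (mul_pos hx h1)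

theorem eqv (hφ : ∀ x y, φ (x * y) = φ x + φ y) (hC : ∀ g, g ∈ C ↔ φ g = 0) {Q Q' : Set G}
    (hQ : Cone Q) (hQ' : Cone Q') (h : ∀ x, 0 < φ x → x ∈ Q) (h' : ∀ x, 0 < φ x → x ∈ Q')
    (hh : ∀ x ∈ C, (x ∈ Q ↔ x ∈ Q')) (x : G) : x ∈ Q ↔ x ∈ Q' := by
  rcases lt_trichotomy (φ x) 0 with h1 | h1 | h1
  · have h2 : 0 < φ x⁻¹ := by rw [hom_inv hφ]; linarith
    constructor
    · intro h3
      exact absurd (h _ h2) (hQ.asym _ h3)
    · intro h3
      exact absurd (h' _ h2) (hQ'.asym _ h3)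
  · exact hh x ((hC x).2 h1)
  · exact ⟨fun _ => h' x h1, fun _ => h x h1⟩

theorem fin_step (hφ : ∀ x y, φ (x * y) = φ x + φ y) (hC : ∀ g, g ∈ C ↔ φ g = 0)
    (hsign : ∀ Q : Set G, Cone Q → (∀ x, 0 < φ x → x ∈ Q) ∨ (∀ x, φ x < 0 → x ∈ Q))
    (hfin : {R : Set C | Cone R}.Finite) : {Q : Set G | Cone Q}.Finite := by
  refine Set.Finite.subset (((Set.finite_univ (α := Bool)).prod hfin).image
    (fun p : Bool × Set C => {x : G | (if p.1 then 0 < φ x else φ x < 0) ∨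
      ∃ h : x ∈ C, (⟨x, h⟩ : C) ∈ p.2})) ?_
  intro Q hQ
  have hQ : Cone Q := hQ
  rcases hsign Q hQ with hs | hs
  · refine ⟨(true, Subtype.val ⁻¹' Q), ⟨Set.mem_univ _, hQ.trace C⟩, ?_⟩
    ext x
    simp only [if_true, Set.mem_preimage, exists_prop, Set.mem_ofPred_eq]
    constructor
    · rintro (h | ⟨-, h⟩)
      · exact hs x h
      · exact h
    · intro h
      by_cases h0 : φ x = 0
      · exact Or.inr ⟨(hC x).2 h0, h⟩
      · left
        rcases lt_or_gt_of_ne h0 with h1 | h1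
        · exfalso
          have h2 : 0 < φ x⁻¹ := by rw [hom_inv hφ]; linarith
          exact hQ.asym x h (hs _ h2)
        · exact h1
  · refine ⟨(false, Subtype.val ⁻¹' Q), ⟨Set.mem_univ _, hQ.trace C⟩, ?_⟩
    ext x
    simp only [Bool.false_eq_true, if_false, Set.mem_preimage, exists_prop, Set.mem_ofPred_eq]
    constructor
    · rintro (h | ⟨-, h⟩)
      · exact hs x h
      · exact h
    · intro h
      by_cases h0 : φ x = 0
      · exact Or.inr ⟨(hC x).2 h0, h⟩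
      · left
        rcases lt_or_gt_of_ne h0 with h1 | h1
        · exact h1
        · exfalso
          have h2 : φ x⁻¹ < 0 := by rw [hom_inv hφ]; linarith
          exact hQ.asym x h (hs _ h2)

theorem dcc_step (hφ : ∀ x y, φ (x * y) = φ x + φ y) (hC : ∀ g, g ∈ C ↔ φ g = 0)
    (hdcc : DCC C) : DCC G := by
  intro A hA hroot
  have hanti : ∀ k j, A (k + j) ≤ A k := by
    intro k j
    induction j with
    | zero => exact le_refl _
    | succ j ih => exact (hA (k + j)).trans ih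
  obtain ⟨k0, hk0⟩ : ∃ k0 : ℕ, (A k0 ≤ C) ∨ ∀ k, ¬ A k ≤ C := by
    by_cases h : ∃ k, A k ≤ C
    · obtain ⟨k, hk⟩ := h
      exact ⟨k, Or.inl hk⟩
    · push Not at h
      exact ⟨0, Or.inr h⟩
  obtain ⟨k, hk⟩ := hdcc (fun k => (A (k0 + k)).subgroupOf C)
    (by
      intro k x hx
      rw [Subgroup.mem_subgroupOf] at hx ⊢
      exact hA (k0 + k) hx)
    (by
      intro k x hx m hm hxm
      rw [Subgroup.mem_subgroupOf] at hx hxm ⊢
      exact hroot (k0 + k) x hx m hm hxm)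
  have hk' : ∀ x : G, x ∈ C → x ∈ A (k0 + k) → x ∈ A (k0 + k + 1) := by
    intro x hxC hx
    have h1 : (⟨x, hxC⟩ : C) ∈ (A (k0 + k)).subgroupOf C := by
      rw [Subgroup.mem_subgroupOf]
      exact hx
    have h2 : (A (k0 + (k + 1))).subgroupOf C = (A (k0 + k)).subgroupOf C := hk
    rw [← h2, Subgroup.mem_subgroupOf] at h1
    exact h1
  refine ⟨k0 + k, le_antisymm (hA _) ?_⟩
  intro x hx
  rcases hk0 with h1 | h1
  · exact hk' x (h1 (hanti k0 k hx)) hx
  · by_cases hxC : x ∈ C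
    · exact hk' x hxC hx
    · have h2 := h1 (k0 + k + 1)
      rw [SetLike.not_le_iff_exists] at h2
      obtain ⟨a, ha, haC⟩ := h2
      rw [hC] at haC
      have hr' : ((φ x / φ a).den : ℚ) * φ x = (φ x / φ a).num * φ a := by
        have h4 : ((φ x / φ a).den : ℚ) * (φ x / φ a) = (φ x / φ a).num :=
          Rat.den_mul_eq_num (φ x / φ a)
        rw [← h4]
        field_simp
      set p := (φ x / φ a).den with hp
      set q := (φ x / φ a).num with hq
      have h3 : (a ^ q)⁻¹ * x ^ p ∈ C := by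
        rw [hC, hφ, hom_inv hφ, hom_zpow hφ, hom_pow hφ, hr']
        ring
      have ha' : a ∈ A (k0 + k) := hA _ ha
      have h4 : (a ^ q)⁻¹ * x ^ p ∈ A (k0 + k) :=
        mul_mem (inv_mem (zpow_mem ha' q)) (pow_mem hx p)
      have h5 := hk' _ h3 h4
      have h6 : x ^ p ∈ A (k0 + k + 1) := by
        have := mul_mem (zpow_mem ha q) h5
        rwa [mul_inv_cancel_left] at this
      exact hroot (k0 + k) x hx p (φ x / φ a).den_pos h6

/-- Extension step. -/
theorem tar_step {P : Set G} (hP : Cone P) (hφ : ∀ x y, φ (x * y) = φ x + φ y)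
    (hne : ∃ x, 0 < φ x) (hpos : ∀ x, 0 < φ x → x ∈ P) (hC : ∀ g, g ∈ C ↔ φ g = 0)
    (hcase : Subsingleton C ∨ ∃ θ : C → ℚ, Tar (Subtype.val ⁻¹' P : Set C) θ ∧
      ∃ d : G, ∃ l : ℚ, l < 0 ∧ ∀ z z' : C, (z' : G) = d * z * d⁻¹ → θ z' = l * θ z) :
    Tar P φ := by
  have hCn : ∀ (d : G) (z : G), z ∈ C → d * z * d⁻¹ ∈ C := by
    intro d z hz
    rw [hC] at hz ⊢
    rw [hom_conj hφ, hz]
  have hgood : Good (Subtype.val ⁻¹' P : Set C) := by
    rcases hcase with h | ⟨θ, h, -⟩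
    · exact Or.inl h
    · exact Or.inr ⟨θ, h⟩
  have hsign : ∀ Q : Set G, Cone Q → (∀ x, 0 < φ x → x ∈ Q) ∨ (∀ x, φ x < 0 → x ∈ Q) := by
    intro Q hQ
    apply sign_of_above hφ hC hQ
    rcases hcase with hsub | ⟨θ, hT, d, l, hl, hd⟩
    · obtain ⟨b, hb⟩ := hne
      have hb1 : b ≠ 1 := by
        rintro rfl
        rw [hom_one hφ] at hb
        exact lt_irrefl _ hb
      have hc1 : ∀ c ∈ C, c = 1 := by
        intro c hc
        have := Subsingleton.elim (⟨c, hc⟩ : C) 1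
        exact congrArg Subtype.val this
      rcases hQ.tot b hb1 with h1 | h1
      · refine ⟨b, hb.ne', ?_⟩
        intro c hc
        rw [hc1 c hc, mul_one]
        exact h1
      · refine ⟨b⁻¹, ?_, ?_⟩
        · rw [hom_inv hφ]
          exact neg_ne_zero.2 hb.ne'
        · intro c hc
          rw [hc1 c hc, mul_one]
          exact h1
    · obtain ⟨x1, hx1⟩ := hT.ne
      have hd0 : φ d ≠ 0 := by
        intro h0
        have hdC : d ∈ C := (hC d).2 h0
        have h1 := hd x1 (⟨d, hdC⟩ * x1 * (⟨d, hdC⟩ : C)⁻¹) rfl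
        rw [hom_conj hT.hom] at h1
        nlinarith
      have hd1 : d ≠ 1 := by
        rintro rfl
        exact hd0 (hom_one hφ)
      obtain ⟨y, m, hm, hyQ, hy0, hy⟩ : ∃ y : G, ∃ m : ℚ, m < 0 ∧ y ∈ Q ∧ φ y ≠ 0 ∧
          ∀ z z' : C, (z' : G) = y * z * y⁻¹ → θ z' = m * θ z := by
        rcases hQ.tot d hd1 with h1 | h1
        · exact ⟨d, l, hl, h1, hd0, hd⟩
        · refine ⟨d⁻¹, l⁻¹, inv_lt_zero.2 hl, h1, ?_, ?_⟩
          · rw [hom_inv hφ]
            exact neg_ne_zero.2 hd0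
          · intro z z' hzz
            have h2 : (z : G) = d * z' * d⁻¹ := by
              rw [hzz]
              group
            have h3 := hd z' z h2
            rw [h3, ← mul_assoc, inv_mul_cancel₀ hl.ne, one_mul]
      refine ⟨y, hy0, ?_⟩
      obtain ⟨e, he, heQ⟩ : ∃ e : ℚ, (e = 1 ∨ e = -1) ∧ ∀ x : C, 0 < e * θ x → (x : G) ∈ Q := by
        rcases hT.sign _ (hQ.trace C) with h1 | h1
        · refine ⟨1, Or.inl rfl, ?_⟩
          intro x hx
          exact h1 x (by linarith)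
        · refine ⟨-1, Or.inr rfl, ?_⟩
          intro x hx
          exact h1 x (by linarith)
      have c2 : ∀ x : C, e * θ x < 0 → y * x ∈ Q := by
        intro x hx
        have h1 := hy x ⟨y * x * y⁻¹, hCn y x x.2⟩ rfl
        have h2 := heQ ⟨y * x * y⁻¹, hCn y x x.2⟩ (by
          rw [h1]
          nlinarith)
        have h3 : y * (x : G) = (y * x * y⁻¹) * y := by group
        rw [h3]
        exact hQ.mul _ h2 _ hyQ
      obtain ⟨x2, hx2⟩ : ∃ x : C, 0 < e * θ x := by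
        rcases he with rfl | rfl
        · exact ⟨x1, by linarith⟩
        · exact ⟨x1⁻¹, by rw [hom_inv hT.hom]; linarith⟩
      intro c hc
      rcases lt_trichotomy (e * θ ⟨c, hc⟩) 0 with h1 | h1 | h1
      · exact c2 ⟨c, hc⟩ h1
      · have h2 := c2 x2⁻¹ (by rw [hom_inv hT.hom]; linarith)
        have h3 := heQ (x2 * ⟨c, hc⟩) (by rw [hT.hom]; linarith)
        have h4 : y * c = (y * ((x2⁻¹ : C) : G)) * ((x2 * ⟨c, hc⟩ : C) : G) := by
          push_cast
          group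
        rw [h4]
        exact hQ.mul _ h2 _ h3
      · exact hQ.mul _ hyQ _ (heQ ⟨c, hc⟩ h1)
  refine ⟨hφ, hne, hpos, hsign, ?_, dcc_step hφ hC hgood.dcc, fin_step hφ hC hsign hgood.fin⟩
  classical
  rcases hcase with hsub | ⟨θ, hT, d, l, hl, hd⟩
  · refine ⟨{1}, ?_⟩
    intro Q hQ hQφ
    refine ⟨1, by simp, ?_⟩
    intro x
    simp only [inv_one, one_mul, mul_one]
    apply eqv hφ hC hQ hP hQφ hpos
    intro c hc
    have hc1 : c = 1 := by
      have := Subsingleton.elim (⟨c, hc⟩ : C) 1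
      exact congrArg Subtype.val this
    rw [hc1]
    exact ⟨fun h => absurd h hQ.one, fun h => absurd h hP.one⟩
  · obtain ⟨K, hK⟩ := hT.conj
    refine ⟨K.image (fun κ : C => (κ : G)) ∪ K.image (fun κ : C => (κ : G) * d), ?_⟩
    intro Q hQ hQφ
    rcases hT.sign _ (hQ.trace C) with h1 | h1
    · obtain ⟨κ, hκ, hκ'⟩ := hK _ (hQ.trace C) h1
      refine ⟨κ, Finset.mem_union_left _ (Finset.mem_image_of_mem
        (fun κ : C => (κ : G)) hκ), ?_⟩
      intro x
      apply eqv hφ hC (hQ.conj (κ : G)) hP _ hpos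
      · intro c hc
        exact hκ' ⟨c, hc⟩
      · intro x hx
        show (κ : G)⁻¹ * x * κ ∈ Q
        apply hQφ
        rw [hφ, hφ, hom_inv hφ]
        linarith
    · have hQ2 := hQ.conj d
      obtain ⟨κ, hκ, hκ'⟩ := hK _ (hQ2.trace C) (by
        intro x hx
        show d⁻¹ * (x : G) * d ∈ Q
        have hmem : d⁻¹ * (x : G) * d ∈ C := by
          have := hCn d⁻¹ x x.2
          rwa [inv_inv] at this
        apply h1 ⟨d⁻¹ * (x : G) * d, hmem⟩
        have h2 := hd ⟨d⁻¹ * (x : G) * d, hmem⟩ x (by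
          show (x : G) = d * (d⁻¹ * x * d) * d⁻¹
          group)
        by_contra hcon
        rw [not_lt] at hcon
        nlinarith)
      refine ⟨(κ : G) * d, Finset.mem_union_right _ (Finset.mem_image_of_mem
        (fun κ : C => (κ : G) * d) hκ), ?_⟩
      intro x
      have e1 : ∀ k : G, (k * d)⁻¹ * x * (k * d) = d⁻¹ * (k⁻¹ * x * k) * d := by
        intro k
        group
      rw [e1]
      apply eqv hφ hC (hQ2.conj (κ : G)) hP _ hpos
      · intro c hc
        exact hκ' ⟨c, hc⟩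
      · intro x hx
        show d⁻¹ * ((κ : G)⁻¹ * x * κ) * d ∈ Q
        apply hQφ
        rw [hφ, hφ, hφ, hφ, hom_inv hφ, hom_inv hφ]
        linarith

end Step

end Pool.Agent.H228_Iso
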