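import Mathlib
import Pool.Agent.H228_Iso.Tar
import Pool.Agent.H228_Iso.Local

set_option autoImplicit false

namespace Pool.Agent.H228_Iso

/-- Convex subgroups. -/
def Conv {G : Type*} [Group G] (P : Set G) (V : Subgroup G) : Prop :=
  ∀ g ∈ P, ∀ v ∈ V, g⁻¹ * v ∈ P → g ∈ V

section Conv

variable {G : Type*} [Group G] {P : Set G} {V : Subgroup G}

theorem Conv.mulr (hP : Cone P) (hV : Conv P V) {g c : G} (hg : g ∈ P) (hgV : g ∉ V)
    (hc : c ∈ V) : g * c ∈ P := by
  have h1 : g * c ≠ 1 := by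
    intro h
    apply hgV
    have : g = c⁻¹ := mul_eq_one_iff_eq_inv.1 h
    rw [this]
    exact V.inv_mem hc
  rcases hP.tot _ h1 with h2 | h2
  · exact h2
  · exfalso
    apply hgV
    have h3 := hV _ h2 c⁻¹ (V.inv_mem hc) (by
      rw [inv_inv, mul_inv_cancel_right]
      exact hg)
    have h4 := V.inv_mem h3
    rw [inv_inv] at h4
    have := V.mul_mem h4 (V.inv_mem hc)
    rwa [mul_inv_cancel_right] at this

theorem Conv.mull (hP : Cone P) (hV : Conv P V) {g c : G} (hg : g ∈ P) (hgV : g ∉ V)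
    (hc : c ∈ V) : c * g ∈ P := by
  have h1 : c * g ≠ 1 := by
    intro h
    apply hgV
    have : g = c⁻¹ := (mul_eq_one_iff_inv_eq.1 h).symm
    rw [this]
    exact V.inv_mem hc
  rcases hP.tot _ h1 with h2 | h2
  · exact h2
  · exfalso
    apply hgV
    rw [mul_inv_rev] at h2
    exact hV g hg _ (V.inv_mem hc) h2

theorem Conv.inv (hV : Conv P V) : Conv {g : G | g⁻¹ ∈ P} V := by
  intro g hg v hv hgv
  have hgv' : (g⁻¹ * v)⁻¹ ∈ P := hgv
  rw [mul_inv_rev, inv_inv] at hgv'
  have hg' : g⁻¹ ∈ P := hg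
  have h1 := hV _ hgv' v⁻¹ (V.inv_mem hv) (by
    rw [mul_inv_rev, inv_inv, mul_inv_cancel_right]
    exact hg')
  have := V.mul_mem hv h1
  rwa [mul_inv_cancel_left] at this

theorem conv_chain (hP : Cone P) {V V' : Subgroup G} (hV : Conv P V) (hV' : Conv P V') :
    V ≤ V' ∨ V' ≤ V := by
  by_contra hcon
  rw [not_or, SetLike.not_le_iff_exists, SetLike.not_le_iff_exists] at hcon
  obtain ⟨⟨x, hx, hx'⟩, ⟨y, hy, hy'⟩⟩ := hcon
  have key : ∀ (U U' : Subgroup G) (z : G), z ∈ U → z ∉ U' → ∃ w ∈ P, w ∈ U ∧ w ∉ U' := by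
    intro U U' z hz hz'
    have h1 : z ≠ 1 := by
      rintro rfl
      exact hz' U'.one_mem
    rcases hP.tot z h1 with h2 | h2
    · exact ⟨z, h2, hz, hz'⟩
    · exact ⟨z⁻¹, h2, U.inv_mem hz, fun h => hz' (by simpa using U'.inv_mem h)⟩
  obtain ⟨a, ha, haV, haV'⟩ := key V V' x hx hx'
  obtain ⟨b, hb, hbV', hbV⟩ := key V' V y hy hy'
  have h1 : a⁻¹ * b ≠ 1 := by
    intro h
    have : a = b := inv_mul_eq_one.1 h
    exact haV' (this ▸ hbV')
  rcases hP.tot _ h1 with h2 | h2
  · exact haV' (hV' a ha b hbV' h2)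
  · rw [mul_inv_rev, inv_inv] at h2
    exact hbV (hV b hb a haV h2)

theorem glue (hP : Cone P) (hV : Conv P V) {R : Set V} (hR : Cone R) :
    Cone {g : G | (∃ h : g ∈ V, (⟨g, h⟩ : V) ∈ R) ∨ (g ∉ V ∧ g ∈ P)} where
  mul a ha b hb := by
    rcases ha with ⟨haV, haR⟩ | ⟨haV, haP⟩ <;> rcases hb with ⟨hbV, hbR⟩ | ⟨hbV, hbP⟩
    · left
      exact ⟨V.mul_mem haV hbV, hR.mul _ haR _ hbR⟩
    · right
      refine ⟨?_, hV.mull hP hbP hbV haV⟩
      intro h
      apply hbV
      have := V.mul_mem (V.inv_mem haV) h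
      rwa [inv_mul_cancel_left] at this
    · right
      refine ⟨?_, hV.mulr hP haP haV hbV⟩
      intro h
      apply haV
      have := V.mul_mem h (V.inv_mem hbV)
      rwa [mul_inv_cancel_right] at this
    · right
      refine ⟨?_, hP.mul _ haP _ hbP⟩
      intro h
      apply haV
      apply hV a haP _ h
      rw [inv_mul_cancel_left]
      exact hbP
  one := by
    rintro (⟨_, h⟩ | ⟨h, -⟩)
    · exact hR.one h
    · exact h V.one_mem
  tot a ha := by
    by_cases haV : a ∈ V
    · rcases hR.tot ⟨a, haV⟩ (by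
        intro h
        exact ha (congrArg Subtype.val h)) with h1 | h1
      · left
        exact Or.inl ⟨haV, h1⟩
      · right
        exact Or.inl ⟨V.inv_mem haV, h1⟩
    · have haV' : a⁻¹ ∉ V := fun h => haV (by simpa using V.inv_mem h)
      rcases hP.tot a ha with h1 | h1
      · left
        exact Or.inr ⟨haV, h1⟩
      · right
        exact Or.inr ⟨haV', h1⟩
  asym a ha hb := by
    rcases ha with ⟨haV, haR⟩ | ⟨haV, haP⟩ <;> rcases hb with ⟨hbV, hbR⟩ | ⟨hbV, hbP⟩
    · exact hR.asym _ haR hbR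
    · exact hbV (V.inv_mem haV)
    · exact haV (by simpa using V.inv_mem hbV)
    · exact hP.asym _ haP hbP

/-- An isolating set is not contained in a proper convex subgroup. -/
theorem not_sub (hP : Cone P) (hV : Conv P V) (hVt : V ≠ ⊤) (F : Finset G)
    (hFP : ∀ f ∈ F, f ∈ P)
    (hF : ∀ Q : Set G, Cone Q → (∀ f ∈ F, f ∈ Q) → Q = P) : ∃ f ∈ F, f ∉ V := by
  by_contra hcon
  push Not at hcon
  have h1 := hF _ (glue hP.inv hV.inv (hP.trace V)) (by
    intro f hf
    left
    exact ⟨hcon f hf, hFP f hf⟩)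
  apply hVt
  rw [eq_top_iff]
  intro g _
  by_contra hg
  have hg1 : g ≠ 1 := by
    rintro rfl
    exact hg V.one_mem
  have hg' : g⁻¹ ∉ V := fun h => hg (by simpa using V.inv_mem h)
  rcases hP.tot g hg1 with h2 | h2
  · have h3 := h2
    rw [← h1] at h3
    rcases h3 with ⟨h4, -⟩ | ⟨-, h4⟩
    · exact hg h4
    · exact hP.asym g h2 h4
  · have h3 := h2
    rw [← h1] at h3
    rcases h3 with ⟨h4, -⟩ | ⟨-, h4⟩
    · exact hg' h4
    · exact hP.asym _ h2 h4

/-- The maximal proper convex subgroup. -/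
theorem exists_max (hP : Cone P) [Nontrivial G] (F : Finset G) (hFP : ∀ f ∈ F, f ∈ P)
    (hF : ∀ Q : Set G, Cone Q → (∀ f ∈ F, f ∈ Q) → Q = P) :
    ∃ C : Subgroup G, Conv P C ∧ C ≠ ⊤ ∧ ∀ V : Subgroup G, Conv P V → V ≠ ⊤ → V ≤ C := by
  have hbot : Conv P (⊥ : Subgroup G) := by
    intro g hg v hv hgv
    rw [Subgroup.mem_bot] at hv
    rw [hv, mul_one] at hgv
    exact absurd hgv (hP.asym g hg)
  let C : Subgroup G :=
    { carrier := {g | ∃ V : Subgroup G, Conv P V ∧ V ≠ ⊤ ∧ g ∈ V}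
      mul_mem' := by
        rintro a b ⟨V, hV1, hV2, hV3⟩ ⟨V', hV1', hV2', hV3'⟩
        rcases conv_chain hP hV1 hV1' with h | h
        · exact ⟨V', hV1', hV2', V'.mul_mem (h hV3) hV3'⟩
        · exact ⟨V, hV1, hV2, V.mul_mem hV3 (h hV3')⟩
      one_mem' := ⟨⊥, hbot, bot_ne_top, Subgroup.one_mem _⟩
      inv_mem' := by
        rintro a ⟨V, hV1, hV2, hV3⟩
        exact ⟨V, hV1, hV2, V.inv_mem hV3⟩ }
  refine ⟨C, ?_, ?_, ?_⟩
  · rintro g hg v ⟨V, hV1, hV2, hV3⟩ hgv
    exact ⟨V, hV1, hV2, hV1 g hg v hV3 hgv⟩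
  · intro hC
    classical
    have key : ∀ X : Finset G, ∃ V : Subgroup G, Conv P V ∧ V ≠ ⊤ ∧ ∀ x ∈ X, x ∈ V := by
      intro X
      induction X using Finset.induction_on with
      | empty => exact ⟨⊥, hbot, bot_ne_top, by simp⟩
      | insert x X hx ih =>
        obtain ⟨V, hV1, hV2, hV3⟩ := ih
        have hxC : x ∈ C := hC ▸ Subgroup.mem_top x
        obtain ⟨V', hV1', hV2', hV3'⟩ := hxC
        rcases conv_chain hP hV1 hV1' with h | h
        · refine ⟨V', hV1', hV2', ?_⟩
          intro y hy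
          rcases Finset.mem_insert.1 hy with rfl | hy
          · exact hV3'
          · exact h (hV3 y hy)
        · refine ⟨V, hV1, hV2, ?_⟩
          intro y hy
          rcases Finset.mem_insert.1 hy with rfl | hy
          · exact h hV3'
          · exact hV3 y hy
    obtain ⟨V, hV1, hV2, hV3⟩ := key F
    obtain ⟨f, hf, hfV⟩ := not_sub hP hV1 hV2 F hFP hF
    exact hfV (hV3 f hf)
  · intro V hV1 hV2 v hv
    exact ⟨V, hV1, hV2, hv⟩

end Conv

section Quot

variable {G : Type*} [Group G]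

/-- The order on cosets. -/
theorem mset_mul {P : Set G} {C : Subgroup G} (hP : Cone P) (hC : Conv P C) {a b : G}
    (ha : a ∈ P ∨ a ∈ C) (hb : b ∈ P ∨ b ∈ C) : a * b ∈ P ∨ a * b ∈ C := by
  by_cases haC : a ∈ C <;> by_cases hbC : b ∈ C
  · exact Or.inr (C.mul_mem haC hbC)
  · exact Or.inl (hC.mull hP (hb.resolve_right hbC) hbC haC)
  · exact Or.inl (hC.mulr hP (ha.resolve_right haC) haC hbC)
  · exact Or.inl (hP.mul _ (ha.resolve_right haC) _ (hb.resolve_right hbC))

/-- The relation on cosets. -/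
def qle (P : Set G) (C : Subgroup G) (hP : Cone P) (hC : Conv P C) (x y : G ⧸ C) : Prop :=
  Quotient.liftOn₂' x y (fun x y => (x⁻¹ * y ∈ P ∨ x⁻¹ * y ∈ C)) (by
    intro a1 b1 a2 b2 h1 h2
    rw [QuotientGroup.leftRel_apply] at h1 h2
    apply propext
    constructor
    · intro h
      have e : a2⁻¹ * b2 = ((a1⁻¹ * a2)⁻¹ * (a1⁻¹ * b1)) * (b1⁻¹ * b2) := by group
      rw [e]
      exact mset_mul hP hC (mset_mul hP hC (Or.inr (C.inv_mem h1)) h) (Or.inr h2)
    · intro h
      have e : a1⁻¹ * b1 = ((a1⁻¹ * a2) * (a2⁻¹ * b2)) * (b1⁻¹ * b2)⁻¹ := by group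
      rw [e]
      exact mset_mul hP hC (mset_mul hP hC (Or.inr h1) h) (Or.inr (C.inv_mem h2)))

theorem qle_mk {P : Set G} {C : Subgroup G} (hP : Cone P) (hC : Conv P C) (x y : G) :
    qle P C hP hC (x : G ⧸ C) (y : G ⧸ C) ↔ (x⁻¹ * y ∈ P ∨ x⁻¹ * y ∈ C) := Iff.rfl

/-- The linear order on cosets. -/
@[reducible] noncomputable def qord (P : Set G) (C : Subgroup G) (hP : Cone P) (hC : Conv P C) :
    LinearOrder (G ⧸ C) where
  le := qle P C hP hC
  le_refl := by
    intro x
    induction x using QuotientGroup.induction_on with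
    | H x =>
      rw [qle_mk, inv_mul_cancel]
      exact Or.inr C.one_mem
  le_trans := by
    intro x y z hxy hyz
    induction x using QuotientGroup.induction_on with
    | H x =>
      induction y using QuotientGroup.induction_on with
      | H y =>
        induction z using QuotientGroup.induction_on with
        | H z =>
          rw [qle_mk] at *
          have e : x⁻¹ * z = (x⁻¹ * y) * (y⁻¹ * z) := by group
          rw [e]
          exact mset_mul hP hC hxy hyz
  le_antisymm := by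
    intro x y hxy hyx
    induction x using QuotientGroup.induction_on with
    | H x =>
      induction y using QuotientGroup.induction_on with
      | H y =>
        rw [qle_mk] at *
        rw [QuotientGroup.eq]
        rcases hxy with h1 | h1
        · rcases hyx with h2 | h2
          · exfalso
            apply hP.asym _ h1
            rw [mul_inv_rev, inv_inv]
            exact h2
          · have := C.inv_mem h2
            rwa [mul_inv_rev, inv_inv] at this
        · exact h1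
  le_total := by
    intro x y
    induction x using QuotientGroup.induction_on with
    | H x =>
      induction y using QuotientGroup.induction_on with
      | H y =>
        rw [qle_mk, qle_mk]
        by_cases h : x⁻¹ * y = 1
        · left
          right
          rw [h]
          exact C.one_mem
        · rcases hP.tot _ h with h1 | h1
          · exact Or.inl (Or.inl h1)
          · right
            left
            rwa [mul_inv_rev, inv_inv] at h1
  toDecidableLE := Classical.decRel _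

end Quot

section Jump

variable {G : Type*} [Group G]

theorem homprop {X : Type*} [Group X] {f f' : X → ℚ} (hf : ∀ x y, f (x * y) = f x + f y)
    (hf' : ∀ x y, f' (x * y) = f' x + f' y) {x1 : X} (hx1 : 0 < f x1)
    (h : ∀ x, 0 < f x → 0 ≤ f' x) : ∃ l : ℚ, ∀ x, f' x = l * f x := by
  have key : ∀ y, f y = 0 → ∀ n : ℤ, 0 ≤ f' x1 + n * f' y := by
    intro y hy n
    have := h (x1 * y ^ n) (by rw [hf, hom_zpow hf, hy, mul_zero, add_zero]; exact hx1)
    rwa [hf', hom_zpow hf'] at this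
  have key2 : ∀ y, f y = 0 → f' y = 0 := by
    intro y hy
    by_contra hne
    rcases lt_or_gt_of_ne hne with h1 | h1
    · obtain ⟨n, hn⟩ := exists_nat_gt (f' x1 / (-f' y))
      rw [div_lt_iff₀ (by linarith)] at hn
      have := key y hy n
      push_cast at this
      linarith
    · obtain ⟨n, hn⟩ := exists_nat_gt (f' x1 / (f' y))
      rw [div_lt_iff₀ h1] at hn
      have := key y hy (-n)
      push_cast at this
      linarith
  refine ⟨f' x1 / f x1, ?_⟩
  intro x
  have hr' : ((f x / f x1).den : ℚ) * f x = (f x / f x1).num * f x1 := by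
    have h4 : ((f x / f x1).den : ℚ) * (f x / f x1) = (f x / f x1).num :=
      Rat.den_mul_eq_num (f x / f x1)
    rw [← h4]
    field_simp
  have hd : ((f x / f x1).den : ℚ) ≠ 0 := by exact_mod_cast (f x / f x1).den_nz
  set p := (f x / f x1).den
  set q := (f x / f x1).num
  have h1 : f (x ^ p * x1 ^ (-q)) = 0 := by
    rw [hf, hom_pow hf, hom_zpow hf, hr']
    push_cast
    ring
  have h2 := key2 _ h1
  rw [hf', hom_pow hf', hom_zpow hf'] at h2
  push_cast at h2
  have h3 : (p : ℚ) * f' x = q * f' x1 := by linarith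
  have h4 : (p : ℚ) * (f' x * f x1) = p * (f' x1 * f x) := by
    calc (p : ℚ) * (f' x * f x1) = (p * f' x) * f x1 := by ring
      _ = (q * f x1) * f' x1 := by rw [h3]; ring
      _ = (p * f x) * f' x1 := by rw [hr']
      _ = p * (f' x1 * f x) := by ring
  have h5 := mul_left_cancel₀ hd h4
  field_simp
  exact h5

theorem lam_exists {P : Set G} (hP : Cone P) {C : Subgroup G}
    (hn : ∀ (d : G) (z : G), z ∈ C → d * z * d⁻¹ ∈ C) {θ : C → ℚ}
    (hT : Tar (Subtype.val ⁻¹' P : Set C) θ) (d : G) :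
    ∃ l : ℚ, l ≠ 0 ∧ ∀ z z' : C, (z' : G) = d * z * d⁻¹ → θ z' = l * θ z := by
  obtain ⟨x1, hx1⟩ := hT.ne
  have hQ : Cone (Subtype.val ⁻¹' {g : G | d⁻¹⁻¹ * g * d⁻¹ ∈ P} : Set C) := (hP.conj d⁻¹).trace C
  have hmemQ : ∀ z : C, z ∈ (Subtype.val ⁻¹' {g : G | d⁻¹⁻¹ * g * d⁻¹ ∈ P} : Set C) →
      d * z * d⁻¹ ∈ P := by
    intro z hz
    have hz' : d⁻¹⁻¹ * (z : G) * d⁻¹ ∈ P := hz
    rwa [inv_inv] at hz'
  have hthP : ∀ z : C, (z : G) ∈ P → 0 ≤ θ z := by
    intro z hz
    by_contra hlt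
    rw [not_le] at hlt
    have h1 : z⁻¹ ∈ (Subtype.val ⁻¹' P : Set C) := by
      apply hT.pos
      rw [hom_inv hT.hom]
      linarith
    exact hP.asym _ hz h1
  have hf' : ∀ x y : C, θ ⟨d * (x * y : C) * d⁻¹, hn d _ (x * y).2⟩ =
      θ ⟨d * x * d⁻¹, hn d _ x.2⟩ + θ ⟨d * y * d⁻¹, hn d _ y.2⟩ := by
    intro x y
    rw [← hT.hom]
    congr 1
    apply Subtype.ext
    show d * ((x : G) * y) * d⁻¹ = (d * x * d⁻¹) * (d * y * d⁻¹)
    group
  obtain ⟨e, he, heQ⟩ : ∃ e : ℚ, (e = 1 ∨ e = -1) ∧ ∀ x : C, 0 < e * θ x →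
      d * (x : G) * d⁻¹ ∈ P := by
    rcases hT.sign _ hQ with h1 | h1
    · refine ⟨1, Or.inl rfl, ?_⟩
      intro x hx
      exact hmemQ x (h1 x (by linarith))
    · refine ⟨-1, Or.inr rfl, ?_⟩
      intro x hx
      exact hmemQ x (h1 x (by linarith))
  obtain ⟨x2, hx2⟩ : ∃ x : C, 0 < e * θ x := by
    rcases he with rfl | rfl
    · exact ⟨x1, by linarith⟩
    · exact ⟨x1⁻¹, by rw [hom_inv hT.hom]; linarith⟩
  obtain ⟨l, hl⟩ := homprop (f := fun x => e * θ x)
    (f' := fun x => θ ⟨d * x * d⁻¹, hn d _ x.2⟩)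
    (by
      intro x y
      show e * θ (x * y) = _
      rw [hT.hom]
      ring) hf' hx2
    (by
      intro x hx
      exact hthP ⟨d * x * d⁻¹, hn d _ x.2⟩ (heQ x hx))
  have hfin : ∀ z z' : C, (z' : G) = d * z * d⁻¹ → θ z' = (l * e) * θ z := by
    intro z z' hzz
    have h1 : z' = ⟨d * z * d⁻¹, hn d _ z.2⟩ := Subtype.ext hzz
    rw [h1]
    calc θ ⟨d * z * d⁻¹, hn d _ z.2⟩ = l * (e * θ z) := hl z
      _ = (l * e) * θ z := by ring
  refine ⟨l * e, ?_, hfin⟩
  intro h0
  have h1 := hfin ⟨d⁻¹ * x1 * d, by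
    have := hn d⁻¹ x1 x1.2
    rwa [inv_inv] at this⟩ x1 (by
      show (x1 : G) = d * (d⁻¹ * x1 * d) * d⁻¹
      group)
  rw [h0, zero_mul] at h1
  exact hx1.ne' h1

theorem jump {P : Set G} (hP : Cone P) (F : Finset G) (hFP : ∀ f ∈ F, f ∈ P)
    (hF : ∀ Q : Set G, Cone Q → (∀ f ∈ F, f ∈ Q) → Q = P) (hG : LHyp G)
    {C : Subgroup G} (hC : Conv P C) (hCt : C ≠ ⊤)
    (hmax : ∀ V : Subgroup G, Conv P V → V ≠ ⊤ → V ≤ C)
    (hgood : Good (Subtype.val ⁻¹' P : Set C)) : ∃ θ : G → ℚ, Tar P θ := by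
  classical
  let _ : LinearOrder (G ⧸ C) := qord P C hP hC
  have hle : ∀ x y : G, ((x : G ⧸ C) ≤ (y : G ⧸ C)) ↔ (x⁻¹ * y ∈ P ∨ x⁻¹ * y ∈ C) := fun x y =>
    qle_mk hP hC x y
  have _ : OAct G (G ⧸ C) := ⟨by
    intro g x y hxy
    induction x using QuotientGroup.induction_on with
    | H x =>
      induction y using QuotientGroup.induction_on with
      | H y =>
        rw [hle] at hxy
        rw [MulAction.Quotient.smul_coe, MulAction.Quotient.smul_coe, hle]
        have e : (g • x)⁻¹ * g • y = x⁻¹ * y := by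
          rw [smul_eq_mul, smul_eq_mul]
          group
        rw [e]
        exact hxy⟩
  have hsm : ∀ g : G, g • ((1 : G) : G ⧸ C) = (g : G ⧸ C) := by
    intro g
    rw [MulAction.Quotient.smul_coe, smul_eq_mul, mul_one]
  have htr : ∀ x : G ⧸ C, ∃ g : G, g • ((1 : G) : G ⧸ C) = x := by
    intro x
    induction x using QuotientGroup.induction_on with
    | H x => exact ⟨x, hsm x⟩
  have hfix : ∀ g : G, g • ((1 : G) : G ⧸ C) = ((1 : G) : G ⧸ C) ↔ g ∈ C := by
    intro g
    rw [hsm, eq_comm, QuotientGroup.eq, inv_one, one_mul]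
  have hpos : ∀ g : G, ((1 : G) : G ⧸ C) < g • ((1 : G) : G ⧸ C) ↔ (g ∈ P ∧ g ∉ C) := by
    intro g
    rw [hsm, ← not_le, hle, mul_one, not_or]
    constructor
    · rintro ⟨h1, h2⟩
      have h3 : g ∉ C := fun h => h2 (C.inv_mem h)
      refine ⟨?_, h3⟩
      rcases hP.tot g (by
        rintro rfl
        exact h3 C.one_mem) with h4 | h4
      · exact h4
      · exact absurd h4 h1
    · rintro ⟨h1, h2⟩
      exact ⟨hP.asym g h1, fun h => h2 (by simpa using C.inv_mem h)⟩
  have hge : ∀ g : G, ((1 : G) : G ⧸ C) ≤ g • ((1 : G) : G ⧸ C) ↔ (g ∈ P ∨ g ∈ C) := by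
    intro g
    rw [hsm, hle, inv_one, one_mul]
  have hm : MaxProp G ((1 : G) : G ⧸ C) := by
    intro V hV hu
    by_contra hVt
    obtain ⟨u, hu, hu'⟩ := hu
    rw [hpos] at hu'
    apply hu'.2
    apply hmax V _ hVt hu
    intro g hg v hv hgv
    apply hV g v hv
    · rw [hge]
      exact Or.inl hg
    · rw [hsm, hsm, hle]
      exact Or.inl hgv
  have hPx : ∀ g : G, ((1 : G) : G ⧸ C) < g • ((1 : G) : G ⧸ C) → g ∈ P := fun g hg =>
    ((hpos g).1 hg).1
  by_cases hnm : NM G ((1 : G) : G ⧸ C)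
  · exfalso
    rcases hgood with hsub | ⟨θ, hT⟩
    · apply core_triv hm htr hnm hP hPx F hFP hF
      intro g hg
      rw [hfix] at hg
      have := Subsingleton.elim (⟨g, hg⟩ : C) 1
      exact congrArg Subtype.val this
    · obtain ⟨c, hc⟩ := hT.ne
      obtain ⟨K, hK⟩ := hT.conj
      have hcP : (c : G) ∈ P := hT.pos c hc
      obtain ⟨a, b, hpar⟩ := core_par hm htr hnm hP hPx F hFP hF
        (K.image (fun κ : C => (κ : G)))
        (by
          intro κ hκ
          obtain ⟨κ', -, rfl⟩ := Finset.mem_image.1 hκ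
          rw [hfix]
          exact κ'.2)
        hcP ((hfix c).2 c.2)
        (by
          intro Q hQ hcQ
          rcases hT.sign _ (hQ.trace C) with h1 | h1
          · obtain ⟨κ, hκ, hκ'⟩ := hK _ (hQ.trace C) h1
            refine ⟨κ, Finset.mem_image_of_mem _ hκ, ?_⟩
            intro x hx
            rw [hfix] at hx
            exact hκ' ⟨x, hx⟩
          · exfalso
            have h2 := h1 c⁻¹ (by rw [hom_inv hT.hom]; linarith)
            exact hQ.asym _ hcQ h2)
        (by
          intro A hA hA' hroot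
          obtain ⟨k, hk⟩ := hT.dcc (fun k => (A k).subgroupOf C)
            (by
              intro k x hx
              rw [Subgroup.mem_subgroupOf] at hx ⊢
              exact hA' k hx)
            (by
              intro k x hx m hm hxm
              rw [Subgroup.mem_subgroupOf] at hx hxm ⊢
              exact hroot k x hx m hm hxm)
          refine ⟨k, le_antisymm (hA' k) ?_⟩
          intro x hx
          have hxC : x ∈ C := (hfix x).1 (hA k x hx)
          have h1 : (⟨x, hxC⟩ : C) ∈ (A k).subgroupOf C := by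
            rw [Subgroup.mem_subgroupOf]
            exact hx
          have h2 : (A (k + 1)).subgroupOf C = (A k).subgroupOf C := hk
          rw [← h2, Subgroup.mem_subgroupOf] at h1
          exact h1)
      exact par_false_local hpar hG
  · obtain ⟨b, hb⟩ : ∃ b : G, ((1 : G) : G ⧸ C) < b • ((1 : G) : G ⧸ C) := by
      obtain ⟨g, hg⟩ : ∃ g : G, g ∉ C := by
        by_contra hcon
        push Not at hcon
        apply hCt
        rw [eq_top_iff]
        intro g _
        exact hcon g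
      have hg1 : g ≠ 1 := by
        rintro rfl
        exact hg C.one_mem
      rcases hP.tot g hg1 with h1 | h1
      · exact ⟨g, (hpos g).2 ⟨h1, hg⟩⟩
      · exact ⟨g⁻¹, (hpos g⁻¹).2 ⟨h1, fun h => hg (by simpa using C.inv_mem h)⟩⟩
    obtain ⟨φ, hφ, hφpos, hφ0⟩ := holder hm htr hnm hb
    have hφ1 : ∀ g, 0 < φ g ↔ ((1 : G) : G ⧸ C) < g • ((1 : G) : G ⧸ C) := by
      intro g
      constructor
      · intro h1
        rcases lt_trichotomy (((1 : G) : G ⧸ C)) (g • ((1 : G) : G ⧸ C)) with h2 | h2 | h2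
        · exact h2
        · rw [hφ0 g h2.symm] at h1
          exact absurd h1 (lt_irrefl _)
        · have h3 : ((1 : G) : G ⧸ C) < g⁻¹ • ((1 : G) : G ⧸ C) := by
            rw [lt_smul', inv_inv]
            exact h2
          have h4 := hφpos _ h3
          rw [hom_inv hφ] at h4
          linarith
      · exact hφpos g
    have hφ2 : ∀ g, g ∈ C ↔ φ g = 0 := by
      intro g
      constructor
      · intro h1
        exact hφ0 g ((hfix g).2 h1)
      · intro h1
        rw [← hfix]
        rcases lt_trichotomy (((1 : G) : G ⧸ C)) (g • ((1 : G) : G ⧸ C)) with h2 | h2 | h2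
        · have := hφpos g h2
          linarith
        · exact h2.symm
        · have h3 : ((1 : G) : G ⧸ C) < g⁻¹ • ((1 : G) : G ⧸ C) := by
            rw [lt_smul', inv_inv]
            exact h2
          have h4 := hφpos _ h3
          rw [hom_inv hφ] at h4
          linarith
    have hbφ := hφpos b hb
    obtain ⟨θ', hθ', hθφ⟩ := rat_hom hP F hFP hF hφ (fun g hg => hPx g ((hφ1 g).1 hg)) hbφ
    have hθpos : ∀ g, 0 < θ' g → g ∈ P := by
      intro g hg
      apply hPx
      rw [← hφ1, hθφ]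
      have : (0 : ℝ) < θ' g := by exact_mod_cast hg
      positivity
    have hθC : ∀ g, g ∈ C ↔ θ' g = 0 := by
      intro g
      rw [hφ2, hθφ, mul_eq_zero]
      constructor
      · rintro (h | h)
        · exact_mod_cast h
        · exact absurd h hbφ.ne'
      · intro h
        left
        exact_mod_cast h
    have hθb : 0 < θ' b := by
      have h1 := hθφ b
      have h2 : (0 : ℝ) < θ' b * φ b := by rw [← h1]; exact hbφ
      have h3 : (0 : ℝ) < θ' b := (pos_iff_pos_of_mul_pos h2).2 hbφ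
      exact_mod_cast h3
    refine ⟨θ', tar_step hP hθ' ⟨b, hθb⟩ hθpos hθC ?_⟩
    rcases hgood with hsub | ⟨θ, hT⟩
    · exact Or.inl hsub
    · right
      refine ⟨θ, hT, ?_⟩
      have hn : ∀ (d : G) (z : G), z ∈ C → d * z * d⁻¹ ∈ C := by
        intro d z hz
        rw [hθC] at hz ⊢
        rw [hom_conj hθ', hz]
      choose lam hlam0 hlam using lam_exists hP hn hT
      by_contra hcon
      push Not at hcon
      have hlpos : ∀ d, 0 < lam d := by
        intro d
        rcases lt_or_gt_of_ne (hlam0 d) with h1 | h1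
        · obtain ⟨z, z', hzz, hne⟩ := hcon d (lam d) h1
          exact absurd (hlam d z z' hzz) hne
        · exact h1
      obtain ⟨c, hc⟩ := hT.ne
      obtain ⟨Th, hTh⟩ : ∃ Th : G → ℚ, ∀ (g : G) (h : g ∈ C), Th g = θ ⟨g, h⟩ :=
        ⟨fun g : G => if h : g ∈ C then θ ⟨g, h⟩ else 0, by
          intro g h
          simp [h]⟩
      refine noflip (Th := Th) (lam := lam)
        hP F hFP hF hθ' hθpos ?_ ?_ ?_ hlpos (c0 := (c : G)) hθb ((hθC _).1 c.2) ?_
      · intro g h hg hh
        have hg' := (hθC g).2 hg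
        have hh' := (hθC h).2 hh
        rw [hTh _ (C.mul_mem hg' hh'), hTh _ hg', hTh _ hh', ← hT.hom]
        rfl
      · intro d g hg
        have hg' := (hθC g).2 hg
        rw [hTh _ (hn d g hg'), hTh _ hg']
        exact hlam d ⟨g, hg'⟩ ⟨d * g * d⁻¹, hn d g hg'⟩ rfl
      · intro g hg hgpos
        have hg' := (hθC g).2 hg
        rw [hTh _ hg'] at hgpos
        exact hT.pos ⟨g, hg'⟩ hgpos
      · rw [hTh _ c.2]
        exact hc

end Jump

end Pool.Agent.H228_Iso
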