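import Mathlib
import Pool.Agent.H228_Iso.Jump

set_option autoImplicit false

namespace Pool.Agent.H228_Iso

universe u

/-- Main induction. -/
theorem main_ind : ∀ (n : ℕ) (G : Type u) [Group G] (P : Set G) (F : Finset G), F.card = n →
    Cone P → (∀ f ∈ F, f ∈ P) → (∀ Q : Set G, Cone Q → (∀ f ∈ F, f ∈ Q) → Q = P) → LHyp G →
    Good P := by
  intro n
  induction n using Nat.strong_induction_on with
  | _ n ih =>
    intro G _ P F hn hP hFP hF hG
    classical
    rcases subsingleton_or_nontrivial G with hs | hs
    · exact Or.inl hs
    · obtain ⟨C, hC, hCt, hmax⟩ := exists_max hP F hFP hF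
      obtain ⟨f, hf, hfC⟩ := not_sub hP hC hCt F hFP hF
      have hcard : (F.subtype (· ∈ C)).card < n := by
        rw [Finset.card_subtype, ← hn]
        apply Finset.card_lt_card
        rw [Finset.filter_ssubset]
        exact ⟨f, hf, hfC⟩
      have hgood : Good (Subtype.val ⁻¹' P : Set C) := by
        refine ih _ hcard C (Subtype.val ⁻¹' P : Set C) (F.subtype (· ∈ C)) rfl (hP.trace C)
          ?_ ?_ (hG.sub C)
        · intro x hx
          rw [Finset.mem_subtype] at hx
          exact hFP x hx
        · intro Q hQ hQF
          have h1 := hF _ (glue hP hC hQ) (by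
            intro y hy
            by_cases hyC : y ∈ C
            · left
              exact ⟨hyC, hQF ⟨y, hyC⟩ (by rw [Finset.mem_subtype]; exact hy)⟩
            · right
              exact ⟨hyC, hFP y hy⟩)
          ext x
          constructor
          · intro hx
            show (x : G) ∈ P
            rw [← h1]
            left
            exact ⟨x.2, hx⟩
          · intro hx
            have hx' : (x : G) ∈ P := hx
            rw [← h1] at hx'
            rcases hx' with ⟨_, hx'⟩ | ⟨hx', -⟩
            · exact hx'
            · exact absurd x.2 hx'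
      exact Or.inr (jump hP F hFP hF hG hC hCt hmax hgood)

/-- Finiteness from an isolated order, in the monoid form of the hypothesis. -/
theorem finite_of_isolated (G : Type u) [Group G] (hG : LHyp G) (P : Set G) (hP : Cone P)
    (F : Finset G) (hF : ∀ Q : Set G, Cone Q → (∀ g ∈ F, (g ∈ Q ↔ g ∈ P)) → Q = P) :
    {Q : Set G | Cone Q}.Finite := by
  classical
  have := main_ind _ G P ((F.filter (· ∈ P)) ∪ (F.filter (fun g => g⁻¹ ∈ P)).image (fun g => g⁻¹))
    rfl hP
    (by
      intro f hf
      rcases Finset.mem_union.1 hf with h1 | h1
      · exact (Finset.mem_filter.1 h1).2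
      · obtain ⟨g, hg, rfl⟩ := Finset.mem_image.1 h1
        exact (Finset.mem_filter.1 hg).2)
    (by
      intro Q hQ hQF
      apply hF Q hQ
      intro g hg
      constructor
      · intro hgQ
        by_contra hgP
        have hg1 : g ≠ 1 := by
          rintro rfl
          exact hQ.one hgQ
        have h1 : g⁻¹ ∈ P := (hP.tot g hg1).resolve_left hgP
        have h2 := hQF g⁻¹ (Finset.mem_union_right _ (Finset.mem_image_of_mem _
          (Finset.mem_filter.2 ⟨hg, h1⟩)))
        exact hQ.asym g hgQ h2
      · intro hgP
        exact hQF g (Finset.mem_union_left _ (Finset.mem_filter.2 ⟨hg, hgP⟩))) hG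
  exact this.fin

end Pool.Agent.H228_Iso
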